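import Pool.Agent.H547R7.Stm2

/-!
# Assembly
-/

set_option autoImplicit false

namespace Pool.Agent.H547R7

open Pool.Agent.H547R6 Pool.Agent.NPC Pool.Agent.H424R2.PPAD

theorem LogGen.mono {T T' : ∀ m : ℕ, Set (BF m)} {ε ε' : ℕ → ℝ} (hT : ∀ m, T' m ⊆ T m)
    (he : ∀ m, ε m ≤ ε' m) (h : LogGen T ε) : LogGen T' ε' := by
  obtain ⟨d, G, hd, hG, c, m₀, h⟩ := h
  refine ⟨d, G, hd, hG, c, m₀, fun m hm => ?_⟩
  obtain ⟨h1, h2, h3, h4⟩ := h m hm
  exact ⟨h1, h2, h3, fun C hC => (h4 C (hT m hC)).trans (he m)⟩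

theorem step (h : S_L2) {κ : ℝ} (h0 : 0 < κ) (h1 : κ < 1 / 2)
    (hk : LogGen (T0 1) fun _ => κ) : LogGen (T0 1) fun _ => κ * (κ + 1 / 2) := by
  have := h κ (κ * (1 / 2 - κ) / 4) h0.le (by linarith) (by
    have : 0 < κ * (1 / 2 - κ) := mul_pos h0 (by linarith)
    linarith) (by nlinarith) hk
  refine this.mono (fun _ => le_rfl) fun m => ?_
  nlinarith

theorem iter (h : S_L2) {κ : ℝ} (h0 : 0 < κ) (h1 : κ < 1 / 2)
    (hk : LogGen (T0 1) fun _ => κ) (j : ℕ) :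
    LogGen (T0 1) fun _ => κ * (κ + 1 / 2) ^ j := by
  induction j with
  | zero => simpa using hk
  | succ j ih =>
    have hρ : 0 < (κ + 1 / 2) ^ j := by positivity
    have hρ1 : (κ + 1 / 2) ^ j ≤ 1 := pow_le_one₀ (by linarith) (by linarith)
    have hle : κ * (κ + 1 / 2) ^ j ≤ κ := by nlinarith
    refine (step h (by positivity) (by linarith) ih).mono (fun _ => le_rfl) fun m => ?_
    rw [pow_succ, ← mul_assoc]
    exact mul_le_mul_of_nonneg_left (by linarith) (by positivity)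

theorem anyeps (h : S_L2) {κ ε : ℝ} (h1 : κ < 1 / 2) (hε : 0 < ε)
    (hk : LogGen (T0 1) fun _ => κ) : LogGen (T0 1) fun _ => ε := by
  have hk' : LogGen (T0 1) fun _ => max κ (1 / 4) := hk.mono (fun _ => le_rfl) fun _ => le_max_left _ _
  have h0 : 0 < max κ (1 / 4) := lt_of_lt_of_le (by norm_num) (le_max_right _ _)
  have h2 : max κ (1 / 4) < 1 / 2 := max_lt h1 (by norm_num)
  generalize max κ (1 / 4) = κ' at hk' h0 h2
  obtain ⟨j, hj⟩ := exists_pow_lt_of_lt_one (show 0 < ε by exact hε)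
    (show κ' + 1 / 2 < 1 by linarith)
  refine (iter h h0 h2 hk' j).mono (fun _ => le_rfl) fun _ => ?_
  have : 0 ≤ (κ' + 1 / 2) ^ j := by positivity
  nlinarith

/-- the main theorem from the tasks -/
theorem main_of (hclo : S_CLO) (hl1 : S_L1A) (hl2 : S_L2) (hl3 : S_L3) (hdua : S_DUA)
    (heas : S_EAS) :
    LogGen (fun m => {C | ∃ (B : Set BFun) (s : ℕ),
      (B ⊆ Aff ∨ B ⊆ Conj ∨ B ⊆ Disj ∨ B ⊆ SelfDual) ∧ Computes B m s C}) (fun m => 1 / m) ∧
    ∀ B : Set BFun, B.Finite → ¬ B ⊆ Aff → ¬ B ⊆ Conj → ¬ B ⊆ Disj → ¬ B ⊆ SelfDual →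
      ∀ ε : ℝ, 0 < ε → ε < 1 / 6 →
        (LogGen (fun m => {C | Computes B m m C}) (fun _ => ε) ↔
          LogGen (fun m => {C | Comp0 m m C}) (fun _ => 1 / 8)) := by
  refine ⟨heas, fun B hfin hA hC hD hS ε h0 h1 => ?_⟩
  have e1 : (fun m => {C | Comp0 m m C}) = T0 1 := by
    funext m
    simp [T0]
  rw [e1]
  constructor
  · intro h
    have key : ∃ B' : Set BFun, Op3 B' (fun a b c => a && (b || c)) ∧
        LogGen (TB B') (fun _ => ε) := by
      rcases hclo B hA hC hD hS with h' | h'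
      · exact ⟨B, h', h⟩
      · refine ⟨dualB B, ?_, hdua B ε h⟩
        refine (Gen.dual h').congr fun x => ?_
        simp only []
        generalize x 0 = p
        generalize x 1 = q
        generalize x 2 = r
        revert p q r
        decide
    obtain ⟨B', hB', hG⟩ := key
    obtain ⟨κ, hκ, hL⟩ := hl1 B' hB' ε h0.le h1 hG
    exact anyeps hl2 hκ (by norm_num) hL
  · intro h
    exact hl3 B ε hfin (anyeps hl2 (by norm_num) h0 h)

end Pool.Agent.H547R7
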