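import Pool.Agent.H547R6.Bs1
import Pool.Agent.H424R2.PPAD.Defs

/-!
# Logarithmic-seed generators against circuits over sets of Boolean functions: definitions
-/

set_option autoImplicit false

namespace Pool.Agent.H547R7

open Pool.Agent.H547R6 Pool.Agent.NPC Pool.Agent.H424R2.PPAD

/-- Boolean functions of `n` variables -/
abbrev BF (n : ℕ) : Type := (Fin n → Bool) → Bool

/-- functions that commute with conjunction: the constants and the conjunctions of variables -/
def Conj : Set BFun := {f | ∀ x y, f.2 (fun i => x i && y i) = (f.2 x && f.2 y)}

/-- functions that commute with disjunction: the constants and the disjunctions of variables -/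
def Disj : Set BFun := {f | ∀ x y, f.2 (fun i => x i || y i) = (f.2 x || f.2 y)}

/-- `f` is one of the functions of the list `l` or a variable -/
def Avail {n : ℕ} (l : List (BF n)) (f : BF n) : Prop := f ∈ l ∨ ∃ i, f = fun x => x i

/-- Circuits over the gate set `B` with `n` inputs, given by the list of the functions computed by
the gates, the last gate first: each gate applies a function of `B` to inputs or to the results of
earlier gates. -/
inductive Gates (B : Set BFun) (n : ℕ) : List (BF n) → Prop
  | nil : Gates B n []
  | gate (l : List (BF n)) (k : ℕ) (f : (Fin k → Bool) → Bool) (g : Fin k → BF n)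
      (hf : (⟨k, f⟩ : BFun) ∈ B) (hg : ∀ j, Avail l (g j)) (hl : Gates B n l) :
      Gates B n ((fun x => f fun j => g j x) :: l)

/-- `C` is computed by a circuit over `B` with at most `s` gates -/
def Computes (B : Set BFun) (n s : ℕ) (C : BF n) : Prop :=
  ∃ l, Gates B n l ∧ l.length ≤ s ∧ Avail l C

/-- Circuits with AND, OR (fan-in two) and NOT gates, given by the list of the functions computed
by the gates, the last gate first; the number counts the AND and OR gates only. -/
inductive AON (n : ℕ) : ℕ → List (BF n) → Prop
  | nil : AON n 0 []
  | not (s : ℕ) (l : List (BF n)) (a : BF n) (h : AON n s l) (ha : Avail l a) :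
      AON n s ((fun x => !a x) :: l)
  | and (s : ℕ) (l : List (BF n)) (a b : BF n) (h : AON n s l) (ha : Avail l a)
      (hb : Avail l b) : AON n (s + 1) ((fun x => a x && b x) :: l)
  | or (s : ℕ) (l : List (BF n)) (a b : BF n) (h : AON n s l) (ha : Avail l a)
      (hb : Avail l b) : AON n (s + 1) ((fun x => a x || b x) :: l)

/-- `C` is computed by a circuit with AND, OR and NOT gates of size at most `s` (the number of AND
and OR gates) -/
def Comp0 (n s : ℕ) (C : BF n) : Prop := ∃ l s', AON n s' l ∧ s' ≤ s ∧ Avail l C

/-- the fraction of the `x` with `p x = true` -/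
noncomputable def pr {Ω : Type} [Fintype Ω] (p : Ω → Bool) : ℝ :=
  ((Finset.univ.filter fun x => p x = true).card : ℝ) / Fintype.card Ω

/-- the first `n` bits of a list -/
def vec (n : ℕ) (l : List Bool) : Fin n → Bool := fun i => l.getD i false

/-- There is a logarithmic-seed generator against the tests `T m` (on `m` bits) with advantage at
most `ε m`: functions `d` and `G m : {0,1}^(d m) → {0,1}^m`, computable from `1^m`, respectively
from `1^m` and the seed, in polynomial time, such that for some constant `c` and all large `m`,
`d m ≤ c ⌊log₂ m⌋`, `d m < m` and every test `C ∈ T m` has advantage at most `ε m`. -/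
def LogGen (T : ∀ m : ℕ, Set (BF m)) (ε : ℕ → ℝ) : Prop :=
  ∃ (d : ℕ → ℕ) (G : ℕ → List Bool → List Bool),
    PTime (fun u : List Bool => d u.length) ∧
    PTime (fun p : List Bool × List Bool => G p.1.length p.2) ∧
    ∃ c m₀ : ℕ, ∀ m, m₀ ≤ m → d m ≤ c * Nat.log 2 m ∧ d m < m ∧
      (∀ s : List Bool, s.length = d m → (G m s).length = m) ∧
      ∀ C ∈ T m, |pr (fun s : Fin (d m) → Bool => C (vec m (G m (List.ofFn s)))) - pr C| ≤ ε m

/-! ### auxiliary notions for the proof -/

/-- the gate set of monotone circuits: AND and OR of fan-in two -/
def MB : Set BFun := {⟨2, fun x => x 0 && x 1⟩, ⟨2, fun x => x 0 || x 1⟩}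

/-- a constant, or computed by a monotone circuit with at most `s` gates -/
def MC (n s : ℕ) (f : BF n) : Prop := (∃ b, ∀ x, f x = b) ∨ Computes MB n s f

/-- number of ones -/
def wt {n : ℕ} (x : Fin n → Bool) : ℕ := (Finset.univ.filter fun i => x i = true).card

/-- the slice function of `C` at level `k` -/
def slice (n k : ℕ) (C : BF n) : BF n := fun x => decide (k < wt x) || (decide (wt x = k) && C x)

/-- number of the indices `i` with `g i (z i) = true` -/
def cnt {n r : ℕ} (g : Fin r → BF n) (z : Fin r → Fin n → Bool) : ℕ :=
  (Finset.univ.filter fun i => g i (z i) = true).card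

/-- the blocks of a vector -/
def blk {n r : ℕ} (z : Fin (r * n) → Bool) : Fin r → Fin n → Bool :=
  fun i j => z (finProdFinEquiv (i, j))

end Pool.Agent.H547R7
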