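import Pool.Agent.H547R7.Defs

/-!
# Statements of the tasks
-/

set_option autoImplicit false

namespace Pool.Agent.H547R7

open Pool.Agent.H547R6 Pool.Agent.NPC Pool.Agent.H424R2.PPAD

/-- a constant, or available -/
def MCa {n : ℕ} (l : List (BF n)) (f : BF n) : Prop := (∃ b, ∀ x, f x = b) ∨ Avail l f

/-- coordinatewise sum -/
def vx {n : ℕ} (x y : Fin n → Bool) : Fin n → Bool := fun i => xor (x i) (y i)

/-- parity of the number of `i < n` with `f i` -/
def par (n : ℕ) (f : ℕ → Bool) : Bool := decide ((List.range n).countP f % 2 = 1)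

/-- cyclic convolution of two bit vectors of length `n` -/
def conv (n : ℕ) (a b : List Bool) : List Bool :=
  (List.range n).map fun k => par n fun i => a.getD i false && b.getD ((k + n - i) % n) false

/-- powers with respect to cyclic convolution -/
def pw (n : ℕ) (a : List Bool) : ℕ → List Bool
  | 0 => (List.range n).map fun k => decide (k = 0)
  | i + 1 => conv n a (pw n a i)

/-- inner product of the second half of `w` with the `i`-th power of the first half of `w` -/
def sbit (n : ℕ) (w : List Bool) (i : ℕ) : Bool :=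
  par n fun j => w.getD (n + j) false && (pw n w i).getD j false

/-- every finite gate set can be simulated by AND, OR, NOT gates with a constant factor -/
def S_ORG : Prop := ∀ B : Set BFun, B.Finite →
  ∃ c : ℕ, ∀ (n s : ℕ) (C : BF n), 1 ≤ n → Computes B n s C → Comp0 n (c * s) C

/-- thresholds of available functions by monotone circuits -/
def S_THR : Prop := ∀ (n r : ℕ) (l : List (BF n)) (g : Fin r → BF n), Gates MB n l →
  (∀ i, MCa l (g i)) → ∀ θ : ℕ, ∃ l', Gates MB n (l' ++ l) ∧ l'.length ≤ 2 * r * (r + 1) ∧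
    MCa (l' ++ l) (fun x => decide (θ ≤ (Finset.univ.filter fun i => g i x = true).card))

/-- the slice functions of a function computed by a small circuit have small monotone circuits -/
def S_SLI : Prop := ∀ (n q k : ℕ) (C : BF n), Comp0 n q C →
  MC n (4 * (n + 1) ^ 3 + 2 * q) (slice n k C)

/-- thresholds of slice functions on blocks have small monotone circuits -/
def S_TST : Prop := ∀ (n r q : ℕ) (k : Fin r → ℕ) (C : BF n), Comp0 n q C → ∀ θ : ℕ,
  MC (r * n) (r * (4 * (n + 1) ^ 3 + 2 * q) + 2 * r * (r + 1))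
    (fun z => decide (θ ≤ cnt (fun i => slice n (k i) C) (blk z)))

/-- Chebyshev's inequality for the number of successes in `r` independent blocks -/
def S_CHE : Prop := ∀ (n r : ℕ) (g : Fin r → BF n) (a : ℝ), 0 < a →
  (∀ θ : ℕ, ∑ i, pr (g i) + a ≤ θ →
    pr (fun z : Fin (r * n) → Bool => decide (θ ≤ cnt g (blk z))) ≤ r / (4 * a ^ 2)) ∧
  (∀ θ : ℕ, (θ : ℝ) ≤ ∑ i, pr (g i) - a →
    1 - r / (4 * a ^ 2) ≤ pr (fun z : Fin (r * n) → Bool => decide (θ ≤ cnt g (blk z))))

/-- sum of the probabilities of the slice functions -/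
def S_EXP : Prop := ∀ (n : ℕ) (C : BF n),
  ∑ k ∈ Finset.range (n + 1), pr (slice n k C) = n / 2 + pr C

/-- sampling (Chernoff's inequality and union bound) -/
def S_SAM : Prop := ∀ (Ω Y : Type) [Fintype Ω] [Nonempty Ω] [Fintype Y] (h : Y → Ω → Bool)
  (n T : ℕ) (δ : ℝ), 0 < δ → δ ≤ 1 → Fintype.card Y ≤ 2 ^ n → 4 * ((n : ℝ) + 2) ≤ T * δ ^ 2 →
  ∃ s : Fin T → Ω, ∀ y,
    |((Finset.univ.filter fun i => h y (s i) = true).card : ℝ) / T - pr (h y)| ≤ δ

/-- the sum of two independent copies of a generator -/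
def S_XOR : Prop := ∀ (Ω : Type) [Fintype Ω] [Nonempty Ω] (n : ℕ) (G : Ω → Fin n → Bool)
  (C : BF n) (T : ℕ) (s : Fin T → Ω) (ε δ : ℝ), 0 < T → 0 ≤ ε → ε ≤ 1 → 0 ≤ δ →
  (∀ y, |((Finset.univ.filter fun i => C (vx (G (s i)) y) = true).card : ℝ) / T -
    pr (fun w => C (vx (G w) y))| ≤ δ) →
  (∀ θ : ℕ, |pr (fun w => decide (θ ≤ (Finset.univ.filter fun i =>
      C (vx (G (s i)) (G w)) = true).card)) -
    pr (fun y => decide (θ ≤ (Finset.univ.filter fun i =>
      C (vx (G (s i)) y) = true).card))| ≤ ε) →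
  (∀ y, |pr (fun w => C (vx (G w) y)) - pr C| ≤ ε) →
  |pr (fun w : Ω × Ω => C (vx (G w.1) (G w.2))) - pr C| ≤ 2 * ε ^ 2 + 4 * δ

/-- the small-bias generator from the group ring of the cyclic group of order `3^(l+1)` -/
def S_ALG : Prop := ∀ (l m : ℕ) (T : Finset ℕ), T.Nonempty → T ⊆ Finset.range m →
  |pr (fun w : Fin (2 * 3 ^ (l + 1)) → Bool => decide ((T.filter fun i =>
      sbit (3 ^ (l + 1)) (List.ofFn w) i = true).card % 2 = 1)) - 1 / 2| ≤
    (m : ℝ) / 2 ^ (2 * 3 ^ l)

/-- a small-bias distribution, made symmetric under complementation, fools the easy circuits -/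
def S_FOO : Prop := ∀ (Ω : Type) [Fintype Ω] [Nonempty Ω] (n : ℕ) (D : Ω → Fin n → Bool) (β : ℝ),
  0 ≤ β →
  (∀ T : Finset (Fin n), T.Nonempty →
    |pr (fun w => decide ((T.filter fun i => D w i = true).card % 2 = 1)) - 1 / 2| ≤ β) →
  ∀ (B : Set BFun) (s : ℕ) (C : BF n), (B ⊆ Aff ∨ B ⊆ Conj ∨ B ⊆ Disj ∨ B ⊆ SelfDual) →
    Computes B n s C →
    |pr (fun w : Ω × Bool => C (fun i => xor (D w.1 i) w.2)) - pr C| ≤ 2 * β

/-- what a gate set generates outside of the four easy classes -/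
def S_CLO : Prop := ∀ B : Set BFun, ¬ B ⊆ Aff → ¬ B ⊆ Conj → ¬ B ⊆ Disj → ¬ B ⊆ SelfDual →
  Op3 B (fun a b c => a && (b || c)) ∨ Op3 B (fun a b c => a || (b && c))

end Pool.Agent.H547R7
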