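import Pool.Agent.H547R7.T_CLO
import Pool.Agent.H671R2.PolyAuto

/-!
# Statements of the tasks, second part
-/

set_option autoImplicit false

namespace Pool.Agent.H547R7

open Pool.Agent.H547R6 Pool.Agent.NPC Pool.Agent.H424R2.PPAD

/-! ### lists of points -/

/-- the fraction of the members of `l` with `p` -/
noncomputable def cp {α : Type} (l : List α) (p : α → Bool) : ℝ := (l.countP p : ℝ) / l.length

/-- all bit strings of length `d` -/
def allS : ℕ → List (List Bool)
  | 0 => [[]]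
  | d + 1 => (allS d).map (fun s => false :: s) ++ (allS d).map (fun s => true :: s)

/-! ### the transformation of a generator; `e` is the accuracy, `n` the number of output bits -/

/-- number of blocks -/
def rr (e n : ℕ) : ℕ := 2 * e ^ 3 * (n + 1) ^ 2
/-- threshold -/
def a1 (e n : ℕ) : ℕ := e ^ 3 * (n + 1) * n + 2 * e ^ 3 * (n + 1) - 2 * e ^ 2 * (n + 1)
/-- threshold -/
def a0 (e n : ℕ) : ℕ := e ^ 3 * (n + 1) * n - 2 * e ^ 2 * (n + 1)
/-- threshold -/
def b0 (e n : ℕ) : ℕ := e ^ 3 * (n + 1) * n + 2 * e ^ 2 * (n + 1)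
/-- number of blocks taken -/
def kk (e n : ℕ) : ℕ := 2 * e ^ 3 * (n + 1) - 4 * e ^ 2 * (n + 1)

/-- the slice functions of `C`, block `i` having level `i % (n + 1)` -/
def sl (e n : ℕ) (C : BF n) : Fin (rr e n) → BF n := fun i => slice n (i.val % (n + 1)) C

/-- test -/
def tLow (e n : ℕ) : BF (rr e n * n) := fun z =>
  decide (a1 e n ≤ cnt (sl e n fun _ => true) (blk z)) &&
    decide (a0 e n ≤ cnt (sl e n fun _ => false) (blk z))
/-- test -/
def tHi0 (e n : ℕ) : BF (rr e n * n) := fun z => decide (b0 e n ≤ cnt (sl e n fun _ => false) (blk z))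
/-- test -/
def tHi (e n : ℕ) (C : BF n) (θ : ℕ) : BF (rr e n * n) := fun z =>
  tHi0 e n z || decide (θ ≤ cnt (sl e n C) (blk z))

/-- the bits of `y` after the first one -/
def vecD (e n : ℕ) (y : List Bool) : Fin (rr e n * n) → Bool := fun i => y.getD (1 + i) false

/-- the points of the list `ys` fool the test `x₀ ∧ T` -/
def Good (e n : ℕ) (ys : List (List Bool)) (ε : ℝ) (T : BF (rr e n * n)) : Prop :=
  |cp ys (fun y => y.getD 0 false && T (vecD e n y)) - pr T / 2| ≤ ε

/-- number of ones -/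
def wtL (x : List Bool) : ℕ := x.countP fun b => b
/-- block `i` of `y` -/
def blkL (n : ℕ) (y : List Bool) (i : ℕ) : List Bool := (y.drop (1 + n * i)).take n
/-- number of blocks whose weight is at least the level -/
def s1L (e n : ℕ) (y : List Bool) : ℕ :=
  (List.range (rr e n)).countP fun i => decide (i % (n + 1) ≤ wtL (blkL n y i))
/-- number of blocks whose weight is above the level -/
def s0L (e n : ℕ) (y : List Bool) : ℕ :=
  (List.range (rr e n)).countP fun i => decide (i % (n + 1) < wtL (blkL n y i))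
/-- filter -/
def passL (e n : ℕ) (y : List Bool) : Bool :=
  y.getD 0 false && (decide (a1 e n ≤ s1L e n y) && (decide (a0 e n ≤ s0L e n y) &&
    decide (s0L e n y < b0 e n)))
/-- the blocks whose weight is equal to the level -/
def mbL (e n : ℕ) (y : List Bool) : List (List Bool) :=
  ((List.range (rr e n)).filter fun i => decide (wtL (blkL n y i) = i % (n + 1))).map (blkL n y)
/-- the new list of points -/
def dL (e n : ℕ) (ys : List (List Bool)) : List (List Bool) :=
  ys.flatMap fun y => if passL e n y = true then (mbL e n y).take (kk e n) else []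

/-- the new generator -/
def gen1 (e c a : ℕ) (d : ℕ → ℕ) (G : ℕ → List Bool → List Bool) (n : ℕ) (s : List Bool) :
    List Bool :=
  let M := (n + 2) ^ a
  if d M ≤ c * Nat.log 2 M then
    let D := dL e n ((allS (d M)).map (G M))
    if D = [] then List.replicate n false else D.getD (valB s % D.length) (List.replicate n false)
  else List.replicate n false

/-- all circuits over `B` of size `m` on `m` inputs -/
def TB (B : Set BFun) : ∀ m : ℕ, Set (BF m) := fun m => {C | Computes B m m C}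

/-- all circuits of size `m ^ k` on `m` inputs -/
def T0 (k : ℕ) : ∀ m : ℕ, Set (BF m) := fun m => {C | Comp0 m (m ^ k) C}

/-! ### tasks -/

/-- restriction to the first coordinates -/
def S_PRJ : Prop := (∀ (n N : ℕ) (h : n ≤ N) (f : BF n),
    pr (fun y : Fin N → Bool => f (fun i => y (Fin.castLE h i))) = pr f) ∧
  ∀ (n : ℕ) (f : BF n), pr (fun y : Fin (n + 1) → Bool => y 0 && f (fun i => y i.succ)) = pr f / 2

/-- the list of all bit strings -/
def S_ALS : Prop := (∀ d, (allS d).length = 2 ^ d) ∧ (∀ d, ∀ s ∈ allS d, s.length = d) ∧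
  ∀ d (p : List Bool → Bool), cp (allS d) p = pr (fun s : Fin d → Bool => p (List.ofFn s))

/-- choice of a member of a list by a random bit string -/
def S_MOD : Prop := ∀ (α : Type) (x₀ : α) (D : List α) (p : α → Bool) (d : ℕ), D ≠ [] →
  |pr (fun s : Fin d → Bool => p (D.getD (valB (List.ofFn s) % D.length) x₀)) - cp D p| ≤
    (D.length : ℝ) / 2 ^ d

/-- monotone circuits are simulated under `x₀ ∧` -/
def S_GAD : Prop := ∀ B : Set BFun, Op3 B (fun a b c => a && (b || c)) →
  ∃ c : ℕ, ∀ (n s : ℕ) (f : BF n), Computes MB n s f →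
    Computes B (n + 1) (c * (s + 1)) (fun x => x 0 && f (fun i => x i.succ))

/-- the core of the argument -/
def S_COR : Prop := ∀ (e n : ℕ) (ys : List (List Bool)) (ε : ℝ) (C : BF n), 8 ≤ e → 1 ≤ n →
  ys ≠ [] → (∀ y ∈ ys, 1 + rr e n * n ≤ y.length) → ε + 1 / (8 * e) ≤ 1 / 4 →
  Good e n ys ε (tLow e n) → Good e n ys ε (tHi0 e n) → (∀ θ, Good e n ys ε (tHi e n C θ)) →
  dL e n ys ≠ [] ∧
    cp (dL e n ys) (fun x => C (vec n x)) ≤
      pr C + 5 / ((e : ℝ) - 2) + (ε + 1 / (8 * e)) / (1 / 2 - ε - 1 / (8 * e))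

/-- complexity of the tests -/
def S_CPX : Prop := ∀ (e n : ℕ) (C : BF n) (θ : ℕ), 1 ≤ n → Comp0 n n C →
  MC (rr e n * n) (2 * (rr e n * (4 * (n + 1) ^ 3 + 2 * n) + 2 * rr e n * (rr e n + 1)) + 1)
    (tLow e n) ∧
  MC (rr e n * n) (2 * (rr e n * (4 * (n + 1) ^ 3 + 2 * n) + 2 * rr e n * (rr e n + 1)) + 1)
    (tHi0 e n) ∧
  MC (rr e n * n) (2 * (rr e n * (4 * (n + 1) ^ 3 + 2 * n) + 2 * rr e n * (rr e n + 1)) + 1)
    (tHi e n C θ)

/-- the new generator is computed in polynomial time -/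
def S_L1P : Prop := ∀ (e c a : ℕ) (d : ℕ → ℕ) (G : ℕ → List Bool → List Bool),
  PTime (fun u : List Bool => d u.length) →
  PTime (fun p : List Bool × List Bool => G p.1.length p.2) →
  PTime (fun p : List Bool × List Bool => gen1 e c a d G p.1.length p.2)

/-- from a gate set that generates `a ∧ (b ∨ c)` to all circuits -/
def S_L1A : Prop := ∀ B : Set BFun, Op3 B (fun a b c => a && (b || c)) → ∀ ε : ℝ, 0 ≤ ε →
  ε < 1 / 6 → LogGen (TB B) (fun _ => ε) → ∃ κ < (1 / 2 : ℝ), LogGen (T0 1) (fun _ => κ)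

/-- larger circuits -/
def S_L0 : Prop := ∀ (k : ℕ) (ε : ℝ), 1 ≤ k → LogGen (T0 1) (fun _ => ε) →
  LogGen (T0 k) (fun _ => ε)

/-- sum of two copies -/
def S_L2 : Prop := ∀ ε δ : ℝ, 0 ≤ ε → ε ≤ 1 → 0 < δ → δ ≤ 1 → LogGen (T0 1) (fun _ => ε) →
  LogGen (T0 1) (fun _ => 2 * ε ^ 2 + 4 * δ)

/-- from all circuits to circuits over a finite gate set -/
def S_L3 : Prop := ∀ (B : Set BFun) (ε : ℝ), B.Finite → LogGen (T0 1) (fun _ => ε) →
  LogGen (TB B) (fun _ => ε)

/-- dual gate sets -/
def S_DUA : Prop := ∀ (B : Set BFun) (ε : ℝ), LogGen (TB B) (fun _ => ε) →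
  LogGen (TB (dualB B)) (fun _ => ε)

/-- the explicit generator against the easy circuits -/
def S_EAS : Prop :=
  LogGen (fun m => {C | ∃ (B : Set BFun) (s : ℕ),
    (B ⊆ Aff ∨ B ⊆ Conj ∨ B ⊆ Disj ∨ B ⊆ SelfDual) ∧ Computes B m s C}) (fun m => 1 / m)

end Pool.Agent.H547R7
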