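import Pool.Agent.H547R7.Stm

set_option autoImplicit false

namespace Pool.Agent.H547R7

open Pool.Agent.H547R6 Pool.Agent.NPC Pool.Agent.H424R2.PPAD

namespace ALGaux


theorem val3 (l r : ℕ) (hr : 1 ≤ r) (h : 3 ^ (l + 1) ∣ 2 ^ r - 1) : 2 * 3 ^ l ≤ r := by
  have h3 : 3 ∣ 2 ^ r - 1 := (dvd_pow_self 3 (Nat.succ_ne_zero l)).trans h
  have hev : r % 2 = 0 := by
    by_contra hodd
    have h1 : r = 2 * (r / 2) + 1 := by omega
    have h2 : 2 ^ r % 3 = 2 := by
      rw [h1, pow_succ, pow_mul, Nat.mul_mod, Nat.pow_mod]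
      norm_num
    have h4 : 1 ≤ 2 ^ r := Nat.one_le_two_pow
    omega
  obtain ⟨k, hk⟩ : ∃ k, r = 2 * k := ⟨r / 2, by omega⟩
  have hk0 : k ≠ 0 := by omega
  have h4 : 2 ^ r - 1 = 4 ^ k - 1 ^ k := by
    rw [hk, pow_mul, one_pow]
    norm_num
  rw [h4] at h
  have hne : 4 ^ k - 1 ^ k ≠ 0 := by
    rw [one_pow]
    have : 1 < 4 ^ k := Nat.one_lt_pow hk0 (by norm_num)
    omega
  have : Fact (Nat.Prime 3) := ⟨Nat.prime_three⟩
  have h5 : l + 1 ≤ padicValNat 3 (4 ^ k - 1 ^ k) :=
    (padicValNat_dvd_iff_le hne).mp h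
  rw [padicValNat.pow_sub_pow (by decide) (by norm_num) (by norm_num) (by norm_num) hk0] at h5
  have h6 : padicValNat 3 (4 - 1) = 1 := by
    norm_num
  rw [h6] at h5
  have h7 : 3 ^ l ∣ k := (padicValNat_dvd_iff_le hk0).mpr (by omega)
  have h8 := Nat.le_of_dvd (Nat.pos_of_ne_zero hk0) h7
  omega

theorem card_adjoin (l : ℕ) (ζ : AlgebraicClosure (ZMod 2)) (hζ : IsPrimitiveRoot ζ (3 ^ (l + 1))) :
    Finite (Algebra.adjoin (ZMod 2) {ζ}) ∧
    2 ^ (2 * 3 ^ l) ≤ Nat.card (Algebra.adjoin (ZMod 2) {ζ}) := by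
  have : Fact (Nat.Prime 2) := ⟨Nat.prime_two⟩
  have hint : IsIntegral (ZMod 2) ζ := Algebra.IsIntegral.isIntegral ζ
  set A := IntermediateField.adjoin (ZMod 2) {ζ} with hA
  have : FiniteDimensional (ZMod 2) A := IntermediateField.adjoin.finiteDimensional hint
  have : Finite A := Module.finite_of_finite (ZMod 2)
  have : Fintype A := Fintype.ofFinite A
  have hcard : Fintype.card A = 2 ^ Module.finrank (ZMod 2) A := by
    rw [Module.card_eq_pow_finrank (K := ZMod 2), ZMod.card]
  have hmem : ζ ∈ A := IntermediateField.mem_adjoin_simple_self (ZMod 2) ζ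
  have hr : 1 ≤ Module.finrank (ZMod 2) A := Module.finrank_pos
  have hne : (⟨ζ, hmem⟩ : A) ≠ 0 := by
    intro h0
    have h1 := congrArg Subtype.val h0
    exact hζ.ne_zero (by positivity) h1
  have hpow := FiniteField.pow_card_sub_one_eq_one (⟨ζ, hmem⟩ : A) hne
  have hpow' : ζ ^ (2 ^ Module.finrank (ZMod 2) A - 1) = 1 := by
    rw [← hcard]
    exact congrArg Subtype.val hpow
  have hdvd := (hζ.pow_eq_one_iff_dvd _).mp hpow'
  have hle := val3 l _ hr hdvd
  have heq : (A.toSubalgebra : Subalgebra (ZMod 2) (AlgebraicClosure (ZMod 2))) =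
      Algebra.adjoin (ZMod 2) {ζ} :=
    IntermediateField.adjoin_simple_toSubalgebra_of_isAlgebraic hint.isAlgebraic
  rw [← heq]
  constructor
  · exact (inferInstance : Finite A)
  · change 2 ^ (2 * 3 ^ l) ≤ Nat.card A
    rw [Nat.card_eq_fintype_card, hcard]
    exact Nat.pow_le_pow_right (by norm_num) hle



/-- bits as elements of a ring of characteristic two -/
def be (R : Type) [Ring R] (b : Bool) : R := if b = true then 1 else 0

section
variable {R : Type} [CommRing R] [CharP R 2]

theorem be_and (a b : Bool) : be R (a && b) = be R a * be R b := by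
  cases a <;> cases b <;> simp [be]

theorem be_xor (a b : Bool) : be R (xor a b) = be R a + be R b := by
  have h : (1 : R) + 1 = 0 := CharTwo.add_self_eq_zero 1
  cases a <;> cases b <;> simp [be, h]

theorem be_not (a : Bool) : be R (!a) = be R a + 1 := by
  have h : (1 : R) + 1 = 0 := CharTwo.add_self_eq_zero 1
  cases a <;> simp [be, h]

theorem cast_be (c : ℕ) : (c : R) = be R (decide (c % 2 = 1)) := by
  have h2 : ((2 : ℕ) : R) = 0 := CharP.cast_eq_zero R 2
  have h : (c : R) = ((c % 2 : ℕ) : R) := by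
    conv_lhs => rw [← Nat.div_add_mod c 2]
    rw [Nat.cast_add, Nat.cast_mul, h2, zero_mul, zero_add]
  rw [h]
  rcases Nat.mod_two_eq_zero_or_one c with h0 | h0 <;> rw [h0] <;> simp [be]

theorem be_par (n : ℕ) (f : ℕ → Bool) : be R (par n f) = ∑ i ∈ Finset.range n, be R (f i) := by
  unfold par
  rw [← cast_be]
  induction n with
  | zero => simp
  | succ n ih =>
    rw [List.range_succ, List.countP_append, Nat.cast_add, ih, Finset.sum_range_succ]
    congr 1
    cases h : f n <;> simp [be, h]

theorem be_filter {ι : Type} (T : Finset ι) (f : ι → Bool) :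
    be R (decide ((T.filter fun i => f i = true).card % 2 = 1)) = ∑ i ∈ T, be R (f i) := by
  rw [← cast_be, Finset.card_filter, Nat.cast_sum]
  apply Finset.sum_congr rfl
  intro i _
  cases h : f i <;> simp [be]

end

theorem getD_range_map {n k : ℕ} (hk : k < n) (f : ℕ → Bool) :
    ((List.range n).map f).getD k false = f k := by
  simp [List.getD_eq_getElem?_getD, hk]

section
variable {K : Type} [CommRing K] [CharP K 2]

/-- evaluation of a bit vector at a root of unity -/
def Ph (ζ : K) (n : ℕ) (a : List Bool) : K :=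
  ∑ j ∈ Finset.range n, be K (a.getD j false) * ζ ^ j

theorem Ph_conv {ζ : K} {n : ℕ} (hζ : ζ ^ n = 1) (a b : List Bool) :
    Ph ζ n (conv n a b) = Ph ζ n a * Ph ζ n b := by
  have h1 : Ph ζ n (conv n a b) = ∑ k ∈ Finset.range n, ∑ i ∈ Finset.range n,
      be K (a.getD i false) * be K (b.getD ((k + n - i) % n) false) * ζ ^ k := by
    unfold Ph
    apply Finset.sum_congr rfl
    intro k hk
    unfold conv
    rw [getD_range_map (Finset.mem_range.mp hk), be_par, Finset.sum_mul]
    apply Finset.sum_congr rfl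
    intro i _
    rw [be_and]
  rw [h1, Finset.sum_comm]
  unfold Ph
  rw [Finset.sum_mul]
  apply Finset.sum_congr rfl
  intro i hi
  have hi' := Finset.mem_range.mp hi
  rw [Finset.mul_sum]
  refine Finset.sum_nbij' (fun k => (k + n - i) % n) (fun k => (k + i) % n) ?_ ?_ ?_ ?_ ?_
  · intro k _
    exact Finset.mem_range.mpr (Nat.mod_lt _ (by omega))
  · intro k _
    exact Finset.mem_range.mpr (Nat.mod_lt _ (by omega))
  · intro k hk
    have hk' := Finset.mem_range.mp hk
    rcases Nat.lt_or_ge k i with h | h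
    · rw [Nat.mod_eq_of_lt (show k + n - i < n by omega),
        show k + n - i + i = k + n by omega, Nat.add_mod_right, Nat.mod_eq_of_lt hk']
    · have h2 : (k + n - i) % n = k - i := by
        rw [show k + n - i = (k - i) + n by omega, Nat.add_mod_right,
          Nat.mod_eq_of_lt (by omega)]
      rw [h2, show k - i + i = k by omega, Nat.mod_eq_of_lt hk']
  · intro k hk
    have hk' := Finset.mem_range.mp hk
    rcases Nat.lt_or_ge (k + i) n with h | h
    · rw [Nat.mod_eq_of_lt h, show k + i + n - i = k + n by omega, Nat.add_mod_right,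
        Nat.mod_eq_of_lt hk']
    · have h2 : (k + i) % n = k + i - n := by
        conv_lhs => rw [show k + i = (k + i - n) + n by omega, Nat.add_mod_right,
          Nat.mod_eq_of_lt (show k + i - n < n by omega)]
      rw [h2, show k + i - n + n - i = k by omega, Nat.mod_eq_of_lt hk']
  · intro k hk
    have hk' := Finset.mem_range.mp hk
    have h3 : ζ ^ k = ζ ^ i * ζ ^ ((k + n - i) % n) := by
      rw [← pow_add]
      rcases Nat.lt_or_ge k i with h | h
      · rw [Nat.mod_eq_of_lt (show k + n - i < n by omega),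
          show i + (k + n - i) = k + n by omega, pow_add, hζ, mul_one]
      · have h2 : (k + n - i) % n = k - i := by
          rw [show k + n - i = (k - i) + n by omega, Nat.add_mod_right,
            Nat.mod_eq_of_lt (by omega)]
        rw [h2, show i + (k - i) = k by omega]
    rw [h3]
    ring

theorem Ph_pw {ζ : K} {n : ℕ} (hn : 0 < n) (hζ : ζ ^ n = 1) (a : List Bool) (i : ℕ) :
    Ph ζ n (pw n a i) = Ph ζ n a ^ i := by
  induction i with
  | zero =>
    rw [pow_zero]
    unfold Ph pw
    rw [Finset.sum_eq_single 0]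
    · rw [getD_range_map hn]; simp [be]
    · intro j hj hj0
      rw [getD_range_map (Finset.mem_range.mp hj)]
      simp [be, hj0]
    · intro h
      exact absurd (Finset.mem_range.mpr hn) h
  | succ i ih =>
    rw [pow_succ', ← ih]
    exact Ph_conv hζ _ _

end

theorem conv_congr (n : ℕ) (a a' b : List Bool) (h : ∀ j < n, a.getD j false = a'.getD j false) :
    conv n a b = conv n a' b := by
  unfold conv
  apply List.map_congr_left
  intro k _
  unfold par
  congr 2
  congr 1
  apply List.countP_congr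
  intro i hi
  rw [h i (List.mem_range.mp hi)]

theorem pw_congr (n : ℕ) (a a' : List Bool) (h : ∀ j < n, a.getD j false = a'.getD j false)
    (i : ℕ) : pw n a i = pw n a' i := by
  induction i with
  | zero => rfl
  | succ i ih =>
    show conv n a (pw n a i) = conv n a' (pw n a' i)
    rw [ih, conv_congr n a a' _ h]

theorem getD_ofFn {N : ℕ} (w : Fin N → Bool) (j : ℕ) :
    (List.ofFn w).getD j false = if h : j < N then w ⟨j, h⟩ else false := by
  rw [List.getD_eq_getElem?_getD, List.getElem?_ofFn]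
  split_ifs <;> simp


/-! ### the parity as a linear function of the second half -/

theorem getD_vx {N : ℕ} (w w' : Fin N → Bool) (j : ℕ) :
    (List.ofFn (vx w w')).getD j false =
      xor ((List.ofFn w).getD j false) ((List.ofFn w').getD j false) := by
  rw [getD_ofFn, getD_ofFn, getD_ofFn]
  by_cases h : j < N
  · rw [dif_pos h, dif_pos h, dif_pos h]
    rfl
  · rw [dif_neg h, dif_neg h, dif_neg h]
    rfl

/-- flip bit `k` -/
def fl {N : ℕ} (k : Fin N) (w : Fin N → Bool) : Fin N → Bool := Function.update w k (!(w k))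

theorem fl_fl {N : ℕ} (k : Fin N) (w : Fin N → Bool) : fl k (fl k w) = w := by
  unfold fl
  rw [Function.update_self, Function.update_idem, Bool.not_not, Function.update_eq_self]

theorem getD_fl {N : ℕ} (k : Fin N) (w : Fin N → Bool) (j : ℕ) :
    (List.ofFn (fl k w)).getD j false =
      if j = k then !((List.ofFn w).getD j false) else (List.ofFn w).getD j false := by
  rw [getD_ofFn, getD_ofFn]
  by_cases hj : j = k
  · subst hj
    rw [if_pos rfl, dif_pos k.2, dif_pos k.2]
    unfold fl
    rw [Function.update_self]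
  · rw [if_neg hj]
    by_cases h : j < N
    · rw [dif_pos h, dif_pos h]
      unfold fl
      rw [Function.update_of_ne]
      intro h2
      exact hj (congrArg Fin.val h2)
    · rw [dif_neg h, dif_neg h]

/-- the coefficients of the parity -/
def Q (n : ℕ) (T : Finset ℕ) (w : Fin (2 * n) → Bool) (j : ℕ) : ZMod 2 :=
  ∑ i ∈ T, be (ZMod 2) ((pw n (List.ofFn w) i).getD j false)

/-- the parity -/
def F (n : ℕ) (T : Finset ℕ) (w : Fin (2 * n) → Bool) : ZMod 2 :=
  ∑ j ∈ Finset.range n, be (ZMod 2) ((List.ofFn w).getD (n + j) false) * Q n T w j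

theorem F_eq (n : ℕ) (T : Finset ℕ) (w : Fin (2 * n) → Bool) :
    be (ZMod 2) (decide ((T.filter fun i => sbit n (List.ofFn w) i = true).card % 2 = 1)) =
      F n T w := by
  rw [be_filter]
  unfold F Q
  have h : ∀ i ∈ T, be (ZMod 2) (sbit n (List.ofFn w) i) = ∑ j ∈ Finset.range n,
      be (ZMod 2) ((List.ofFn w).getD (n + j) false) *
        be (ZMod 2) ((pw n (List.ofFn w) i).getD j false) := by
    intro i _
    unfold sbit
    rw [be_par]
    apply Finset.sum_congr rfl
    intro j _
    rw [be_and]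
  rw [Finset.sum_congr rfl h, Finset.sum_comm]
  apply Finset.sum_congr rfl
  intro j _
  rw [Finset.mul_sum]

theorem pr_set (n : ℕ) (T : Finset ℕ) :
    (Finset.univ.filter fun w : Fin (2 * n) → Bool =>
      decide ((T.filter fun i => sbit n (List.ofFn w) i = true).card % 2 = 1) = true) =
    Finset.univ.filter fun w : Fin (2 * n) → Bool => F n T w = 1 := by
  apply Finset.filter_congr
  intro w _
  rw [← F_eq]
  generalize decide ((T.filter fun i => sbit n (List.ofFn w) i = true).card % 2 = 1) = b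
  cases b <;> simp [be]

theorem Q_fl (n : ℕ) (T : Finset ℕ) (w : Fin (2 * n) → Bool) (k : Fin (2 * n)) (hk : n ≤ k)
    (j : ℕ) : Q n T (fl k w) j = Q n T w j := by
  unfold Q
  apply Finset.sum_congr rfl
  intro i _
  rw [pw_congr n (List.ofFn (fl k w)) (List.ofFn w)]
  intro j' hj'
  rw [getD_fl, if_neg (by omega)]

theorem F_fl (n : ℕ) (T : Finset ℕ) (w : Fin (2 * n) → Bool) (j : ℕ) (hj : j < n)
    (hk : n + j < 2 * n) : F n T (fl ⟨n + j, hk⟩ w) = F n T w + Q n T w j := by
  unfold F
  have h : ∀ i ∈ Finset.range n, be (ZMod 2) ((List.ofFn (fl ⟨n + j, hk⟩ w)).getD (n + i) false) *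
      Q n T (fl ⟨n + j, hk⟩ w) i =
      be (ZMod 2) ((List.ofFn w).getD (n + i) false) * Q n T w i +
        (if i = j then Q n T w j else 0) := by
    intro i _
    rw [Q_fl n T w _ (by simp), getD_fl]
    by_cases hij : i = j
    · subst hij
      rw [if_pos rfl, if_pos rfl, be_not]
      ring
    · rw [if_neg hij, add_zero, if_neg]
      intro h2
      have h3 : n + i = n + j := h2
      omega
  rw [Finset.sum_congr rfl h, Finset.sum_add_distrib, Finset.sum_ite_eq',
    if_pos (Finset.mem_range.mpr hj)]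

/-- the first half is bad -/
def Bad (n : ℕ) (T : Finset ℕ) (w : Fin (2 * n) → Bool) : Prop := ∀ j < n, Q n T w j = 0

theorem not_bad {n : ℕ} {T : Finset ℕ} {w : Fin (2 * n) → Bool} (h : ¬ Bad n T w) :
    ∃ j, j < n ∧ Q n T w j ≠ 0 := by
  unfold Bad at h
  push Not at h
  obtain ⟨j, h1, h2⟩ := h
  exact ⟨j, h1, h2⟩

open Classical in
/-- the involution -/
noncomputable def tau (n : ℕ) (T : Finset ℕ) (w : Fin (2 * n) → Bool) : Fin (2 * n) → Bool :=
  if h : ∃ j, j < n ∧ Q n T w j ≠ 0 then
    fl ⟨n + Nat.find h, by have := (Nat.find_spec h).1; omega⟩ w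
  else w

open Classical in
theorem tau_of (n : ℕ) (T : Finset ℕ) (w : Fin (2 * n) → Bool)
    (h : ∃ j, j < n ∧ Q n T w j ≠ 0) (hlt : n + Nat.find h < 2 * n) :
    tau n T w = fl ⟨n + Nat.find h, hlt⟩ w := by
  unfold tau
  rw [dif_pos h]

theorem tau_spec (n : ℕ) (T : Finset ℕ) (w : Fin (2 * n) → Bool) (h : ¬ Bad n T w) :
    ¬ Bad n T (tau n T w) ∧ F n T (tau n T w) = F n T w + 1 ∧ tau n T (tau n T w) = w := by
  classical
  have hex := not_bad h
  have hlt : n + Nat.find hex < 2 * n := by have := (Nat.find_spec hex).1; omega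
  have h1 : tau n T w = fl ⟨n + Nat.find hex, hlt⟩ w := tau_of n T w hex hlt
  have hQ : ∀ j, Q n T (tau n T w) j = Q n T w j := by
    intro j
    rw [h1]
    exact Q_fl n T w _ (by simp) j
  have hb : ¬ Bad n T (tau n T w) := by
    intro hb
    apply h
    intro j hj
    rw [← hQ]
    exact hb j hj
  refine ⟨hb, ?_, ?_⟩
  · rw [h1, F_fl n T w _ (Nat.find_spec hex).1 hlt]
    congr 1
    have h2 := (Nat.find_spec hex).2
    revert h2
    generalize Q n T w (Nat.find hex) = x
    revert x
    decide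
  · have hex' := not_bad hb
    have hlt' : n + Nat.find hex' < 2 * n := by have := (Nat.find_spec hex').1; omega
    have h2 : tau n T (tau n T w) = fl ⟨n + Nat.find hex', hlt'⟩ (tau n T w) :=
      tau_of n T (tau n T w) hex' hlt'
    have h3 : Nat.find hex' = Nat.find hex := by
      apply Nat.find_congr'
      intro j
      rw [hQ]
    have h4 : (⟨n + Nat.find hex', hlt'⟩ : Fin (2 * n)) = ⟨n + Nat.find hex, hlt⟩ :=
      Fin.ext (show n + Nat.find hex' = n + Nat.find hex by rw [h3])
    rw [h2, h4, h1, fl_fl]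

open Classical in
theorem card_eq (n : ℕ) (T : Finset ℕ) :
    2 * (Finset.univ.filter fun w : Fin (2 * n) → Bool => F n T w = 1).card +
      (Finset.univ.filter fun w : Fin (2 * n) → Bool => Bad n T w).card = 2 ^ (2 * n) := by
  have hbad0 : ∀ w : Fin (2 * n) → Bool, Bad n T w → F n T w = 0 := by
    intro w hw
    unfold F
    apply Finset.sum_eq_zero
    intro j hj
    rw [hw j (Finset.mem_range.mp hj), mul_zero]
  have h01 : ∀ x : ZMod 2, x = 0 ∨ x = 1 := by decide
  have hc : (Finset.univ.filter fun w : Fin (2 * n) → Bool => F n T w = 1).card =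
      (Finset.univ.filter fun w : Fin (2 * n) → Bool => ¬ Bad n T w ∧ F n T w = 0).card := by
    refine Finset.card_nbij' (tau n T) (tau n T) ?_ ?_ ?_ ?_
    · intro w hw
      rw [Finset.mem_coe, Finset.mem_filter] at hw ⊢
      have hb : ¬ Bad n T w := by
        intro hb
        have h1 := hbad0 w hb
        rw [hw.2] at h1
        exact one_ne_zero h1
      obtain ⟨h1, h2, h3⟩ := tau_spec n T w hb
      refine ⟨Finset.mem_univ _, h1, ?_⟩
      rw [h2, hw.2]
      decide
    · intro w hw
      rw [Finset.mem_coe, Finset.mem_filter] at hw ⊢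
      obtain ⟨h1, h2, h3⟩ := tau_spec n T w hw.2.1
      refine ⟨Finset.mem_univ _, ?_⟩
      rw [h2, hw.2.2, zero_add]
    · intro w hw
      rw [Finset.mem_coe, Finset.mem_filter] at hw
      have hb : ¬ Bad n T w := by
        intro hb
        have h1 := hbad0 w hb
        rw [hw.2] at h1
        exact one_ne_zero h1
      exact (tau_spec n T w hb).2.2
    · intro w hw
      rw [Finset.mem_coe, Finset.mem_filter] at hw
      exact (tau_spec n T w hw.2.1).2.2
  have hall : (Finset.univ : Finset (Fin (2 * n) → Bool)).card = 2 ^ (2 * n) := by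
    rw [Finset.card_univ, Fintype.card_fun, Fintype.card_bool, Fintype.card_fin]
  have hsplit : (Finset.univ : Finset (Fin (2 * n) → Bool)).card =
      (Finset.univ.filter fun w : Fin (2 * n) → Bool => F n T w = 1).card +
      ((Finset.univ.filter fun w : Fin (2 * n) → Bool => ¬ Bad n T w ∧ F n T w = 0).card +
      (Finset.univ.filter fun w : Fin (2 * n) → Bool => Bad n T w).card) := by
    rw [← Finset.card_union_of_disjoint, ← Finset.card_union_of_disjoint]
    · congr 1
      ext w
      simp only [Finset.mem_univ, Finset.mem_union, Finset.mem_filter, true_and, true_iff]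
      by_cases hb : Bad n T w
      · exact Or.inr (Or.inr hb)
      · rcases h01 (F n T w) with h | h
        · exact Or.inr (Or.inl ⟨hb, h⟩)
        · exact Or.inl h
    · rw [Finset.disjoint_left]
      intro w hw
      rw [Finset.mem_filter] at hw
      rw [Finset.mem_union, Finset.mem_filter, Finset.mem_filter]
      rintro (⟨-, -, h⟩ | ⟨-, h⟩)
      · rw [hw.2] at h
        exact one_ne_zero h
      · have h1 := hbad0 w h
        rw [hw.2] at h1
        exact one_ne_zero h1
    · rw [Finset.disjoint_left]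
      intro w hw
      rw [Finset.mem_filter] at hw ⊢
      rintro ⟨-, h⟩
      exact hw.2.1 h
  omega

/-! ### counting the bad vectors -/

section
variable {K : Type} [Field K] [Algebra (ZMod 2) K] [CharP K 2]

theorem Ph_vx (ζ : K) (n : ℕ) {N : ℕ} (w w' : Fin N → Bool) :
    Ph ζ n (List.ofFn (vx w w')) = Ph ζ n (List.ofFn w) + Ph ζ n (List.ofFn w') := by
  unfold Ph
  rw [← Finset.sum_add_distrib]
  apply Finset.sum_congr rfl
  intro j _
  rw [getD_vx, be_xor]
  ring

theorem vx_vx {N : ℕ} (w w' : Fin N → Bool) : vx (vx w w') w' = w := by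
  funext i
  unfold vx
  cases w i <;> cases w' i <;> rfl

theorem Ph_surj {ζ : K} {n : ℕ} (hn : 0 < n) (hζ : ζ ^ n = 1) (p : Polynomial (ZMod 2)) :
    ∃ w : Fin (2 * n) → Bool, Ph ζ n (List.ofFn w) = Polynomial.aeval ζ p := by
  induction p using Polynomial.induction_on' with
  | add p q hp hq =>
    obtain ⟨w, hw⟩ := hp
    obtain ⟨w', hw'⟩ := hq
    exact ⟨vx w w', by rw [Ph_vx, hw, hw', map_add]⟩
  | monomial i c =>
    have h01 : c = 0 ∨ c = 1 := by
      revert c
      decide
    rcases h01 with rfl | rfl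
    · refine ⟨fun _ => false, ?_⟩
      rw [Polynomial.monomial_zero_right, map_zero]
      unfold Ph
      apply Finset.sum_eq_zero
      intro j _
      rw [getD_ofFn]
      split_ifs <;> simp [be]
    · refine ⟨fun k => decide ((k : ℕ) = i % n), ?_⟩
      rw [Polynomial.aeval_monomial, map_one, one_mul]
      have hi : i % n < n := Nat.mod_lt _ hn
      unfold Ph
      rw [Finset.sum_eq_single (i % n)]
      · rw [getD_ofFn, dif_pos (by omega)]
        have h2 : be K (decide ((((⟨i % n, by omega⟩ : Fin (2 * n)) : ℕ)) = i % n)) = 1 := by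
          simp [be]
        rw [h2, one_mul]
        conv_rhs => rw [← Nat.div_add_mod i n, pow_add, pow_mul, hζ, one_pow, one_mul]
      · intro j hj hji
        rw [getD_ofFn, dif_pos (by have := Finset.mem_range.mp hj; omega)]
        simp [be, hji]
      · intro h
        exact absurd (Finset.mem_range.mpr hi) h

theorem be_algebraMap (b : Bool) : be K b = algebraMap (ZMod 2) K (be (ZMod 2) b) := by
  cases b <;> simp [be]

theorem root_of_bad {ζ : K} {n : ℕ} (hn : 0 < n) (hζ : ζ ^ n = 1) {T : Finset ℕ}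
    {w : Fin (2 * n) → Bool} (hw : Bad n T w) :
    ∑ i ∈ T, Ph ζ n (List.ofFn w) ^ i = 0 := by
  have h1 : ∀ i ∈ T, Ph ζ n (List.ofFn w) ^ i = ∑ j ∈ Finset.range n,
      be K ((pw n (List.ofFn w) i).getD j false) * ζ ^ j := by
    intro i _
    rw [← Ph_pw hn hζ]
    rfl
  rw [Finset.sum_congr rfl h1, Finset.sum_comm]
  apply Finset.sum_eq_zero
  intro j hj
  rw [← Finset.sum_mul]
  have h2 : ∑ i ∈ T, be K ((pw n (List.ofFn w) i).getD j false) = 0 := by
    have h3 := hw j (Finset.mem_range.mp hj)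
    unfold Q at h3
    rw [Finset.sum_congr rfl fun i _ => be_algebraMap (K := K) _, ← map_sum, h3, map_zero]
  rw [h2, zero_mul]

open Classical in
theorem card_bad {ζ : K} {n : ℕ} (hn : 0 < n) (hζ : ζ ^ n = 1) {m : ℕ} {T : Finset ℕ}
    (hT : T.Nonempty) (hm : T ⊆ Finset.range m) [Finite (Algebra.adjoin (ZMod 2) {ζ})] :
    (Finset.univ.filter fun w : Fin (2 * n) → Bool => Bad n T w).card *
      Nat.card (Algebra.adjoin (ZMod 2) {ζ}) ≤ m * 2 ^ (2 * n) := by
  set P : Polynomial K := ∑ i ∈ T, Polynomial.X ^ i with hP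
  have hP0 : P ≠ 0 := by
    obtain ⟨i0, hi0⟩ := hT
    intro h0
    have h1 : P.coeff i0 = 1 := by
      rw [hP, Polynomial.finsetSum_coeff, Finset.sum_eq_single i0]
      · rw [Polynomial.coeff_X_pow, if_pos rfl]
      · intro j _ hj
        rw [Polynomial.coeff_X_pow, if_neg (Ne.symm hj)]
      · intro h
        exact absurd hi0 h
    rw [h0, Polynomial.coeff_zero] at h1
    exact zero_ne_one h1
  have hdeg : P.natDegree ≤ m := by
    rw [hP]
    apply Polynomial.natDegree_sum_le_of_forall_le
    intro i hi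
    rw [Polynomial.natDegree_X_pow]
    exact (Finset.mem_range.mp (hm hi)).le
  have hroots : P.roots.toFinset.card ≤ m :=
    (Multiset.toFinset_card_le _).trans ((Polynomial.card_roots' P).trans hdeg)
  have hsec : ∀ x : Algebra.adjoin (ZMod 2) {ζ}, ∃ w : Fin (2 * n) → Bool,
      Ph ζ n (List.ofFn w) = (x : K) := by
    intro x
    have hx : (x : K) ∈ (Polynomial.aeval (R := ZMod 2) ζ).range := by
      rw [← Algebra.adjoin_singleton_eq_range_aeval]
      exact x.2
    obtain ⟨p, hp⟩ := hx
    obtain ⟨w, hw⟩ := Ph_surj (K := K) hn hζ p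
    exact ⟨w, by rw [hw]; exact hp⟩
  choose sec hsec using hsec
  let f : {w : Fin (2 * n) → Bool // Bad n T w} × Algebra.adjoin (ZMod 2) {ζ} →
      {ρ : K // ρ ∈ P.roots.toFinset} × (Fin (2 * n) → Bool) := fun wx =>
    (⟨Ph ζ n (List.ofFn wx.1.1), by
      rw [Multiset.mem_toFinset, Polynomial.mem_roots hP0, Polynomial.IsRoot.def, hP,
        Polynomial.eval_finsetSum]
      simp only [Polynomial.eval_pow, Polynomial.eval_X]
      exact root_of_bad hn hζ wx.1.2⟩, vx wx.1.1 (sec wx.2))
  have hf : Function.Injective f := by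
    rintro ⟨⟨w, hw⟩, x⟩ ⟨⟨w', hw'⟩, x'⟩ h
    have h1 : Ph ζ n (List.ofFn w) = Ph ζ n (List.ofFn w') :=
      congrArg (fun p => (p.1 : K)) h
    have h2 : vx w (sec x) = vx w' (sec x') := congrArg Prod.snd h
    have h3 : (x : K) = (x' : K) := by
      have h4 := congrArg (fun v => Ph ζ n (List.ofFn v)) h2
      simp only [Ph_vx, h1, hsec] at h4
      exact add_left_cancel h4
    have h5 : x = x' := Subtype.ext h3
    subst h5
    have h6 : w = w' := by
      rw [← vx_vx w (sec x), h2, vx_vx]
    subst h6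
    rfl
  have hcard := Nat.card_le_card_of_injective f hf
  rw [Nat.card_prod, Nat.card_prod] at hcard
  have e1 : Nat.card {w : Fin (2 * n) → Bool // Bad n T w} =
      (Finset.univ.filter fun w : Fin (2 * n) → Bool => Bad n T w).card := by
    rw [Nat.card_eq_fintype_card, Fintype.card_subtype]
  have e2 : Nat.card {ρ : K // ρ ∈ P.roots.toFinset} = P.roots.toFinset.card := by
    rw [Nat.card_eq_fintype_card, Fintype.card_coe]
  have e3 : Nat.card (Fin (2 * n) → Bool) = 2 ^ (2 * n) := by
    rw [Nat.card_eq_fintype_card, Fintype.card_fun, Fintype.card_bool, Fintype.card_fin]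
  rw [e1, e2, e3] at hcard
  exact hcard.trans (Nat.mul_le_mul_right _ hroots)

end

end ALGaux

open ALGaux in
theorem t_ALG : S_ALG := by
  classical
  intro l m T hT hm
  set n := 3 ^ (l + 1) with hn
  have hn0 : 0 < n := by positivity
  have hF : Fact (Nat.Prime 2) := ⟨Nat.prime_two⟩
  have hne : NeZero ((n : ℕ) : ZMod 2) := by
    refine ⟨?_⟩
    rw [Ne, ZMod.natCast_eq_zero_iff]
    intro h
    have h1 := Nat.Prime.dvd_of_dvd_pow Nat.prime_two h
    norm_num at h1
  obtain ⟨ζ, hζ⟩ := HasEnoughRootsOfUnity.exists_primitiveRoot (AlgebraicClosure (ZMod 2)) n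
  obtain ⟨hfin, hcard⟩ := card_adjoin l ζ hζ
  have hbad := card_bad (K := AlgebraicClosure (ZMod 2)) hn0 hζ.pow_eq_one hT hm
  have heq := card_eq n T
  unfold pr
  rw [pr_set, Fintype.card_fun, Fintype.card_bool, Fintype.card_fin]
  set c1 := (Finset.univ.filter fun w : Fin (2 * n) → Bool => F n T w = 1).card with hc1
  set c2 := (Finset.univ.filter fun w : Fin (2 * n) → Bool => Bad n T w).card with hc2
  set A := Nat.card (Algebra.adjoin (ZMod 2) {ζ}) with hA
  have hN : (0 : ℝ) < 2 ^ (2 * n) := by positivity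
  have hA' : ((2 : ℝ) ^ (2 * 3 ^ l)) ≤ A := by exact_mod_cast hcard
  have hA0 : (0 : ℝ) < 2 ^ (2 * 3 ^ l) := by positivity
  have heq' : 2 * (c1 : ℝ) + c2 = 2 ^ (2 * n) := by exact_mod_cast heq
  have hbad' : (c2 : ℝ) * A ≤ m * 2 ^ (2 * n) := by exact_mod_cast hbad
  have h1 : (c1 : ℝ) / ((2 ^ (2 * n) : ℕ) : ℝ) - 1 / 2 = -(c2 / (2 * 2 ^ (2 * n))) := by
    have hc1' : (c1 : ℝ) = (2 ^ (2 * n) - c2) / 2 := by linarith
    push_cast
    rw [hc1']
    field_simp
    ring
  rw [h1, abs_neg, abs_of_nonneg (by positivity), div_le_div_iff₀ (by positivity) hA0]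
  have hc2 : (0 : ℝ) ≤ c2 := Nat.cast_nonneg _
  have hm0 : (0 : ℝ) ≤ m := Nat.cast_nonneg _
  calc (c2 : ℝ) * 2 ^ (2 * 3 ^ l) ≤ c2 * A := mul_le_mul_of_nonneg_left hA' hc2
    _ ≤ m * 2 ^ (2 * n) := hbad'
    _ ≤ m * (2 * 2 ^ (2 * n)) := by
        apply mul_le_mul_of_nonneg_left _ hm0
        linarith

end Pool.Agent.H547R7
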