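import Pool.Agent.H547R7.Stm2

/-! The list of all bit strings. -/

set_option autoImplicit false

namespace Pool.Agent.H547R7

private theorem ALS_len (d : ℕ) : (allS d).length = 2 ^ d := by
  induction d with
  | zero => rfl
  | succ d ih =>
    rw [allS, List.length_append, List.length_map, List.length_map, ih, pow_succ]
    ring

private theorem ALS_mem (d : ℕ) : ∀ s ∈ allS d, s.length = d := by
  induction d with
  | zero =>
    intro s hs
    rw [allS, List.mem_singleton] at hs
    rw [hs]
    rfl
  | succ d ih =>
    intro s hs
    rw [allS, List.mem_append, List.mem_map, List.mem_map] at hs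
    rcases hs with ⟨t, ht, rfl⟩ | ⟨t, ht, rfl⟩
    · rw [List.length_cons, ih t ht]
    · rw [List.length_cons, ih t ht]

private theorem ALS_cnt (d : ℕ) : ∀ p : List Bool → Bool, (allS d).countP p =
    ∑ s : Fin d → Bool, if p (List.ofFn s) = true then 1 else 0 := by
  induction d with
  | zero =>
    intro p
    rw [allS, Fintype.sum_unique, List.countP_singleton]
    simp
  | succ d ih =>
    intro p
    rw [allS, List.countP_append, List.countP_map, List.countP_map, ih, ih,
      ← (Fin.consEquiv fun _ => Bool).sum_comp, Fintype.sum_prod_type, Fintype.sum_bool, add_comm]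
    congr 1
    · refine Finset.sum_congr rfl fun t _ => ?_
      rw [List.ofFn_succ]
      simp [Fin.consEquiv]
    · refine Finset.sum_congr rfl fun t _ => ?_
      rw [List.ofFn_succ]
      simp [Fin.consEquiv]

theorem t_ALS : S_ALS := by
  refine ⟨ALS_len, ALS_mem, fun d p => ?_⟩
  unfold cp pr
  rw [ALS_len, ALS_cnt, Finset.card_filter]
  congr 1
  rw [Fintype.card_fun, Fintype.card_bool, Fintype.card_fin]

end Pool.Agent.H547R7
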