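import Pool.Agent.H547R7.Stm

/-!
# Task CHE: Chebyshev's inequality for independent blocks
-/

set_option autoImplicit false

namespace Pool.Agent.H547R7

open Finset

private theorem CHE_prod {X : Type} [Fintype X] (r : ℕ) (u : Fin r → X → ℝ) :
    ∑ z : Fin r → X, ∏ k, u k (z k) = ∏ k, ∑ x, u k x := by
  have := Finset.prod_univ_sum (fun _ : Fin r => (Finset.univ : Finset X)) u
  rw [Fintype.piFinset_univ] at this
  exact this.symm

private theorem CHE_two {X : Type} [Fintype X] (r : ℕ) (h : Fin r → X → ℝ)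
    (h0 : ∀ i, ∑ x, h i x = 0) (h2 : ∀ i, ∑ x, (h i x) ^ 2 ≤ (Fintype.card X : ℝ) / 4) :
    ∑ z : Fin r → X, (∑ i, h i (z i)) ^ 2 ≤ (r : ℝ) * (Fintype.card X : ℝ) ^ r / 4 := by
  have e1 : ∀ z : Fin r → X, (∑ i, h i (z i)) ^ 2 = ∑ i, ∑ j, h i (z i) * h j (z j) := by
    intro z; rw [sq, Finset.sum_mul_sum]
  simp only [e1]
  rw [Finset.sum_comm]
  have e2 : ∀ i : Fin r, ∑ z : Fin r → X, ∑ j, h i (z i) * h j (z j) ≤
      (Fintype.card X : ℝ) ^ r / 4 := by
    intro i
    rw [Finset.sum_comm]
    have e3 : ∀ j : Fin r, ∑ z : Fin r → X, h i (z i) * h j (z j) =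
        ∏ k, ∑ x, ((if k = i then h i x else 1) * (if k = j then h j x else 1)) := by
      intro j
      rw [← CHE_prod]
      refine Finset.sum_congr rfl fun z _ => ?_
      rw [Finset.prod_mul_distrib]
      congr 1
      · rw [Finset.prod_eq_single i]
        · simp
        · intro b _ hb; simp [hb]
        · simp
      · rw [Finset.prod_eq_single j]
        · simp
        · intro b _ hb; simp [hb]
        · simp
    have e4 : ∀ j : Fin r, j ≠ i → ∑ z : Fin r → X, h i (z i) * h j (z j) = 0 := by
      intro j hj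
      rw [e3 j]
      apply Finset.prod_eq_zero (Finset.mem_univ i)
      simp only [if_true, if_neg (Ne.symm hj), mul_one]
      exact h0 i
    rw [Finset.sum_eq_single i (fun j _ hj => e4 j hj) (by simp), e3 i]
    calc ∏ k, ∑ x, ((if k = i then h i x else 1) * (if k = i then h i x else 1))
        ≤ ∏ k : Fin r, (Fintype.card X : ℝ) * (if k = i then 1 / 4 else 1) := by
          refine Finset.prod_le_prod (fun k _ => Finset.sum_nonneg fun x _ => ?_) fun k _ => ?_
          · exact mul_self_nonneg _
          · by_cases hk : k = i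
            · simp only [if_pos hk]
              have := h2 i
              simp only [sq] at this
              linarith
            · simp [hk]
      _ = (Fintype.card X : ℝ) ^ r / 4 := by
          rw [Finset.prod_mul_distrib, Finset.prod_const, Finset.card_univ, Fintype.card_fin,
            Finset.prod_ite_eq' Finset.univ i (fun _ => (1 / 4 : ℝ))]
          simp only [Finset.mem_univ, if_true]
          ring
  calc ∑ i, ∑ z : Fin r → X, ∑ j, h i (z i) * h j (z j)
      ≤ ∑ _i : Fin r, (Fintype.card X : ℝ) ^ r / 4 := Finset.sum_le_sum fun i _ => e2 i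
    _ = (r : ℝ) * (Fintype.card X : ℝ) ^ r / 4 := by
        rw [Finset.sum_const, Finset.card_univ, Fintype.card_fin, nsmul_eq_mul]; ring

/-- the centred indicator -/
private noncomputable def CHE_h {n r : ℕ} (g : Fin r → BF n) (i : Fin r)
    (x : Fin n → Bool) : ℝ := (if g i x = true then 1 else 0) - pr (g i)

private theorem CHE_h0 {n r : ℕ} (g : Fin r → BF n) (i : Fin r) : ∑ x, CHE_h g i x = 0 := by
  unfold CHE_h pr
  rw [Finset.sum_sub_distrib, Finset.sum_boole, Finset.sum_const, Finset.card_univ, nsmul_eq_mul]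
  have : (Fintype.card (Fin n → Bool) : ℝ) ≠ 0 := by
    have := Fintype.card_pos (α := Fin n → Bool)
    exact_mod_cast this.ne'
  rw [mul_div_cancel₀ _ this, sub_self]

private theorem CHE_h2 {n r : ℕ} (g : Fin r → BF n) (i : Fin r) :
    ∑ x, (CHE_h g i x) ^ 2 ≤ (Fintype.card (Fin n → Bool) : ℝ) / 4 := by
  have h0 := CHE_h0 g i
  have hN : (0 : ℝ) ≤ Fintype.card (Fin n → Bool) := by positivity
  set p := pr (g i) with hp
  have e : ∀ x, (CHE_h g i x) ^ 2 = (1 - 2 * p) * CHE_h g i x + p * (1 - p) := by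
    intro x
    unfold CHE_h
    rw [← hp]
    split_ifs <;> ring
  simp only [e]
  rw [Finset.sum_add_distrib, ← Finset.mul_sum, h0, mul_zero, zero_add, Finset.sum_const,
    Finset.card_univ, nsmul_eq_mul]
  nlinarith [sq_nonneg (p - 1 / 2)]

private theorem CHE_cnt {n r : ℕ} (g : Fin r → BF n) (z : Fin r → Fin n → Bool) :
    (cnt g z : ℝ) - ∑ i, pr (g i) = ∑ i, CHE_h g i (z i) := by
  unfold CHE_h cnt
  rw [Finset.sum_sub_distrib, Finset.sum_boole]

/-- Markov's inequality -/
private theorem CHE_markov {n r : ℕ} (g : Fin r → BF n) (a : ℝ) (ha : 0 < a)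
    (P : (Fin r → Fin n → Bool) → Bool)
    (hP : ∀ z, P z = true → a ^ 2 ≤ ((cnt g z : ℝ) - ∑ i, pr (g i)) ^ 2) :
    pr P ≤ r / (4 * a ^ 2) := by
  have hV := CHE_two r (CHE_h g) (CHE_h0 g) (CHE_h2 g)
  have hN : (0 : ℝ) < Fintype.card (Fin r → Fin n → Bool) := by
    exact_mod_cast Fintype.card_pos
  have hcard : (Fintype.card (Fin r → Fin n → Bool) : ℝ) =
      (Fintype.card (Fin n → Bool) : ℝ) ^ r := by
    rw [Fintype.card_fun, Fintype.card_fin]; push_cast; rfl
  rw [← hcard] at hV
  have h1 : ((Finset.univ.filter fun z => P z = true).card : ℝ) * a ^ 2 ≤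
      ∑ z : Fin r → Fin n → Bool, (∑ i, CHE_h g i (z i)) ^ 2 := by
    calc ((Finset.univ.filter fun z => P z = true).card : ℝ) * a ^ 2
        = ∑ _z ∈ Finset.univ.filter fun z => P z = true, a ^ 2 := by
          rw [Finset.sum_const, nsmul_eq_mul]
      _ ≤ ∑ z ∈ Finset.univ.filter fun z => P z = true, (∑ i, CHE_h g i (z i)) ^ 2 := by
          refine Finset.sum_le_sum fun z hz => ?_
          rw [← CHE_cnt]
          exact hP z (Finset.mem_filter.1 hz).2
      _ ≤ ∑ z : Fin r → Fin n → Bool, (∑ i, CHE_h g i (z i)) ^ 2 :=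
          Finset.sum_le_sum_of_subset_of_nonneg (Finset.filter_subset _ _)
            fun z _ _ => sq_nonneg _
  unfold pr
  rw [div_le_div_iff₀ hN (by positivity)]
  nlinarith

private theorem CHE_blk {n r : ℕ} (P : (Fin r → Fin n → Bool) → Bool) :
    pr (fun z : Fin (r * n) → Bool => P (blk z)) = pr P := by
  let e : (Fin (r * n) → Bool) ≃ (Fin r → Fin n → Bool) :=
    (Equiv.arrowCongr finProdFinEquiv.symm (Equiv.refl Bool)).trans (Equiv.curry _ _ _)
  have he : ∀ z, e z = blk z := by
    intro z; funext i j; rfl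
  unfold pr
  rw [Fintype.card_congr e]
  congr 2
  refine Finset.card_bij (fun z _ => e z) ?_ ?_ ?_
  · intro z hz
    simp only [Finset.mem_filter, Finset.mem_univ, true_and] at hz ⊢
    rw [he]; exact hz
  · intro z _ z' _ h; exact e.injective h
  · intro y hy
    simp only [Finset.mem_filter, Finset.mem_univ, true_and] at hy
    refine ⟨e.symm y, ?_, e.apply_symm_apply y⟩
    simp only [Finset.mem_filter, Finset.mem_univ, true_and]
    rw [← he, e.apply_symm_apply]; exact hy

theorem t_CHE : S_CHE := by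
  intro n r g a ha
  constructor
  · intro θ hθ
    rw [CHE_blk (fun z => decide (θ ≤ cnt g z))]
    refine CHE_markov g a ha _ fun z hz => ?_
    have h1 : θ ≤ cnt g z := by simpa using hz
    have h2 : (θ : ℝ) ≤ cnt g z := by exact_mod_cast h1
    exact pow_le_pow_left₀ ha.le (by linarith) 2
  · intro θ hθ
    rw [CHE_blk (fun z => decide (θ ≤ cnt g z))]
    have h3 := CHE_markov g a ha (fun z => !decide (θ ≤ cnt g z)) (fun z hz => by
      have h1 : ¬ θ ≤ cnt g z := by simpa using hz
      have h2 : (cnt g z : ℝ) < θ := by exact_mod_cast not_le.1 h1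
      have h4 : a ^ 2 ≤ (∑ i, pr (g i) - (cnt g z : ℝ)) ^ 2 :=
        pow_le_pow_left₀ ha.le (by linarith) 2
      nlinarith)
    have h5 : pr (fun z : Fin r → Fin n → Bool => decide (θ ≤ cnt g z)) +
        pr (fun z : Fin r → Fin n → Bool => !decide (θ ≤ cnt g z)) = 1 := by
      unfold pr
      have hN : (0 : ℝ) < Fintype.card (Fin r → Fin n → Bool) := by
        exact_mod_cast Fintype.card_pos
      rw [← add_div, div_eq_one_iff_eq hN.ne']
      have h6 := Finset.card_filter_add_card_filter_not
        (s := (Finset.univ : Finset (Fin r → Fin n → Bool)))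
        (fun z => decide (θ ≤ cnt g z) = true)
      have h7 : (Finset.univ.filter fun z : Fin r → Fin n → Bool =>
          (!decide (θ ≤ cnt g z)) = true) =
          Finset.univ.filter fun z => ¬ (decide (θ ≤ cnt g z) = true) := by
        ext z; simp
      rw [h7]
      rw [← Finset.card_univ]
      exact_mod_cast h6
    linarith

end Pool.Agent.H547R7
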