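import Pool.Agent.H547R7.Stm

/-!
# What a gate set generates outside of the four easy classes; dual gate sets
-/

set_option autoImplicit false

namespace Pool.Agent.H547R7

open Pool.Agent.H547R6

variable {B : Set BFun} {X : Type}

/-- the dual of a Boolean function -/
def dualF (f : BFun) : BFun := ⟨f.1, fun x => !f.2 (fun i => !x i)⟩

/-- the dual gate set -/
def dualB (B : Set BFun) : Set BFun := {g | dualF g ∈ B}

theorem dualF_dualF (f : BFun) : dualF (dualF f) = f := by
  obtain ⟨k, f⟩ := f
  simp [dualF]

theorem dualB_dualB (B : Set BFun) : dualB (dualB B) = B := by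
  ext f
  simp [dualB, dualF_dualF]

theorem Gen.dual {f : (X → Bool) → Bool} (h : Gen B X f) :
    Gen (dualB B) X (fun x => !f (fun i => !x i)) := by
  induction h with
  | var i => exact (Gen.var i).congr fun x => by simp
  | app k f hf g hg ih =>
    refine (Gen.app (B := dualB B) k (fun x => !f (fun i => !x i)) ?_ _ ih).congr fun x => by simp
    change dualF ⟨k, fun x => !f (fun i => !x i)⟩ ∈ B
    have : dualF ⟨k, fun x => !f (fun i => !x i)⟩ = ⟨k, f⟩ := dualF_dualF ⟨k, f⟩
    rw [this]
    exact hf

theorem not_sub_dual {P Q : Set BFun} (h : ∀ f, dualF f ∈ Q → f ∈ P) (hB : ¬ B ⊆ P) :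
    ¬ dualB B ⊆ Q := by
  rw [Set.not_subset] at hB ⊢
  obtain ⟨f, hf, hfP⟩ := hB
  refine ⟨dualF f, ?_, fun hQ => hfP (h f hQ)⟩
  change dualF (dualF f) ∈ B
  rw [dualF_dualF]
  exact hf

theorem aff_dual (f : BFun) (h : dualF f ∈ Aff) : f ∈ Aff := by
  intro x y z
  have := h (fun i => !x i) (fun i => !y i) (fun i => !z i)
  simp only [dualF, Bool.not_not] at this
  have e : (fun i => !((!x i) ^^ ((!y i) ^^ (!z i)))) = fun i => (x i ^^ (y i ^^ z i)) := by
    funext i
    cases x i <;> cases y i <;> cases z i <;> rfl
  rw [e] at this
  revert this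
  cases f.2 (fun i => (x i ^^ (y i ^^ z i))) <;> cases f.2 x <;> cases f.2 y <;> cases f.2 z <;> simp

theorem conj_dual (f : BFun) (h : dualF f ∈ Conj) : f ∈ Disj := by
  intro x y
  have := h (fun i => !x i) (fun i => !y i)
  simp only [dualF, Bool.not_and, Bool.not_not] at this
  revert this
  cases f.2 (fun i => x i || y i) <;> cases f.2 x <;> cases f.2 y <;> simp

theorem disj_dual (f : BFun) (h : dualF f ∈ Disj) : f ∈ Conj := by
  intro x y
  have := h (fun i => !x i) (fun i => !y i)
  simp only [dualF, Bool.not_or, Bool.not_not] at this
  revert this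
  cases f.2 (fun i => x i && y i) <;> cases f.2 x <;> cases f.2 y <;> simp

theorem self_dual (f : BFun) (h : dualF f ∈ SelfDual) : f ∈ SelfDual := by
  intro x
  have := h x
  simp only [dualF, Bool.not_not] at this
  revert this
  cases f.2 x <;> cases f.2 (fun i => !x i) <;> simp

/-- the operation `a ∧ (b ∨ c)` -/
abbrev oS : Bool → Bool → Bool → Bool := fun a b c => a && (b || c)
/-- the operation `a ∨ (b ∧ c)` -/
abbrev oD : Bool → Bool → Bool → Bool := fun a b c => a || (b && c)

theorem goal_dual (h : Op3 (dualB B) oS ∨ Op3 (dualB B) oD) : Op3 B oS ∨ Op3 B oD := by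
  rcases h with h | h
  · right
    have := Gen.dual h
    rw [dualB_dualB] at this
    refine this.congr fun x => ?_
    simp only [oS, oD]
    cases x 0 <;> cases x 1 <;> cases x 2 <;> rfl
  · left
    have := Gen.dual h
    rw [dualB_dualB] at this
    refine this.congr fun x => ?_
    simp only [oS, oD]
    cases x 0 <;> cases x 1 <;> cases x 2 <;> rfl

/-- terms in three variables with a binary and a ternary operation -/
inductive Tm : Type
  | a | b | c
  | g (x y : Tm)
  | h (x y z : Tm)

/-- value of a term -/
def Tm.ev (G : Bool → Bool → Bool) (H : Bool → Bool → Bool → Bool) (p q r : Bool) : Tm → Bool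
  | .a => p
  | .b => q
  | .c => r
  | .g x y => G (x.ev G H p q r) (y.ev G H p q r)
  | .h x y z => H (x.ev G H p q r) (y.ev G H p q r) (z.ev G H p q r)

theorem Tm.gen {G : Bool → Bool → Bool} {H : Bool → Bool → Bool → Bool} (hG : Op2 B G)
    (hH : Op3 B H) (t : Tm) : Op3 B (fun p q r => t.ev G H p q r) := by
  induction t with
  | a => exact v0_3
  | b => exact v1_3
  | c => exact v2_3
  | g x y hx hy => exact hG.app hx hy
  | h x y z hx hy hz => exact hH.app hx hy hz

/-- is the term one of the two operations -/
def Tm.good (G : Bool → Bool → Bool) (H : Bool → Bool → Bool → Bool) (t : Tm) : Bool :=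
  ([false, true].all fun p => [false, true].all fun q => [false, true].all fun r =>
    t.ev G H p q r == oS p q r) ||
  ([false, true].all fun p => [false, true].all fun q => [false, true].all fun r =>
    t.ev G H p q r == oD p q r)

theorem Tm.goal {G : Bool → Bool → Bool} {H : Bool → Bool → Bool → Bool} (hG : Op2 B G)
    (hH : Op3 B H) (t : Tm) (ht : t.good G H = true) : Op3 B oS ∨ Op3 B oD := by
  have key := t.gen hG hH
  simp only [Tm.good, Bool.or_eq_true, List.all_eq_true, beq_iff_eq] at ht
  have mem : ∀ p : Bool, p ∈ [false, true] := by decide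
  rcases ht with ht | ht
  · left
    exact key.congr fun x => ht _ (mem _) _ (mem _) _ (mem _)
  · right
    exact key.congr fun x => ht _ (mem _) _ (mem _) _ (mem _)

/-- ternary operation with a given table -/
def tab3 (t0 t1 t2 t3 t4 t5 t6 t7 : Bool) : Bool → Bool → Bool → Bool
  | false, false, false => t0
  | false, false, true => t1
  | false, true, false => t2
  | false, true, true => t3
  | true, false, false => t4
  | true, false, true => t5
  | true, true, false => t6
  | true, true, true => t7

theorem tab3_eq (H : Bool → Bool → Bool → Bool) :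
    H = tab3 (H false false false) (H false false true) (H false true false) (H false true true)
      (H true false false) (H true false true) (H true true false) (H true true true) := by
  funext p q r
  cases p <;> cases q <;> cases r <;> rfl

open Tm in
/-- terms that suffice -/
def tms : List Tm :=
  [g a (h (g b c) (h b c a) a), g a (h (h b c a) c a), g a (h b (h b c a) a),
   g a (h (g (h b a a) (h c a a)) a a), g a (h a (g (h a b a) (h a c a)) a),
   h (h a a a) (h b c a) a, h (h a a a) (h a a a) (h b b c), h a (h b a c) (h b a c),
   h b a (h c b a), h b (g a c) (h a b a), h (h a a b) a (h c a b), h (g a b) (h a a a) (h a b c)]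

theorem tms_good : ∀ t0 t1 t2 t3 t4 t5 t6 t7 : Bool, t1 ≠ (t3 && t5) →
    tms.any (fun t => t.good band (tab3 t0 t1 t2 t3 t4 t5 t6 t7)) = true := by
  decide +kernel

theorem case_and (hA : Op2 B band) (hB : ¬ B ⊆ Conj) : Op3 B oS ∨ Op3 B oD := by
  rw [Set.not_subset] at hB
  obtain ⟨⟨k, f⟩, hf, hf'⟩ := hB
  simp only [Conj, Set.mem_ofPred_eq, not_forall] at hf'
  obtain ⟨x, y, hxy⟩ := hf'
  let H : Bool → Bool → Bool → Bool := fun q r w => f fun i =>
    if x i = true then (if y i = true then w else r) else (if y i = true then q else q && r)
  have hH : Op3 B H := by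
    refine (Gen.app k f hf (fun i => if x i = true then (if y i = true then (fun v => v 2)
      else (fun v => v 1)) else (if y i = true then (fun v => v 0) else fun v => v 0 && v 1))
      ?_).congr ?_
    · intro i
      by_cases h1 : x i = true <;> by_cases h2 : y i = true
      · rw [if_pos h1, if_pos h2]
        exact v2_3
      · rw [if_pos h1, if_neg h2]
        exact v1_3
      · rw [if_neg h1, if_pos h2]
        exact v0_3
      · rw [if_neg h1, if_neg h2]
        exact hA.app v0_3 v1_3
    · intro v
      simp only [H]
      congr 1
      funext i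
      by_cases h1 : x i = true <;> by_cases h2 : y i = true <;> simp [h1, h2]
  have e1 : H false true true = f x := by
    simp only [H]
    congr 1
    funext i
    cases x i <;> cases y i <;> simp
  have e2 : H true false true = f y := by
    simp only [H]
    congr 1
    funext i
    cases x i <;> cases y i <;> simp
  have e3 : H false false true = f fun i => x i && y i := by
    simp only [H]
    congr 1
    funext i
    cases x i <;> cases y i <;> simp
  have key := tms_good (H false false false) (H false false true) (H false true false)
    (H false true true) (H true false false) (H true false true) (H true true false)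
    (H true true true) (by rw [e1, e2, e3]; exact hxy)
  rw [← tab3_eq H, List.any_eq_true] at key
  obtain ⟨t, _, ht⟩ := key
  exact t.goal hA hH ht

theorem case_or (hO : Op2 B bor) (hB : ¬ B ⊆ Disj) : Op3 B oS ∨ Op3 B oD := by
  apply goal_dual
  refine case_and ?_ (not_sub_dual conj_dual hB)
  refine (Gen.dual hO).congr fun x => ?_
  simp only [bor, band]
  cases x 0 <;> cases x 1 <;> rfl

/-- binary operation with a given table -/
def tab2 (t0 t1 t2 t3 : Bool) : Bool → Bool → Bool
  | false, false => t0
  | false, true => t1
  | true, false => t2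
  | true, true => t3

theorem tab2_eq (G : Bool → Bool → Bool) :
    G = tab2 (G false false) (G false true) (G true false) (G true true) := by
  funext p q
  cases p <;> cases q <;> rfl

open Tm in
/-- terms that suffice -/
def tms2 : List Tm := [g (g a a) (g b c), g (g b (g c a)) a, g a (g (g a b) c)]

theorem tms2_good : ∀ t0 t1 t2 t3 : Bool, xor t0 (xor t2 (xor t1 t3)) = true →
    (t0 = false ∧ t1 = false ∧ t2 = false ∧ t3 = true) ∨
    (t0 = false ∧ t1 = true ∧ t2 = true ∧ t3 = true) ∨
    tms2.any (fun t => t.good (tab2 t0 t1 t2 t3) (fun p _ _ => p)) = true := by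
  decide +kernel

theorem case_odd {G : Bool → Bool → Bool} (hG : Op2 B G)
    (h : xor (G false false) (xor (G true false) (xor (G false true) (G true true))) = true)
    (hC : ¬ B ⊆ Conj) (hD : ¬ B ⊆ Disj) : Op3 B oS ∨ Op3 B oD := by
  rcases tms2_good _ _ _ _ h with h | h | h
  · refine case_and (hG.congr fun x => ?_) hC
    have := tab2_eq G
    rw [h.1, h.2.1, h.2.2.1, h.2.2.2] at this
    rw [this]
    simp only [band]
    cases x 0 <;> cases x 1 <;> rfl
  · refine case_or (hG.congr fun x => ?_) hD
    have := tab2_eq G
    rw [h.1, h.2.1, h.2.2.1, h.2.2.2] at this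
    rw [this]
    simp only [bor]
    cases x 0 <;> cases x 1 <;> rfl
  · rw [← tab2_eq G, List.any_eq_true] at h
    obtain ⟨t, _, ht⟩ := h
    exact t.goal hG (H := fun p _ _ => p) v0_3 ht

/-- a function that is additive on disjoint vectors is affine -/
theorem affine_of {k : ℕ} (f : (Fin k → Bool) → Bool)
    (h : ∀ u v : Fin k → Bool, (∀ i, u i = false ∨ v i = false) →
      xor (f fun _ => false) (xor (f u) (xor (f v) (f fun i => u i || v i))) = false) :
    (⟨k, f⟩ : BFun) ∈ Aff := by
  have key : ∀ x y : Fin k → Bool,
      xor (f fun _ => false) (xor (f x) (xor (f y) (f fun i => xor (x i) (y i)))) = false := by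
    intro x y
    have h1 := h (fun i => x i && !y i) (fun i => x i && y i)
      (fun i => by cases x i <;> cases y i <;> simp)
    have h2 := h (fun i => y i && !x i) (fun i => x i && y i)
      (fun i => by cases x i <;> cases y i <;> simp)
    have h3 := h (fun i => x i && !y i) (fun i => y i && !x i)
      (fun i => by cases x i <;> cases y i <;> simp)
    have e1 : (fun i => (x i && !y i) || (x i && y i)) = x := by
      funext i; cases x i <;> cases y i <;> rfl
    have e2 : (fun i => (y i && !x i) || (x i && y i)) = y := by
      funext i; cases x i <;> cases y i <;> rfl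
    have e3 : (fun i => (x i && !y i) || (y i && !x i)) = fun i => xor (x i) (y i) := by
      funext i; cases x i <;> cases y i <;> rfl
    rw [e1] at h1
    rw [e2] at h2
    rw [e3] at h3
    revert h1 h2 h3
    generalize (f fun _ => false) = a0
    generalize f x = a1
    generalize f y = a2
    generalize (f fun i => xor (x i) (y i)) = a3
    generalize (f fun i => x i && !y i) = a4
    generalize (f fun i => x i && y i) = a5
    generalize (f fun i => y i && !x i) = a6
    revert a0 a1 a2 a3 a4 a5 a6
    decide
  intro x y z
  have h1 := key x (fun i => xor (y i) (z i))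
  have h2 := key y z
  revert h1 h2
  change _ → _ → f (fun i => xor (x i) (xor (y i) (z i))) = xor (f x) (xor (f y) (f z))
  generalize (f fun _ => false) = a0
  generalize f x = a1
  generalize f y = a2
  generalize f z = a3
  generalize (f fun i => xor (y i) (z i)) = a4
  generalize (f fun i => xor (x i) (xor (y i) (z i))) = a5
  revert a0 a1 a2 a3 a4 a5
  decide

theorem case_zero (hZ : Op1 B bzero) (hA : ¬ B ⊆ Aff) (hC : ¬ B ⊆ Conj) (hD : ¬ B ⊆ Disj) :
    Op3 B oS ∨ Op3 B oD := by
  rw [Set.not_subset] at hA
  obtain ⟨⟨k, f⟩, hf, hf'⟩ := hA
  have : ∃ u v : Fin k → Bool, (∀ i, u i = false ∨ v i = false) ∧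
      xor (f fun _ => false) (xor (f u) (xor (f v) (f fun i => u i || v i))) = true := by
    by_contra hcon
    push Not at hcon
    exact hf' (affine_of f fun u v huv => by simpa using hcon u v huv)
  obtain ⟨u, v, huv, hodd⟩ := this
  let G : Bool → Bool → Bool := fun p q => f fun i => (u i && p) || (v i && q)
  have hG : Op2 B G := by
    refine (Gen.app k f hf (fun i => if u i = true then (fun x => x 0) else
      (if v i = true then (fun x => x 1) else fun _ => false)) ?_).congr ?_
    · intro i
      by_cases h1 : u i = true
      · rw [if_pos h1]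
        exact v0_2
      · by_cases h2 : v i = true
        · rw [if_neg h1, if_pos h2]
          exact v1_2
        · rw [if_neg h1, if_neg h2]
          exact hZ.app v0_2
    · intro x
      simp only [G]
      congr 1
      funext i
      have := huv i
      by_cases h1 : u i = true <;> by_cases h2 : v i = true <;> simp_all
  refine case_odd hG ?_ hC hD
  have e0 : G false false = f fun _ => false := by simp [G]
  have e1 : G true false = f u := by simp [G]
  have e2 : G false true = f v := by simp [G]
  have e3 : G true true = f fun i => u i || v i := by simp [G]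
  rw [e0, e1, e2, e3]
  exact hodd

theorem t_CLO : S_CLO := by
  intro B hA hC hD hS
  have hS' := hS
  rw [Set.not_subset] at hS
  obtain ⟨⟨k, f⟩, hf, hf'⟩ := hS
  simp only [SelfDual, Set.mem_ofPred_eq, not_forall] at hf'
  obtain ⟨a, ha⟩ := hf'
  have ha' : f (fun i => !a i) = f a := by
    revert ha
    cases f (fun i => !a i) <;> cases f a <;> simp
  let G : Bool → Bool → Bool := fun p q => f fun i => if a i = true then q else p
  have hG : Op2 B G := by
    refine (Gen.app k f hf (fun i => if a i = true then (fun x => x 1) else fun x => x 0)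
      ?_).congr ?_
    · intro i
      by_cases h1 : a i = true
      · rw [if_pos h1]
        exact v1_2
      · rw [if_neg h1]
        exact v0_2
    · intro x
      simp only [G]
      congr 1
      funext i
      by_cases h1 : a i = true <;> simp [h1]
  have e1 : G false true = f a := by
    simp only [G]
    congr 1
    funext i
    cases a i <;> rfl
  have e2 : G true false = f a := by
    rw [← ha']
    simp only [G]
    congr 1
    funext i
    cases a i <;> rfl
  have hz : Op1 B bzero → Op3 B oS ∨ Op3 B oD := fun h => case_zero h hA hC hD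
  have ho : Op1 B bone → Op3 B oS ∨ Op3 B oD := fun h => by
    apply goal_dual
    refine case_zero ?_ (not_sub_dual aff_dual hA) (not_sub_dual conj_dual hD)
      (not_sub_dual disj_dual hC)
    exact (Gen.dual h).congr fun x => by simp [bone, bzero]
  have hGG : Op1 B (fun p => G p p) := hG.app v0_1 v0_1
  cases h00 : G false false <;> cases h01 : G false true <;> cases h11 : G true true
  all_goals rw [h01] at e1
  all_goals rw [← e1] at e2
  · exact hz (hGG.congr fun x => by cases hx : x 0 <;> simp [bzero, h00, h11])
  · refine case_and (hG.congr fun x => ?_) hC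
    cases hx : x 0 <;> cases hy : x 1 <;> simp [band, h00, h01, e2, h11]
  · exact hz (hGG.congr fun x => by cases hx : x 0 <;> simp [bzero, h00, h11])
  · refine case_or (hG.congr fun x => ?_) hD
    cases hx : x 0 <;> cases hy : x 1 <;> simp [bor, h00, h01, e2, h11]
  · refine case_odd hG ?_ hC hD
    rw [h00, e2, h01, h11]
    rfl
  · exact ho (hGG.congr fun x => by cases hx : x 0 <;> simp [bone, h00, h11])
  · refine case_odd hG ?_ hC hD
    rw [h00, e2, h01, h11]
    rfl
  · exact ho (hGG.congr fun x => by cases hx : x 0 <;> simp [bone, h00, h11])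

end Pool.Agent.H547R7
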