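import Pool.Agent.H547R7.Stm2

set_option autoImplicit false

namespace Pool.Agent.H547R7

open Pool.Agent.H547R6 Pool.Agent.NPC Pool.Agent.H424R2.PPAD

/-! ### lists -/

private theorem COR_range (r : ℕ) (p : ℕ → Bool) :
    (List.range r).countP p = (Finset.univ.filter fun i : Fin r => p i.val = true).card := by
  rw [Finset.card_filter, Fin.sum_univ_eq_sum_range (fun i => if p i = true then 1 else 0) r]
  induction r with
  | zero => simp
  | succ r ih =>
    rw [List.range_succ, List.countP_append, Finset.sum_range_succ, ih]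
    simp [List.countP_cons]

private theorem COR_two {α : Type} (l : List α) (p q s : α → Bool)
    (h : ∀ y ∈ l, p y = true → q y = true ∨ s y = true) :
    l.countP p ≤ l.countP q + l.countP s := by
  induction l with
  | nil => simp
  | cons a l ih =>
    have h1 := ih fun y hy => h y (List.mem_cons_of_mem _ hy)
    have h2 := h a List.mem_cons_self
    simp only [List.countP_cons]
    cases hp : p a <;> cases hq : q a <;> cases hs : s a <;> simp_all <;> omega

private theorem COR_disj {α : Type} (l : List α) (p q s : α → Bool)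
    (h : ∀ y ∈ l, (p y = true → s y = true ∧ q y = false) ∧ (q y = true → s y = true)) :
    l.countP p + l.countP q ≤ l.countP s := by
  induction l with
  | nil => simp
  | cons a l ih =>
    have h1 := ih fun y hy => h y (List.mem_cons_of_mem _ hy)
    have h2 := h a List.mem_cons_self
    simp only [List.countP_cons]
    cases hp : p a <;> cases hq : q a <;> cases hs : s a <;> simp_all <;> omega

/-! ### blocks of a list -/

private theorem COR_vec (e n : ℕ) (y : List Bool) (i : Fin (rr e n)) :
    vec n (blkL n y i.val) = blk (vecD e n y) i := by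
  funext j
  unfold vec blkL blk vecD
  have hv : (finProdFinEquiv (i, j) : Fin (rr e n * n)).val = j.val + n * i.val := rfl
  rw [hv]
  have hj := j.isLt
  rw [List.getD_eq_getElem?_getD, List.getD_eq_getElem?_getD, List.getElem?_take_of_lt hj,
    List.getElem?_drop]
  congr 2
  ring

private theorem COR_wtL (n : ℕ) (x : List Bool) (hx : x.length = n) : wtL x = wt (vec n x) := by
  subst hx
  unfold wtL wt vec
  have : x.countP (fun b => b) = (List.range x.length).countP fun i => x.getD i false := by
    conv_lhs => rw [show x = (List.range x.length).map fun i => x.getD i false from by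
      apply List.ext_getElem
      · simp
      · intro i h1 h2
        simp at h2
        simp [List.getD_eq_getElem?_getD, h1]]
    rw [List.countP_map]
    rfl
  rw [this, COR_range]

private theorem COR_wt (e n : ℕ) (y : List Bool) (hy : 1 + rr e n * n ≤ y.length)
    (i : Fin (rr e n)) : wtL (blkL n y i.val) = wt (blk (vecD e n y) i) := by
  rw [← COR_vec]
  apply COR_wtL
  unfold blkL
  rw [List.length_take, List.length_drop]
  have h1 : n * i.val + n ≤ rr e n * n := by
    have := i.isLt
    calc n * i.val + n = (i.val + 1) * n := by ring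
      _ ≤ rr e n * n := Nat.mul_le_mul_right _ this
  omega

private theorem COR_s1 (e n : ℕ) (y : List Bool) (hy : 1 + rr e n * n ≤ y.length) :
    s1L e n y = cnt (sl e n fun _ => true) (blk (vecD e n y)) := by
  unfold s1L cnt sl slice
  rw [COR_range]
  congr 1
  apply Finset.filter_congr
  intro i _
  rw [COR_wt e n y hy i]
  simp
  omega

private theorem COR_s0 (e n : ℕ) (y : List Bool) (hy : 1 + rr e n * n ≤ y.length) :
    s0L e n y = cnt (sl e n fun _ => false) (blk (vecD e n y)) := by
  unfold s0L cnt sl slice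
  rw [COR_range]
  congr 1
  apply Finset.filter_congr
  intro i _
  rw [COR_wt e n y hy i]
  simp

private theorem COR_len (e n : ℕ) (y : List Bool) :
    (mbL e n y).length + s0L e n y = s1L e n y := by
  unfold mbL s0L s1L
  rw [List.length_map, ← List.countP_eq_length_filter]
  generalize List.range (rr e n) = l
  induction l with
  | nil => simp
  | cons a l ih =>
    simp only [List.countP_cons]
    rw [← ih]
    by_cases h1 : wtL (blkL n y a) = a % (n + 1)
    · simp [h1]; omega
    · by_cases h2 : a % (n + 1) < wtL (blkL n y a)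
      · simp [h1, h2, h2.le]; omega
      · have h3 : ¬ a % (n + 1) ≤ wtL (blkL n y a) := by omega
        simp [h1, h2, h3]

private theorem COR_cC (e n : ℕ) (C : BF n) (y : List Bool) (hy : 1 + rr e n * n ≤ y.length) :
    (mbL e n y).countP (fun x => C (vec n x)) + s0L e n y =
      cnt (sl e n C) (blk (vecD e n y)) := by
  have h0 : cnt (sl e n C) (blk (vecD e n y)) = (List.range (rr e n)).countP fun i =>
      decide (i % (n + 1) < wtL (blkL n y i)) ||
        (decide (wtL (blkL n y i) = i % (n + 1)) && C (vec n (blkL n y i))) := by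
    rw [COR_range]
    unfold cnt sl slice
    congr 1
    apply Finset.filter_congr
    intro i _
    rw [COR_wt e n y hy i, COR_vec]
  rw [h0]
  unfold mbL s0L
  rw [List.countP_map, List.countP_filter]
  generalize List.range (rr e n) = l
  induction l with
  | nil => simp
  | cons a l ih =>
    simp only [List.countP_cons]
    rw [← ih]
    by_cases h1 : wtL (blkL n y a) = a % (n + 1)
    · cases h3 : C (vec n (blkL n y a)) <;> simp [h1, h3] <;> omega
    · by_cases h2 : a % (n + 1) < wtL (blkL n y a)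
      · simp [h1, h2]; omega
      · simp [h1, h2]

/-! ### probabilities -/

private theorem COR_pr_le_one {Ω : Type} [Fintype Ω] (p : Ω → Bool) : pr p ≤ 1 := by
  unfold pr
  apply div_le_one_of_le₀ _ (Nat.cast_nonneg _)
  exact_mod_cast (Finset.card_filter_le _ _).trans (by simp)

private theorem COR_pr_nonneg {Ω : Type} [Fintype Ω] (p : Ω → Bool) : 0 ≤ pr p := by
  unfold pr; positivity

private theorem COR_pr_or {Ω : Type} [Fintype Ω] (p q : Ω → Bool) :
    pr (fun x => p x || q x) ≤ pr p + pr q := by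
  classical
  unfold pr
  rw [← add_div]
  apply div_le_div_of_nonneg_right _ (Nat.cast_nonneg _)
  have : (Finset.univ.filter fun x => (p x || q x) = true) ⊆
      (Finset.univ.filter fun x => p x = true) ∪ (Finset.univ.filter fun x => q x = true) := by
    intro x; simp
  exact_mod_cast (Finset.card_le_card this).trans (Finset.card_union_le _ _)

private theorem COR_pr_and {n : ℕ} (p q : BF n) :
    pr p + pr q - 1 ≤ pr (fun x => p x && q x) := by
  classical
  unfold pr
  have hc : (0 : ℝ) < Fintype.card (Fin n → Bool) := by exact_mod_cast Fintype.card_pos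
  rw [← add_div, div_sub_one hc.ne']
  apply div_le_div_of_nonneg_right _ hc.le
  have h1 := Finset.card_union_add_card_inter (Finset.univ.filter fun x => p x = true)
    (Finset.univ.filter fun x => q x = true)
  have h2 : (Finset.univ.filter fun x => p x = true) ∩ (Finset.univ.filter fun x => q x = true) =
      Finset.univ.filter fun x => (p x && q x) = true := by
    ext x; simp
  rw [h2] at h1
  have h3 : ((Finset.univ.filter fun x => p x = true) ∪
      (Finset.univ.filter fun x => q x = true)).card ≤ Fintype.card (Fin n → Bool) :=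
    Finset.card_le_univ _
  have h1' : (((Finset.univ.filter fun x => p x = true) ∪
      (Finset.univ.filter fun x => q x = true)).card : ℝ) +
      ((Finset.univ.filter fun x => (p x && q x) = true).card : ℝ) =
      ((Finset.univ.filter fun x => p x = true).card : ℝ) +
      ((Finset.univ.filter fun x => q x = true).card : ℝ) := by exact_mod_cast h1
  have h3' : (((Finset.univ.filter fun x => p x = true) ∪
      (Finset.univ.filter fun x => q x = true)).card : ℝ) ≤ Fintype.card (Fin n → Bool) := by
    exact_mod_cast h3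
  linarith

private theorem COR_pr_const_true (n : ℕ) : pr (fun _ : Fin n → Bool => true) = 1 := by
  unfold pr
  simp

private theorem COR_pr_const_false (n : ℕ) : pr (fun _ : Fin n → Bool => false) = 0 := by
  unfold pr
  simp

private theorem COR_modsum (m k : ℕ) (f : ℕ → ℝ) :
    ∑ i ∈ Finset.range (m * k), f (i % k) = m * ∑ j ∈ Finset.range k, f j := by
  induction m with
  | zero => simp
  | succ m ih =>
    rw [Nat.succ_mul, Finset.sum_range_add, ih]
    have : ∀ x ∈ Finset.range k, f ((m * k + x) % k) = f x := by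
      intro x hx
      rw [Finset.mem_range] at hx
      rw [Nat.mul_comm m k, Nat.mul_add_mod, Nat.mod_eq_of_lt hx]
    rw [Finset.sum_congr rfl this]
    push_cast
    ring

private theorem COR_sum (h2 : S_EXP) (e n : ℕ) (C : BF n) :
    ∑ i, pr (sl e n C i) = (e : ℝ) ^ 3 * (n + 1) * n + 2 * e ^ 3 * (n + 1) * pr C := by
  unfold sl
  rw [Fin.sum_univ_eq_sum_range (fun i => pr (slice n (i % (n + 1)) C)) (rr e n)]
  have hr : rr e n = (2 * e ^ 3 * (n + 1)) * (n + 1) := by unfold rr; ring
  rw [hr, COR_modsum _ _ (fun k => pr (slice n k C)), h2 n C]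
  push_cast
  ring

/-! ### the counting argument -/

private theorem COR_nat (e n : ℕ) (he : 8 ≤ e) (hn : 1 ≤ n) :
    2 * e ^ 2 * (n + 1) ≤ e ^ 3 * (n + 1) * n ∧ 4 * e ^ 2 * (n + 1) ≤ 2 * e ^ 3 * (n + 1) ∧
      2 * e ^ 2 * (n + 1) ≤ e ^ 3 * (n + 1) * n + 2 * e ^ 3 * (n + 1) ∧ 0 < kk e n ∧
      b0 e n + kk e n = a1 e n := by
  have h0 : 0 < e ^ 2 * (n + 1) := by positivity
  have h1 : e ^ 3 * (n + 1) = e * (e ^ 2 * (n + 1)) := by ring
  have h2 : 8 * (e ^ 2 * (n + 1)) ≤ e ^ 3 * (n + 1) := by
    rw [h1]; exact Nat.mul_le_mul_right _ he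
  have h3 : e ^ 3 * (n + 1) ≤ e ^ 3 * (n + 1) * n := Nat.le_mul_of_pos_right _ (by omega)
  have h4 : 2 * e ^ 2 * (n + 1) = 2 * (e ^ 2 * (n + 1)) := by ring
  have h5 : 4 * e ^ 2 * (n + 1) = 4 * (e ^ 2 * (n + 1)) := by ring
  have h6 : 2 * e ^ 3 * (n + 1) = 2 * (e ^ 3 * (n + 1)) := by ring
  unfold kk b0 a1
  rw [h4, h5, h6]
  refine ⟨?_, ?_, ?_, ?_, ?_⟩ <;> omega

private theorem COR_final {A Hc om u τ W : ℝ} (hW : 0 < W) (hu : u ≤ 1 / 4)
    (hτ : 0 < τ) (hom0 : 0 ≤ om) (hom : om ≤ u - τ / 2) (hA : 1 / 2 - u - om ≤ A / W)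
    (hH : Hc / W ≤ u - om) : 0 < A ∧ Hc / A ≤ u / (1 / 2 - u) := by
  have hAW : 0 < A / W := by linarith
  have hA0 : 0 < A := by
    by_contra h
    have : A / W ≤ 0 := div_nonpos_of_nonpos_of_nonneg (not_lt.1 h) hW.le
    linarith
  refine ⟨hA0, ?_⟩
  have hd : (0 : ℝ) < 1 / 2 - u := by linarith
  rw [div_le_div_iff₀ hA0 hd]
  rw [le_div_iff₀ hW] at hA
  rw [div_le_iff₀ hW] at hH
  have h1 : Hc * (1 / 2 - u) ≤ (u - om) * W * (1 / 2 - u) :=
    mul_le_mul_of_nonneg_right hH hd.le
  have hu0 : 0 ≤ u := by linarith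
  have h2 : u * ((1 / 2 - u - om) * W) ≤ u * A := mul_le_mul_of_nonneg_left hA hu0
  have h3 : (u - om) * W * (1 / 2 - u) ≤ u * ((1 / 2 - u - om) * W) := by
    have : 0 ≤ om * W * (1 / 2 - 2 * u) := by
      apply mul_nonneg (mul_nonneg hom0 hW.le); linarith
    nlinarith
  linarith

private theorem COR_ratio (E N p : ℝ) (hN : 0 < N) (hE : 8 ≤ E) (hp : p ≤ 1) :
    (2 * E ^ 3 * N * p + 4 * E ^ 2 * N) / (2 * E ^ 2 * N * (E - 2)) ≤ p + 5 / (E - 2) := by
  have he2 : (0 : ℝ) < E - 2 := by linarith
  have hE0 : (0 : ℝ) < E := by linarith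
  have h1 : (2 * E ^ 3 * N * p + 4 * E ^ 2 * N) / (2 * E ^ 2 * N * (E - 2)) =
      (E * p + 2) / (E - 2) := by
    rw [div_eq_div_iff (by positivity) he2.ne']
    ring
  have h2 : p + 5 / (E - 2) = (p * (E - 2) + 5) / (E - 2) := by
    field_simp
  rw [h1, h2]
  apply div_le_div_of_nonneg_right _ he2.le
  linarith

private theorem COR_gen1 (K k x h t r : ℝ) (h1 : t ≤ K) (h2 : r ≤ K * x + k * h) :
    t + r ≤ K * (x + 1) + k * (h + 0) := by
  have : K * (x + 1) + k * (h + 0) = (K * x + k * h) + K := by ring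
  rw [this]; linarith

private theorem COR_gen2 (K k x h t r : ℝ) (hK : 0 ≤ K) (h1 : t ≤ k) (h2 : r ≤ K * x + k * h) :
    t + r ≤ K * (x + 1) + k * (h + 1) := by
  have : K * (x + 1) + k * (h + 1) = (K * x + k * h) + K + k := by ring
  rw [this]; linarith

theorem t_COR (h1 : S_CHE) (h2 : S_EXP) : S_COR := by
  intro e n ys ε C he hn hys hlen hε hL hH0 hH
  have heR : (8 : ℝ) ≤ e := by exact_mod_cast he
  have hnR : (1 : ℝ) ≤ n := by exact_mod_cast hn
  obtain ⟨hn1, hn2, hn3, hkpos, hab⟩ := COR_nat e n he hn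
  have he0 : (0 : ℝ) < e := by linarith
  have hap : (0 : ℝ) < 2 * (e : ℝ) ^ 2 * (n + 1) := by positivity
  have hτ : (rr e n : ℝ) / (4 * (2 * (e : ℝ) ^ 2 * (n + 1)) ^ 2) = 1 / (8 * e) := by
    unfold rr; push_cast; field_simp; ring
  have hτ0 : (0 : ℝ) < 1 / (8 * e) := by positivity
  have ha1 : (a1 e n : ℝ) = (e : ℝ) ^ 3 * (n + 1) * n + 2 * e ^ 3 * (n + 1) -
      2 * e ^ 2 * (n + 1) := by
    unfold a1; rw [Nat.cast_sub hn3]; push_cast; ring
  have ha0 : (a0 e n : ℝ) = (e : ℝ) ^ 3 * (n + 1) * n - 2 * e ^ 2 * (n + 1) := by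
    unfold a0; rw [Nat.cast_sub hn1]; push_cast; ring
  have hb0 : (b0 e n : ℝ) = (e : ℝ) ^ 3 * (n + 1) * n + 2 * e ^ 2 * (n + 1) := by
    unfold b0; push_cast; ring
  have hkk : (kk e n : ℝ) = 2 * (e : ℝ) ^ 2 * (n + 1) * (e - 2) := by
    unfold kk; rw [Nat.cast_sub hn2]; push_cast; ring
  -- expectations
  have hET := COR_sum h2 e n (fun _ => true)
  have hEF := COR_sum h2 e n (fun _ => false)
  have hEC := COR_sum h2 e n C
  rw [COR_pr_const_true] at hET
  rw [COR_pr_const_false] at hEF
  -- the tests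
  obtain ⟨-, hcT⟩ := h1 n (rr e n) (sl e n fun _ => true) _ hap
  obtain ⟨hcF1, hcF2⟩ := h1 n (rr e n) (sl e n fun _ => false) _ hap
  obtain ⟨hcC, -⟩ := h1 n (rr e n) (sl e n C) _ hap
  rw [hτ] at hcT hcF1 hcF2 hcC
  have hpL : 1 - 2 * (1 / (8 * (e : ℝ))) ≤ pr (tLow e n) := by
    have e1 := hcT (a1 e n) (by rw [hET, ha1]; linarith)
    have e2 := hcF2 (a0 e n) (by rw [hEF, ha0]; linarith)
    have e3 := COR_pr_and (fun z : Fin (rr e n * n) → Bool =>
      decide (a1 e n ≤ cnt (sl e n fun _ => true) (blk z)))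
      (fun z => decide (a0 e n ≤ cnt (sl e n fun _ => false) (blk z)))
    unfold tLow
    linarith
  have hp0 : pr (tHi0 e n) ≤ 1 / (8 * (e : ℝ)) := by
    exact hcF1 (b0 e n) (by rw [hEF, hb0]; linarith)
  obtain ⟨θ, hθdef⟩ : ∃ θ : ℕ, θ = ⌈(e : ℝ) ^ 3 * (n + 1) * n + 2 * e ^ 3 * (n + 1) * pr C +
    2 * e ^ 2 * (n + 1)⌉₊ := ⟨_, rfl⟩
  have hθ : (e : ℝ) ^ 3 * (n + 1) * n + 2 * e ^ 3 * (n + 1) * pr C + 2 * e ^ 2 * (n + 1) ≤ θ := by
    rw [hθdef]; exact Nat.le_ceil _
  have hpH : pr (tHi e n C θ) ≤ 2 * (1 / (8 * (e : ℝ))) := by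
    have e1 := hcC θ (by rw [hEC]; exact hθ)
    have e2 := COR_pr_or (tHi0 e n) (fun z => decide (θ ≤ cnt (sl e n C) (blk z)))
    unfold tHi
    linarith
  -- counting in the list
  have hW : (0 : ℝ) < ys.length := by exact_mod_cast List.length_pos_of_ne_nil hys
  have hgL := hL
  have hg0 := hH0
  have hgH := hH θ
  unfold Good at hgL hg0 hgH
  rw [abs_le] at hgL hg0 hgH
  obtain ⟨Hh, hHh⟩ : ∃ Hh : List Bool → Bool, Hh = fun y =>
    passL e n y && decide (θ ≤ cnt (sl e n C) (blk (vecD e n y))) := ⟨_, rfl⟩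
  have hAc : ys.countP (fun y => y.getD 0 false && tLow e n (vecD e n y)) ≤
      ys.countP (passL e n) + ys.countP (fun y => y.getD 0 false && tHi0 e n (vecD e n y)) := by
    apply COR_two
    intro y hy
    have hs1 := COR_s1 e n y (hlen y hy)
    have hs0 := COR_s0 e n y (hlen y hy)
    unfold passL tLow tHi0
    rw [hs1, hs0]
    simp only [Bool.and_eq_true, decide_eq_true_eq]
    rintro ⟨g1, g2, g3⟩
    by_cases g4 : cnt (sl e n fun _ => false) (blk (vecD e n y)) < b0 e n
    · left; exact ⟨g1, g2, g3, g4⟩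
    · right; exact ⟨g1, not_lt.1 g4⟩
  have hHc : ys.countP Hh + ys.countP (fun y => y.getD 0 false && tHi0 e n (vecD e n y)) ≤
      ys.countP (fun y => y.getD 0 false && tHi e n C θ (vecD e n y)) := by
    apply COR_disj
    intro y hy
    have hs1 := COR_s1 e n y (hlen y hy)
    have hs0 := COR_s0 e n y (hlen y hy)
    rw [hHh]
    unfold passL tHi tHi0
    beta_reduce
    rw [hs1, hs0]
    simp only [Bool.and_eq_true, decide_eq_true_eq, Bool.or_eq_true]
    constructor
    · rintro ⟨⟨g1, g2, g3, g4⟩, g5⟩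
      refine ⟨⟨g1, Or.inr g5⟩, ?_⟩
      rw [g1]
      simpa using g4
    · rintro ⟨g1, g2⟩
      exact ⟨g1, Or.inl g2⟩
  -- per point
  have hK0 : (0 : ℝ) ≤ 2 * e ^ 3 * (n + 1) * pr C + 4 * e ^ 2 * (n + 1) := by
    have := COR_pr_nonneg C
    positivity
  have key : ∀ l : List (List Bool), (∀ y ∈ l, 1 + rr e n * n ≤ y.length) →
      (dL e n l).length = kk e n * l.countP (passL e n) ∧
      ((dL e n l).countP (fun x => C (vec n x)) : ℝ) ≤
        (2 * e ^ 3 * (n + 1) * pr C + 4 * e ^ 2 * (n + 1)) * l.countP (passL e n) +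
          kk e n * l.countP Hh := by
    intro l
    induction l with
    | nil => intro _; simp [dL]
    | cons y l ih =>
      intro hl
      obtain ⟨ih1, ih2⟩ := ih fun z hz => hl z (List.mem_cons_of_mem _ hz)
      have hy := hl y List.mem_cons_self
      have hd : dL e n (y :: l) =
          (if passL e n y = true then (mbL e n y).take (kk e n) else []) ++ dL e n l := by
        unfold dL; rw [List.flatMap_cons]
      rw [hd, List.length_append, List.countP_append, List.countP_cons, List.countP_cons]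
      by_cases hp : passL e n y = true
      · have hlen1 := COR_len e n y
        have hcC1 := COR_cC e n C y hy
        have hp' := hp
        unfold passL at hp'
        simp only [Bool.and_eq_true, decide_eq_true_eq] at hp'
        obtain ⟨g1, g2, g3, g4⟩ := hp'
        have hmb : kk e n ≤ (mbL e n y).length := by omega
        have htl : ((mbL e n y).take (kk e n)).length = kk e n := by
          rw [List.length_take]; omega
        rw [if_pos hp, if_pos hp, htl, ih1]
        refine ⟨by ring, ?_⟩
        by_cases hq : θ ≤ cnt (sl e n C) (blk (vecD e n y))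
        · have hHy : Hh y = true := by rw [hHh]; simp [hp, hq]
          rw [if_pos hHy]
          have hc : ((mbL e n y).take (kk e n)).countP (fun x => C (vec n x)) ≤ kk e n := by
            calc _ ≤ ((mbL e n y).take (kk e n)).length := List.countP_le_length
              _ = _ := htl
          have hc' : (((mbL e n y).take (kk e n)).countP (fun x => C (vec n x)) : ℝ) ≤ kk e n := by
            exact_mod_cast hc
          push_cast
          exact COR_gen2 _ _ _ _ _ _ hK0 hc' ih2
        · have hHy : ¬ Hh y = true := by rw [hHh]; simp [hq]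
          rw [if_neg hHy]
          have hc : ((mbL e n y).take (kk e n)).countP (fun x => C (vec n x)) ≤
              (mbL e n y).countP (fun x => C (vec n x)) :=
            (List.take_sublist _ _).countP_le
          have hlt : (cnt (sl e n C) (blk (vecD e n y)) : ℝ) <
              (e : ℝ) ^ 3 * (n + 1) * n + 2 * e ^ 3 * (n + 1) * pr C + 2 * e ^ 2 * (n + 1) := by
            rw [hθdef] at hq
            exact Nat.lt_ceil.1 (not_le.1 hq)
          have hc1 : (((mbL e n y).take (kk e n)).countP (fun x => C (vec n x)) : ℝ) ≤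
              ((mbL e n y).countP (fun x => C (vec n x)) : ℝ) := by exact_mod_cast hc
          have hc2 : ((mbL e n y).countP (fun x => C (vec n x)) : ℝ) + (s0L e n y : ℝ) =
              (cnt (sl e n C) (blk (vecD e n y)) : ℝ) := by exact_mod_cast hcC1
          have hc3 : (a0 e n : ℝ) ≤ s0L e n y := by exact_mod_cast g3
          rw [ha0] at hc3
          have hc4 : (((mbL e n y).take (kk e n)).countP (fun x => C (vec n x)) : ℝ) ≤
              2 * e ^ 3 * (n + 1) * pr C + 4 * e ^ 2 * (n + 1) := by linarith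
          have hc5 := COR_gen1 _ (kk e n : ℝ) _ _ _ _ hc4 ih2
          push_cast
          push_cast at hc5
          exact hc5
      · have hHy : ¬ Hh y = true := by rw [hHh]; simp [hp]
        rw [if_neg hp, if_neg hp, if_neg hHy]
        simp only [List.length_nil, List.countP_nil, zero_add, add_zero]
        exact ⟨ih1, ih2⟩
  obtain ⟨hlenD, hcntD⟩ := key ys hlen
  -- numbers
  have hAcR : (ys.countP (fun y => y.getD 0 false && tLow e n (vecD e n y)) : ℝ) / ys.length ≤
      (ys.countP (passL e n) : ℝ) / ys.length +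
        (ys.countP (fun y => y.getD 0 false && tHi0 e n (vecD e n y)) : ℝ) / ys.length := by
    rw [← add_div]
    apply div_le_div_of_nonneg_right _ hW.le
    exact_mod_cast hAc
  have hHcR : (ys.countP Hh : ℝ) / ys.length +
        (ys.countP (fun y => y.getD 0 false && tHi0 e n (vecD e n y)) : ℝ) / ys.length ≤
      (ys.countP (fun y => y.getD 0 false && tHi e n C θ (vecD e n y)) : ℝ) / ys.length := by
    rw [← add_div]
    apply div_le_div_of_nonneg_right _ hW.le
    exact_mod_cast hHc
  unfold cp at hgL hg0 hgH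
  have hom0 : (0 : ℝ) ≤
      (ys.countP (fun y => y.getD 0 false && tHi0 e n (vecD e n y)) : ℝ) / ys.length := by
    positivity
  obtain ⟨hA0, hHA⟩ := COR_final (A := (ys.countP (passL e n) : ℝ)) (Hc := (ys.countP Hh : ℝ))
    (om := (ys.countP (fun y => y.getD 0 false && tHi0 e n (vecD e n y)) : ℝ) / ys.length)
    (u := ε + 1 / (8 * e)) (τ := 1 / (8 * (e : ℝ))) hW hε hτ0 hom0
    (by linarith [hg0.2]) (by linarith [hgL.1]) (by linarith [hgH.2])
  have hkR : (0 : ℝ) < kk e n := by exact_mod_cast hkpos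
  have hlenR : ((dL e n ys).length : ℝ) = kk e n * ys.countP (passL e n) := by
    exact_mod_cast hlenD
  have hlpos : (0 : ℝ) < ((dL e n ys).length : ℝ) := by rw [hlenR]; positivity
  refine ⟨?_, ?_⟩
  · intro h
    rw [h] at hlpos
    simp at hlpos
  · unfold cp
    have e1 : ((dL e n ys).countP (fun x => C (vec n x)) : ℝ) / (dL e n ys).length ≤
        (2 * e ^ 3 * (n + 1) * pr C + 4 * e ^ 2 * (n + 1)) / kk e n +
          (ys.countP Hh : ℝ) / (ys.countP (passL e n) : ℝ) := by
      rw [div_add_div _ _ hkR.ne' hA0.ne', hlenR]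
      exact div_le_div_of_nonneg_right hcntD (by positivity)
    have e2 : (2 * (e : ℝ) ^ 3 * (n + 1) * pr C + 4 * e ^ 2 * (n + 1)) / kk e n ≤
        pr C + 5 / ((e : ℝ) - 2) := by
      rw [hkk]
      exact COR_ratio _ _ _ (by positivity) heR (COR_pr_le_one C)
    have e3 : (ε + 1 / (8 * (e : ℝ))) / (1 / 2 - (ε + 1 / (8 * e))) =
        (ε + 1 / (8 * e)) / (1 / 2 - ε - 1 / (8 * e)) := by
      congr 1; ring
    rw [e3] at hHA
    linarith

end Pool.Agent.H547R7
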