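import Pool.Agent.H547R7.Stm

/-!
# Task TST: thresholds of slice functions on blocks
-/

set_option autoImplicit false

namespace Pool.Agent.H547R7

open Pool.Agent.H547R6 Pool.Agent.NPC Pool.Agent.H424R2.PPAD

/-- substitution of variables -/
def TST_sub {n N : ℕ} (e : Fin n → Fin N) (f : BF n) : BF N := fun z => f fun j => z (e j)

theorem TST_avail_sub {n N : ℕ} (e : Fin n → Fin N) {l : List (BF n)} {f : BF n}
    (h : Avail l f) : Avail (l.map (TST_sub e)) (TST_sub e f) := by
  rcases h with h | ⟨i, rfl⟩
  · exact Or.inl (List.mem_map_of_mem h)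
  · exact Or.inr ⟨e i, rfl⟩

theorem TST_gates_sub {B : Set BFun} {n N : ℕ} (e : Fin n → Fin N) {l : List (BF n)}
    (h : Gates B n l) : Gates B N (l.map (TST_sub e)) := by
  induction h with
  | nil => exact Gates.nil
  | gate l k f g hf hg _ ih =>
    exact Gates.gate (l.map (TST_sub e)) k f (fun j => TST_sub e (g j)) hf
      (fun j => TST_avail_sub e (hg j)) ih

theorem TST_avail_left {n : ℕ} {l l' : List (BF n)} {f : BF n} (h : Avail l f) :
    Avail (l ++ l') f := by
  rcases h with h | h
  · exact Or.inl (List.mem_append_left _ h)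
  · exact Or.inr h

theorem TST_gates_append {B : Set BFun} {n : ℕ} {l l' : List (BF n)}
    (h : Gates B n l) (h' : Gates B n l') : Gates B n (l ++ l') := by
  induction h with
  | nil => exact h'
  | gate l k f g hf hg _ ih =>
    exact Gates.gate (l ++ l') k f g hf (fun j => TST_avail_left (hg j)) ih

theorem TST_gates_flatMap {B : Set BFun} {n : ℕ} {ι : Type} (L : ι → List (BF n))
    (h : ∀ i, Gates B n (L i)) (S : List ι) : Gates B n (S.flatMap L) := by
  induction S with
  | nil => exact Gates.nil
  | cons a S ih => rw [List.flatMap_cons]; exact TST_gates_append (h a) ih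

theorem TST_len_flatMap {n s : ℕ} {ι : Type} (L : ι → List (BF n))
    (h : ∀ i, (L i).length ≤ s) (S : List ι) : (S.flatMap L).length ≤ S.length * s := by
  induction S with
  | nil => simp
  | cons a S ih =>
    rw [List.flatMap_cons, List.length_append, List.length_cons, Nat.add_mul, Nat.one_mul]
    have := h a
    omega

theorem t_TST (h1 : S_THR) (h2 : S_SLI) : S_TST := by
  intro n r q k C hC θ
  set s : ℕ := 4 * (n + 1) ^ 3 + 2 * q with hs
  have key : ∀ i : Fin r, ∃ L : List (BF (r * n)), Gates MB (r * n) L ∧ L.length ≤ s ∧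
      MCa L (fun z => slice n (k i) C (blk z i)) := by
    intro i
    rcases h2 n q (k i) C hC with ⟨b, hb⟩ | ⟨l, hl, hlen, hav⟩
    · exact ⟨[], Gates.nil, Nat.zero_le _, Or.inl ⟨b, fun z => hb _⟩⟩
    · refine ⟨l.map (TST_sub fun j => finProdFinEquiv (i, j)), TST_gates_sub _ hl, ?_,
        Or.inr (TST_avail_sub _ hav)⟩
      rw [List.length_map]; exact hlen
  choose L hL1 hL2 hL3 using key
  have hG := TST_gates_flatMap L hL1 (List.finRange r)
  have hlen := TST_len_flatMap L hL2 (List.finRange r)
  rw [List.length_finRange] at hlen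
  have hav : ∀ i, MCa ((List.finRange r).flatMap L) (fun z => slice n (k i) C (blk z i)) := by
    intro i
    rcases hL3 i with h | h | h
    · exact Or.inl h
    · exact Or.inr (Or.inl (List.mem_flatMap.2 ⟨i, List.mem_finRange i, h⟩))
    · exact Or.inr (Or.inr h)
  obtain ⟨l', hl', hlen', hm⟩ := h1 (r * n) r _ (fun i z => slice n (k i) C (blk z i)) hG hav θ
  rcases hm with ⟨b, hb⟩ | hm
  · exact Or.inl ⟨b, hb⟩
  · refine Or.inr ⟨_, hl', ?_, hm⟩
    rw [List.length_append]
    omega

end Pool.Agent.H547R7
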