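import Pool.Agent.H547R7.Stm2
import Pool.Agent.H547R7.T_TST

/-!
# Task CPX: complexity of the tests
-/

set_option autoImplicit false

namespace Pool.Agent.H547R7

open Pool.Agent.H547R6 Pool.Agent.NPC Pool.Agent.H424R2.PPAD

theorem CPX_true {n : ℕ} (hn : 1 ≤ n) : Comp0 n n (fun _ => true) := by
  have h1 : AON n 0 [fun x => !(fun x : Fin n → Bool => x ⟨0, hn⟩) x] :=
    AON.not 0 [] _ AON.nil (Or.inr ⟨⟨0, hn⟩, rfl⟩)
  have h2 := AON.or 0 _ (fun x : Fin n → Bool => x ⟨0, hn⟩)
    (fun x => !(fun x : Fin n → Bool => x ⟨0, hn⟩) x) h1 (Or.inr ⟨⟨0, hn⟩, rfl⟩)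
    (Or.inl (List.mem_singleton.2 rfl))
  refine ⟨_, _, h2, by omega, Or.inl ?_⟩
  have e : (fun _ : Fin n → Bool => true) = fun x => (fun x : Fin n → Bool => x ⟨0, hn⟩) x ||
      (fun x => !(fun x : Fin n → Bool => x ⟨0, hn⟩) x) x := by
    funext x
    simp
  rw [e]
  exact List.mem_cons_self

theorem CPX_false {n : ℕ} (hn : 1 ≤ n) : Comp0 n n (fun _ => false) := by
  have h1 : AON n 0 [fun x => !(fun x : Fin n → Bool => x ⟨0, hn⟩) x] :=
    AON.not 0 [] _ AON.nil (Or.inr ⟨⟨0, hn⟩, rfl⟩)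
  have h2 := AON.and 0 _ (fun x : Fin n → Bool => x ⟨0, hn⟩)
    (fun x => !(fun x : Fin n → Bool => x ⟨0, hn⟩) x) h1 (Or.inr ⟨⟨0, hn⟩, rfl⟩)
    (Or.inl (List.mem_singleton.2 rfl))
  refine ⟨_, _, h2, by omega, Or.inl ?_⟩
  have e : (fun _ : Fin n → Bool => false) = fun x => (fun x : Fin n → Bool => x ⟨0, hn⟩) x &&
      (fun x => !(fun x : Fin n → Bool => x ⟨0, hn⟩) x) x := by
    funext x
    simp
  rw [e]
  exact List.mem_cons_self

theorem CPX_mono {n s s' : ℕ} {f : BF n} (h : MC n s f) (hs : s ≤ s') : MC n s' f := by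
  rcases h with h | ⟨l, hl, hlen, hav⟩
  · exact Or.inl h
  · exact Or.inr ⟨l, hl, hlen.trans hs, hav⟩

theorem CPX_avail_right {n : ℕ} {l l' : List (BF n)} {f : BF n} (h : Avail l' f) :
    Avail (l ++ l') f := by
  rcases h with h | h
  · exact Or.inl (List.mem_append_right _ h)
  · exact Or.inr h

theorem CPX_gate {n s : ℕ} {f g : BF n} (o : Bool → Bool → Bool)
    (ho : (⟨2, fun x => o (x 0) (x 1)⟩ : BFun) ∈ MB) (hf : Computes MB n s f)
    (hg : Computes MB n s g) : Computes MB n (2 * s + 1) (fun x => o (f x) (g x)) := by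
  obtain ⟨l, hl, hlen, hav⟩ := hf
  obtain ⟨l', hl', hlen', hav'⟩ := hg
  have h1 := Gates.gate (l ++ l') 2 (fun x => o (x 0) (x 1)) ![f, g] ho (by
    intro j
    fin_cases j
    · exact TST_avail_left hav
    · exact CPX_avail_right hav') (TST_gates_append hl hl')
  refine ⟨_, h1, ?_, Or.inl ?_⟩
  · rw [List.length_cons, List.length_append]
    omega
  · have e : (fun x => o (f x) (g x)) = fun x : Fin n → Bool =>
        (fun x : Fin 2 → Bool => o (x 0) (x 1)) fun j => (![f, g] : Fin 2 → BF n) j x := by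
      funext x
      simp
    rw [e]
    exact List.mem_cons_self

theorem CPX_and {n s : ℕ} {f g : BF n} (hf : MC n s f) (hg : MC n s g) :
    MC n (2 * s + 1) (fun x => f x && g x) := by
  rcases hf with ⟨b, hb⟩ | hf'
  · cases b with
    | false => exact Or.inl ⟨false, fun x => by simp [hb x]⟩
    | true =>
      have e : (fun x => f x && g x) = g := by
        funext x
        rw [hb x, Bool.true_and]
      rw [e]
      exact CPX_mono hg (by omega)
  rcases hg with ⟨b, hb⟩ | hg'
  · cases b with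
    | false => exact Or.inl ⟨false, fun x => by simp [hb x]⟩
    | true =>
      have e : (fun x => f x && g x) = f := by
        funext x
        rw [hb x, Bool.and_true]
      rw [e]
      exact CPX_mono (Or.inr hf') (by omega)
  · exact Or.inr (CPX_gate (fun a b => a && b) (Or.inl rfl) hf' hg')

theorem CPX_or {n s : ℕ} {f g : BF n} (hf : MC n s f) (hg : MC n s g) :
    MC n (2 * s + 1) (fun x => f x || g x) := by
  rcases hf with ⟨b, hb⟩ | hf'
  · cases b with
    | true => exact Or.inl ⟨true, fun x => by simp [hb x]⟩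
    | false =>
      have e : (fun x => f x || g x) = g := by
        funext x
        rw [hb x, Bool.false_or]
      rw [e]
      exact CPX_mono hg (by omega)
  rcases hg with ⟨b, hb⟩ | hg'
  · cases b with
    | true => exact Or.inl ⟨true, fun x => by simp [hb x]⟩
    | false =>
      have e : (fun x => f x || g x) = f := by
        funext x
        rw [hb x, Bool.or_false]
      rw [e]
      exact CPX_mono (Or.inr hf') (by omega)
  · exact Or.inr (CPX_gate (fun a b => a || b) (Or.inr rfl) hf' hg')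

theorem t_CPX (h : S_TST) : S_CPX := by
  intro e n C θ hn hC
  have key : ∀ (C : BF n), Comp0 n n C → ∀ θ : ℕ,
      MC (rr e n * n) (rr e n * (4 * (n + 1) ^ 3 + 2 * n) + 2 * rr e n * (rr e n + 1))
        (fun z => decide (θ ≤ cnt (sl e n C) (blk z))) := fun C hC θ =>
    h n (rr e n) n (fun i => i.val % (n + 1)) C hC θ
  refine ⟨?_, ?_, ?_⟩
  · exact CPX_and (key _ (CPX_true hn) (a1 e n)) (key _ (CPX_false hn) (a0 e n))
  · exact CPX_mono (key _ (CPX_false hn) (b0 e n)) (by omega)
  · exact CPX_or (key _ (CPX_false hn) (b0 e n)) (key C hC θ)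

end Pool.Agent.H547R7
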