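import Pool.Agent.H547R7.Stm2

/-!
# Task DUA (helper379): dual gate sets
-/

set_option autoImplicit false

namespace Pool.Agent.H547R7

open Pool.Agent.H547R6 Pool.Agent.NPC Pool.Agent.H424R2.PPAD

/-- the dual function -/
def DUA_D {n : ℕ} (f : BF n) : BF n := fun x => !f (fun i => !x i)

theorem DUA_avail {n : ℕ} {l : List (BF n)} {f : BF n} (h : Avail l f) :
    Avail (l.map DUA_D) (DUA_D f) := by
  rcases h with h | ⟨i, rfl⟩
  · exact Or.inl (List.mem_map_of_mem h)
  · refine Or.inr ⟨i, ?_⟩
    funext x
    simp [DUA_D]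

theorem DUA_gates {B : Set BFun} {n : ℕ} {l : List (BF n)} (h : Gates (dualB B) n l) :
    Gates B n (l.map DUA_D) := by
  induction h with
  | nil => exact Gates.nil
  | gate l k f g hf hg hl ih =>
    have h1 := Gates.gate (l.map DUA_D) k (fun y => !f (fun j => !y j)) (fun j => DUA_D (g j)) hf
      (fun j => DUA_avail (hg j)) ih
    have h2 : ((fun x => f fun j => g j x) :: l).map DUA_D =
        (fun x => (fun y => !f (fun j => !y j)) fun j => DUA_D (g j) x) :: l.map DUA_D := by
      rw [List.map_cons]
      congr 1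
      funext x
      simp [DUA_D]
    rw [h2]
    exact h1

theorem DUA_comp {B : Set BFun} {n s : ℕ} {C : BF n} (h : Computes (dualB B) n s C) :
    Computes B n s (DUA_D C) := by
  obtain ⟨l, h1, h2, h3⟩ := h
  exact ⟨l.map DUA_D, DUA_gates h1, by rw [List.length_map]; exact h2, DUA_avail h3⟩

theorem DUA_pr_not {Ω : Type} [Fintype Ω] [Nonempty Ω] (p : Ω → Bool) :
    pr (fun x => !p x) = 1 - pr p := by
  classical
  have h0 : (0 : ℝ) < Fintype.card Ω := by exact_mod_cast Fintype.card_pos
  have h1 : (Finset.univ.filter fun x => p x = true).card +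
      (Finset.univ.filter fun x => (!p x) = true).card = Fintype.card Ω := by
    have h2 := Finset.card_filter_add_card_filter_not (s := (Finset.univ : Finset Ω))
      (fun x => p x = true)
    rw [Finset.card_univ] at h2
    rw [← h2]
    congr 2
    ext x
    simp
  have h3 : ((Finset.univ.filter fun x => p x = true).card : ℝ) +
      (Finset.univ.filter fun x => (!p x) = true).card = Fintype.card Ω := by exact_mod_cast h1
  unfold pr
  rw [eq_sub_iff_add_eq, ← add_div, div_eq_one_iff_eq h0.ne', add_comm]
  exact h3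

theorem DUA_pr_flip {n : ℕ} (C : BF n) : pr (fun x : Fin n → Bool => C (fun i => !x i)) = pr C := by
  classical
  unfold pr
  congr 2
  refine Finset.card_bij' (fun x _ => fun i => !x i) (fun x _ => fun i => !x i) ?_ ?_ ?_ ?_
  · intro x hx
    rw [Finset.mem_filter] at hx ⊢
    exact ⟨Finset.mem_univ _, hx.2⟩
  · intro x hx
    rw [Finset.mem_filter] at hx ⊢
    refine ⟨Finset.mem_univ _, ?_⟩
    simpa using hx.2
  · intro x _
    simp
  · intro x _
    simp

theorem t_DUA : S_DUA := by
  intro B ε h
  obtain ⟨d, G, hd, hG, c, m₀, h⟩ := h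
  refine ⟨d, fun m s => (G m s).map (fun b => !b), hd, ?_, c, m₀, fun m hm => ?_⟩
  · have h1 := hG.toPoly
    refine PTime.of_poly ?_
    exact NPC.Poly.map h1 (NPC.Poly.not (NPC.Poly.snd NPC.Poly.id))
  · obtain ⟨h1, h2, h3, h4⟩ := h m hm
    refine ⟨h1, h2, fun s hs => by rw [List.length_map, h3 s hs], fun C hC => ?_⟩
    have h5 := h4 (DUA_D C) (DUA_comp hC)
    have e1 : pr (DUA_D C) = 1 - pr C := by
      have := DUA_pr_not (fun x : Fin m → Bool => C (fun i => !x i))
      rw [DUA_pr_flip] at this
      exact this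
    have e2 : pr (fun s : Fin (d m) → Bool => DUA_D C (vec m (G m (List.ofFn s)))) =
        1 - pr (fun s : Fin (d m) → Bool =>
          C (vec m ((G m (List.ofFn s)).map (fun b => !b)))) := by
      rw [← DUA_pr_not]
      congr 1
      funext s
      unfold DUA_D
      congr 2
      funext i
      unfold vec
      have hl : (G m (List.ofFn s)).length = m := h3 _ (by rw [List.length_ofFn])
      have hi : (i : ℕ) < (G m (List.ofFn s)).length := by rw [hl]; exact i.2
      rw [List.getD_eq_getElem _ _ hi, List.getD_eq_getElem _ _ (by rw [List.length_map]; exact hi),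
        List.getElem_map]
    rw [e1, e2] at h5
    rw [abs_sub_comm] at h5
    have e3 : ∀ a b : ℝ, 1 - a - (1 - b) = b - a := fun a b => by ring
    rw [e3] at h5
    exact h5

end Pool.Agent.H547R7
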