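import Pool.Agent.H547R7.Stm2

/-!
# The explicit generator against the easy circuits
-/

set_option autoImplicit false

namespace Pool.Agent.H547R7

open Pool.Agent.H547R6 Pool.Agent.NPC Pool.Agent.H424R2.PPAD

section poly

variable {α : Type} [TEnc α]

private theorem EAS_par {n : α → ℕ} (hn : UPoly n) {f : α → ℕ → Bool}
    (hf : NPC.Poly (fun p : α × ℕ => f p.1 p.2)) : NPC.Poly (fun a => par (n a) (f a)) := by
  have h1 : NPC.Poly (fun a => ((List.range (n a)).filter (f a)).length) :=
    NPC.Poly.length (NPC.Poly.filter (p := f) hn.range hf)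
  refine (NPC.Poly.decide_eq (NPC.Poly.mod h1 (NPC.Poly.const 2)) (NPC.Poly.const 1)).congr
    fun a => ?_
  rw [par, List.countP_eq_length_filter]

private theorem EAS_conv {n : α → ℕ} (hn : UPoly n) {x y : α → List Bool} (hx : NPC.Poly x)
    (hy : NPC.Poly y) : NPC.Poly (fun a => conv (n a) (x a) (y a)) := by
  have hfst : NPC.Poly (fun p : α × ℕ => p.1) := NPC.Poly.fst NPC.Poly.id
  have hsnd : NPC.Poly (fun p : α × ℕ => p.2) := NPC.Poly.snd NPC.Poly.id
  have hfst2 : NPC.Poly (fun p : (α × ℕ) × ℕ => p.1.1) := NPC.Poly.fst (NPC.Poly.fst NPC.Poly.id)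
  have hsnd2 : NPC.Poly (fun p : (α × ℕ) × ℕ => p.1.2) := NPC.Poly.snd (NPC.Poly.fst NPC.Poly.id)
  have hs : NPC.Poly (fun p : (α × ℕ) × ℕ => p.2) := NPC.Poly.snd NPC.Poly.id
  have hn2 : NPC.Poly (fun p : (α × ℕ) × ℕ => n p.1.1) := (hn.comp hfst2).toPoly
  have hin : NPC.Poly (fun p : (α × ℕ) × ℕ => (x p.1.1).getD p.2 false &&
      (y p.1.1).getD ((p.1.2 + n p.1.1 - p.2) % n p.1.1) false) :=
    NPC.Poly.and (NPC.Poly.getD (hx.comp hfst2) hs (NPC.Poly.const false))
      (NPC.Poly.getD (hy.comp hfst2)
        (NPC.Poly.mod (NPC.Poly.sub (NPC.Poly.add hsnd2 hn2) hs) hn2) (NPC.Poly.const false))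
  have hp : NPC.Poly (fun p : α × ℕ => par (n p.1) (fun i => (x p.1).getD i false &&
      (y p.1).getD ((p.2 + n p.1 - i) % n p.1) false)) :=
    EAS_par (f := fun (p : α × ℕ) (i : ℕ) => (x p.1).getD i false &&
      (y p.1).getD ((p.2 + n p.1 - i) % n p.1) false) (hn.comp hfst) hin
  exact NPC.Poly.map (γ := Bool) hn.range (F := fun (a : α) (k : ℕ) =>
    par (n a) fun i => (x a).getD i false && (y a).getD ((k + n a - i) % n a) false) hp

/-- powers, computed by a fold over `range m` -/
private def EAS_pw (n : ℕ) (w : List Bool) (m i : ℕ) : List Bool :=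
  (List.range m).foldl (fun b k => if k < i then conv n w b else b)
    ((List.range n).map fun k => decide (k = 0))

private theorem EAS_pw_eq (n : ℕ) (w : List Bool) (i : ℕ) : ∀ m, i ≤ m →
    EAS_pw n w m i = pw n w i := by
  have key : ∀ m, EAS_pw n w m i = pw n w (min m i) := by
    intro m
    induction m with
    | zero => simp [EAS_pw, pw]
    | succ m ih =>
      unfold EAS_pw at ih ⊢
      rw [List.range_succ, List.foldl_append, ih]
      simp only [List.foldl_cons, List.foldl_nil]
      by_cases h : m < i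
      · rw [if_pos h]
        have e1 : min m i = m := by omega
        have e2 : min (m + 1) i = m + 1 := by omega
        rw [e1, e2, pw]
      · rw [if_neg h]
        have e1 : min m i = i := by omega
        have e2 : min (m + 1) i = i := by omega
        rw [e1, e2]
  intro m hm
  rw [key, min_eq_right hm]

private theorem EAS_conv_length (n : ℕ) (a b : List Bool) : (conv n a b).length = n := by
  simp [conv]

private theorem EAS_fold_length (n i : ℕ) (w : List Bool) : ∀ (L : List ℕ) (b : List Bool),
    b.length = n → (L.foldl (fun b k => if k < i then conv n w b else b) b).length = n := by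
  intro L
  induction L with
  | nil => intro b hb; simpa using hb
  | cons k L ih =>
    intro b hb
    rw [List.foldl_cons]
    apply ih
    split_ifs
    · exact EAS_conv_length _ _ _
    · exact hb

private theorem EAS_pwPoly {n m : α → ℕ} (hn : UPoly n) (hm : UPoly m) {w : α → List Bool}
    (hw : NPC.Poly w) {i : α → ℕ} (hi : NPC.Poly i) :
    NPC.Poly (fun a => EAS_pw (n a) (w a) (m a) (i a)) := by
  obtain ⟨r, hr⟩ := NPC.Poly.sz_le hn
  have hunit : NPC.Poly (fun a => (List.range (n a)).map fun k => decide (k = 0)) :=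
    NPC.Poly.map (γ := Bool) hn.range (F := fun (_ : α) (k : ℕ) => decide (k = 0))
      (NPC.Poly.decide_eq (NPC.Poly.snd NPC.Poly.id) (NPC.Poly.const 0))
  have hf1 : NPC.Poly (fun p : α × List Bool × ℕ => p.1) := NPC.Poly.fst NPC.Poly.id
  have hf2 : NPC.Poly (fun p : α × List Bool × ℕ => p.2.1) :=
    NPC.Poly.fst (NPC.Poly.snd NPC.Poly.id)
  have hf3 : NPC.Poly (fun p : α × List Bool × ℕ => p.2.2) :=
    NPC.Poly.snd (NPC.Poly.snd NPC.Poly.id)
  have hstep : NPC.Poly (fun p : α × List Bool × ℕ =>
      if p.2.2 < i p.1 then conv (n p.1) (w p.1) p.2.1 else p.2.1) :=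
    NPC.Poly.ite (NPC.Poly.decide_lt hf3 (hi.comp hf1))
      (EAS_conv (hn.comp hf1) (hw.comp hf1) hf2) hf2
  refine NPC.Poly.foldl (β := ℕ) (σ := List Bool) (l := fun a => List.range (m a))
    (s := fun a => (List.range (n a)).map fun k => decide (k = 0))
    (F := fun a b k => if k < i a then conv (n a) (w a) b else b) hm.range hunit hstep
    (Polynomial.C 4 * r + Polynomial.C 1) ?_
  intro a k _
  have h1 := EAS_fold_length (n a) (i a) (w a) ((List.range (m a)).take k)
    ((List.range (n a)).map fun k => decide (k = 0)) (by simp)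
  have h2 := sz_listBool_le (((List.range (m a)).take k).foldl
    (fun b k => if k < i a then conv (n a) (w a) b else b)
    ((List.range (n a)).map fun k => decide (k = 0)))
  rw [h1] at h2
  have h3 := hr a
  have h4 := length_lt_sz (List.replicate (n a) ())
  rw [List.length_replicate] at h4
  simp only [Polynomial.eval_add, Polynomial.eval_mul, Polynomial.eval_C]
  omega

/-- one bit of the small-bias generator -/
private def EAS_sb (n : ℕ) (w : List Bool) (m i : ℕ) : Bool :=
  par n fun j => w.getD (n + j) false && (EAS_pw n w m i).getD j false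

private theorem EAS_sb_eq (n : ℕ) (w : List Bool) (m i : ℕ) (h : i ≤ m) :
    EAS_sb n w m i = sbit n w i := by
  rw [EAS_sb, sbit, EAS_pw_eq n w i m h]

private theorem EAS_sbPoly {n m : α → ℕ} (hn : UPoly n) (hm : UPoly m) {w : α → List Bool}
    (hw : NPC.Poly w) {i : α → ℕ} (hi : NPC.Poly i) :
    NPC.Poly (fun a => EAS_sb (n a) (w a) (m a) (i a)) := by
  have hf1 : NPC.Poly (fun p : α × ℕ => p.1) := NPC.Poly.fst NPC.Poly.id
  have hf2 : NPC.Poly (fun p : α × ℕ => p.2) := NPC.Poly.snd NPC.Poly.id
  exact EAS_par (f := fun (a : α) (j : ℕ) => (w a).getD (n a + j) false &&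
      (EAS_pw (n a) (w a) (m a) (i a)).getD j false) hn
    (NPC.Poly.and
      (NPC.Poly.getD (hw.comp hf1) (NPC.Poly.add (hn.toPoly.comp hf1) hf2) (NPC.Poly.const false))
      (NPC.Poly.getD ((EAS_pwPoly hn hm hw hi).comp hf1) hf2 (NPC.Poly.const false)))

end poly

/-- a power of three between `L` and `3 L` -/
private def EAS_X (m : ℕ) : ℕ :=
  (fun x => if x < m.bits.length + 1 then 3 * x else x)^[m.bits.length + 1] 1

private theorem EAS_X_spec (m : ℕ) : (∃ l, EAS_X m = 3 ^ l) ∧ m.bits.length + 1 ≤ EAS_X m ∧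
    EAS_X m ≤ 3 * (m.bits.length + 1) := by
  set L := m.bits.length + 1 with hL
  have key : ∀ k : ℕ, (∃ l, (fun x => if x < L then 3 * x else x)^[k] 1 = 3 ^ l) ∧
      (L ≤ (fun x => if x < L then 3 * x else x)^[k] 1 ∨
        k + 1 ≤ (fun x => if x < L then 3 * x else x)^[k] 1) ∧
      (fun x => if x < L then 3 * x else x)^[k] 1 ≤ 3 * L := by
    intro k
    induction k with
    | zero => exact ⟨⟨0, by simp⟩, Or.inr (by simp), by simp; omega⟩
    | succ k ih =>
      obtain ⟨⟨l, h1⟩, h2, h3⟩ := ih
      rw [Function.iterate_succ_apply']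
      set x := (fun x => if x < L then 3 * x else x)^[k] 1 with hx
      by_cases h : x < L
      · simp only [if_pos h]
        refine ⟨⟨l + 1, by rw [h1, pow_succ]; ring⟩, ?_, by omega⟩
        right
        omega
      · simp only [if_neg h]
        exact ⟨⟨l, h1⟩, Or.inl (by omega), h3⟩
  obtain ⟨h1, h2, h3⟩ := key L
  refine ⟨h1, ?_, h3⟩
  rcases h2 with h2 | h2
  · exact h2
  · exact le_trans (Nat.le_succ L) h2

private theorem EAS_X_poly : UPoly (fun u : List Bool => EAS_X u.length) := by
  have hb : NPC.Poly (fun u : List Bool => true :: u.length.bits) :=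
    NPC.Poly.cons (NPC.Poly.const true) (NPC.Poly.natBits (NPC.Poly.length NPC.Poly.id))
  have hlen : NPC.Poly (fun u : List Bool => (true :: u.length.bits).length) :=
    NPC.Poly.length hb
  have hbl : ∀ m : ℕ, m.bits.length ≤ m := by
    intro m
    rw [Nat.size_eq_bits_len]
    exact NPC.Poly.size_le_self m
  have hP : NPC.Poly (fun u : List Bool => EAS_X u.length) := by
    have hstep : NPC.Poly (fun p : List Bool × ℕ =>
        if p.2 < (true :: p.1.length.bits).length then 3 * p.2 else p.2) :=
      NPC.Poly.ite (NPC.Poly.decide_lt (NPC.Poly.snd NPC.Poly.id)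
        (hlen.comp (NPC.Poly.fst NPC.Poly.id)))
        (NPC.Poly.mul (NPC.Poly.const 3) (NPC.Poly.snd NPC.Poly.id))
        (NPC.Poly.snd NPC.Poly.id)
    refine (NPC.Poly.iterLen (β := Bool) (σ := ℕ) (l := fun u : List Bool =>
      true :: u.length.bits) (s := fun _ => 1)
      (F := fun u x => if x < (true :: u.length.bits).length then 3 * x else x) hb
      (NPC.Poly.const 1) hstep (Polynomial.C 12 * Polynomial.X + Polynomial.C 13)
      ?_).congr fun u => ?_
    · intro u k _
      have key : ∀ k : ℕ, (fun x => if x < (true :: u.length.bits).length then 3 * x else x)^[k] 1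
          ≤ 3 * (u.length + 1) := by
        intro k
        induction k with
        | zero => simp; omega
        | succ k ih =>
          rw [Function.iterate_succ_apply']
          have h1 := hbl u.length
          simp only [List.length_cons]
          simp only [List.length_cons] at ih
          split_ifs with h
          · omega
          · exact ih
      have h1 := sz_nat_le ((fun x => if x < (true :: u.length.bits).length then
        3 * x else x)^[k] 1)
      have h2 := NPC.Poly.size_le_self ((fun x => if x < (true :: u.length.bits).length then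
        3 * x else x)^[k] 1)
      have h3 := key k
      have h4 := length_lt_sz u
      simp only [Polynomial.eval_add, Polynomial.eval_mul, Polynomial.eval_C, Polynomial.eval_X]
      omega
    · simp only [EAS_X, List.length_cons]
  have hU : UPoly (fun u : List Bool => 3 * (u.length + 1)) :=
    UPoly.mul (UPoly.const 3) (UPoly.add (UPoly.length NPC.Poly.id) (UPoly.const 1))
  refine UPoly.of_le hP hU ?_
  intro u
  have h1 := (EAS_X_spec u.length).2.2
  have h2 := hbl u.length
  omega

private theorem EAS_sq (L : ℕ) (hL : 4 ≤ L) : L * L ≤ 2 ^ L := by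
  induction L, hL using Nat.le_induction with
  | base => norm_num
  | succ k hk ih =>
    rw [pow_succ]
    nlinarith

private theorem EAS_log (K m : ℕ) (hm : 2 ^ (K + 4) ≤ m) : K * Nat.log 2 m < m := by
  have hm0 : m ≠ 0 := by
    have : 0 < 2 ^ (K + 4) := by positivity
    omega
  have h1 : K + 4 ≤ Nat.log 2 m := Nat.le_log_of_pow_le (by norm_num) hm
  have h2 : 2 ^ Nat.log 2 m ≤ m := Nat.pow_log_le_self 2 hm0
  have h3 := EAS_sq (Nat.log 2 m) (by omega)
  have h4 : K * Nat.log 2 m < Nat.log 2 m * Nat.log 2 m :=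
    Nat.mul_lt_mul_of_pos_right (by omega) (by omega)
  omega

private theorem EAS_pr_equiv {Ω Ω' : Type} [Fintype Ω] [Fintype Ω'] (e : Ω ≃ Ω')
    (p : Ω' → Bool) : pr (fun w => p (e w)) = pr p := by
  unfold pr
  rw [Fintype.card_congr e]
  congr 2
  apply Finset.card_bij (fun w _ => e w)
  · intro w hw
    simpa using hw
  · intro w _ w' _ h
    exact e.injective h
  · intro w hw
    exact ⟨e.symm w, by simpa using hw, by simp⟩

/-- the first `2 n` bits of the seed -/
private def EAS_tr (n : ℕ) (s : List Bool) : List Bool :=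
  (List.range (2 * n)).map fun i => s.getD i false

/-- the generator -/
private def EAS_gen (n m : ℕ) (s : List Bool) : List Bool :=
  (List.range m).map fun i => xor (EAS_sb n (EAS_tr n s) m i) (s.getD (2 * n) false)

private theorem EAS_tr_eq (n : ℕ) (a : Fin (2 * n) → Bool) (b : Fin 1 → Bool) :
    EAS_tr n (List.ofFn (Fin.append a b)) = List.ofFn a := by
  apply List.ext_getElem
  · simp [EAS_tr]
  · intro i hi1 hi2
    have hi : i < 2 * n := by simpa using hi2
    simp only [EAS_tr, List.getElem_map, List.getElem_range, List.getElem_ofFn]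
    rw [List.getD_eq_getElem _ _ (by simp; omega), List.getElem_ofFn]
    exact Fin.append_left a b ⟨i, hi⟩

private theorem EAS_last (n : ℕ) (a : Fin (2 * n) → Bool) (b : Fin 1 → Bool) :
    (List.ofFn (Fin.append a b)).getD (2 * n) false = b 0 := by
  rw [List.getD_eq_getElem _ _ (by simp), List.getElem_ofFn]
  exact Fin.append_right a b 0

private theorem EAS_match (n m : ℕ) (C : BF m) :
    pr (fun t : Fin (2 * n + 1) → Bool => C (vec m (EAS_gen n m (List.ofFn t)))) =
    pr (fun w : (Fin (2 * n) → Bool) × Bool =>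
      C (fun i => xor (sbit n (List.ofFn w.1) i) w.2)) := by
  rw [← EAS_pr_equiv (Fin.appendEquiv (2 * n) 1),
    ← EAS_pr_equiv (Equiv.prodCongr (Equiv.refl (Fin (2 * n) → Bool))
      (Equiv.funUnique (Fin 1) Bool))]
  congr 1
  funext w
  congr 1
  funext i
  change (EAS_gen n m (List.ofFn (Fin.append w.1 w.2))).getD i false = _
  rw [EAS_gen, EAS_tr_eq, EAS_last, List.getD_eq_getElem _ _ (by simp)]
  simp only [List.getElem_map, List.getElem_range]
  rw [EAS_sb_eq n _ m i i.2.le]
  rfl

/-- EAS: the explicit generator against the easy circuits -/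
theorem t_EAS (h1 : S_ALG) (h2 : S_FOO) : S_EAS := by
  have hN : UPoly (fun u : List Bool => 3 * EAS_X u.length) :=
    UPoly.mul (UPoly.const 3) EAS_X_poly
  have hbits : ∀ m : ℕ, 2 ≤ m → m.bits.length = Nat.log 2 m + 1 := by
    intro m hm
    rw [Nat.size_eq_bits_len]
    apply le_antisymm
    · rw [Nat.size_le]
      exact Nat.lt_pow_succ_log_self (by norm_num) m
    · rw [Nat.succ_le_iff, Nat.lt_size]
      exact Nat.pow_log_le_self 2 (by omega)
  refine ⟨fun m => 2 * (3 * EAS_X m) + 1, fun m s => EAS_gen (3 * EAS_X m) m s, ?_, ?_,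
    55, 2 ^ (55 + 4), ?_⟩
  · exact PTime.of_poly (NPC.Poly.add (NPC.Poly.mul (NPC.Poly.const 2) hN.toPoly)
      (NPC.Poly.const 1))
  · apply PTime.of_poly
    have hf : NPC.Poly (fun p : List Bool × List Bool => p.1) := NPC.Poly.fst NPC.Poly.id
    have hs : NPC.Poly (fun p : List Bool × List Bool => p.2) := NPC.Poly.snd NPC.Poly.id
    have hn : UPoly (fun p : List Bool × List Bool => 3 * EAS_X p.1.length) := hN.comp hf
    have hn2 : UPoly (fun p : List Bool × List Bool => 2 * (3 * EAS_X p.1.length)) :=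
      UPoly.mul (UPoly.const 2) hn
    have hm : UPoly (fun p : List Bool × List Bool => p.1.length) := UPoly.length hf
    have htr : NPC.Poly (fun p : List Bool × List Bool =>
        EAS_tr (3 * EAS_X p.1.length) p.2) :=
      NPC.Poly.map (γ := Bool) hn2.range
        (F := fun (p : List Bool × List Bool) (i : ℕ) => p.2.getD i false)
        (NPC.Poly.getD (NPC.Poly.snd (NPC.Poly.fst NPC.Poly.id)) (NPC.Poly.snd NPC.Poly.id)
          (NPC.Poly.const false))
    have hp1 : NPC.Poly (fun q : (List Bool × List Bool) × ℕ => q.1) :=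
      NPC.Poly.fst NPC.Poly.id
    have hp2 : NPC.Poly (fun q : (List Bool × List Bool) × ℕ => q.2) :=
      NPC.Poly.snd NPC.Poly.id
    exact NPC.Poly.map (γ := Bool) hm.range
      (F := fun (p : List Bool × List Bool) (i : ℕ) =>
        xor (EAS_sb (3 * EAS_X p.1.length) (EAS_tr (3 * EAS_X p.1.length) p.2) p.1.length i)
          (p.2.getD (2 * (3 * EAS_X p.1.length)) false))
      (NPC.Poly.xor
        (EAS_sbPoly (hn.comp hp1) (hm.comp hp1) (htr.comp hp1) hp2)
        (NPC.Poly.getD (hs.comp hp1) (hn2.toPoly.comp hp1) (NPC.Poly.const false)))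
  · intro m hm
    have hm2 : 2 ≤ m := by
      have : 2 ≤ 2 ^ (55 + 4) := by norm_num
      omega
    have hlog1 : 1 ≤ Nat.log 2 m := Nat.le_log_of_pow_le (by norm_num) (by simpa using hm2)
    obtain ⟨⟨l, hl⟩, hX1, hX2⟩ := EAS_X_spec m
    rw [hbits m hm2] at hX1 hX2
    have hd : 2 * (3 * EAS_X m) + 1 ≤ 55 * Nat.log 2 m := by omega
    refine ⟨hd, lt_of_le_of_lt hd (EAS_log 55 m hm), ?_, ?_⟩
    · intro s _
      simp [EAS_gen]
    · rintro C ⟨B, s, hB, hC⟩
      have hm0 : (0 : ℝ) < m := by exact_mod_cast (by omega : 0 < m)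
      have hn3 : 3 * EAS_X m = 3 ^ (l + 1) := by rw [hl, pow_succ]; ring
      rw [EAS_match]
      have hbias : (m : ℝ) / 2 ^ (2 * 3 ^ l) ≤ 1 / (2 * m) := by
        rw [div_le_div_iff₀ (by positivity) (by positivity)]
        have e1 : m < 2 ^ (Nat.log 2 m + 1) := Nat.lt_pow_succ_log_self (by norm_num) m
        have e2 : 2 * m ≤ 2 ^ (3 ^ l) := by
          calc 2 * m ≤ 2 * 2 ^ (Nat.log 2 m + 1) := by omega
            _ = 2 ^ (Nat.log 2 m + 1 + 1) := by rw [pow_succ 2 (Nat.log 2 m + 1)]; ring
            _ ≤ 2 ^ (3 ^ l) := Nat.pow_le_pow_right (by norm_num) (by rw [← hl]; omega)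
        have e3 : (2 * (m : ℝ)) ≤ 2 ^ (3 ^ l) := by exact_mod_cast e2
        have e4 : (2 : ℝ) ^ (2 * 3 ^ l) = 2 ^ (3 ^ l) * 2 ^ (3 ^ l) := by
          rw [two_mul, pow_add]
        rw [e4]
        have e5 : (2 * (m : ℝ)) * (2 * m) ≤ 2 ^ (3 ^ l) * 2 ^ (3 ^ l) :=
          mul_le_mul e3 e3 (by positivity) (by positivity)
        nlinarith
      have hfoo := h2 (Fin (2 * (3 * EAS_X m)) → Bool) m
        (fun w i => sbit (3 * EAS_X m) (List.ofFn w) i) (1 / (2 * m)) (by positivity) (by
          intro T hT
          have h3 := h1 l m (T.map Fin.valEmbedding) (hT.map) (by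
            intro i hi
            rw [Finset.mem_map] at hi
            obtain ⟨j, _, rfl⟩ := hi
            rw [Finset.mem_range]
            exact j.2)
          rw [hn3]
          refine le_trans (le_of_eq ?_) (h3.trans hbias)
          congr 2
          congr 1
          funext w
          rw [Finset.filter_map, Finset.card_map]
          rfl) B s C hB hC
      calc _ ≤ 2 * (1 / (2 * (m : ℝ))) := hfoo
        _ = 1 / m := by field_simp

end Pool.Agent.H547R7
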