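import Pool.Agent.H547R7.Stm

/-! Task EXP: sum of the probabilities of the slice functions. -/

set_option autoImplicit false

namespace Pool.Agent.H547R7

open Pool.Agent.H547R6 Pool.Agent.NPC Pool.Agent.H424R2.PPAD

theorem EXP_pr {Ω : Type} [Fintype Ω] (p : Ω → Bool) :
    pr p = (∑ x, if p x = true then (1 : ℝ) else 0) / (Fintype.card Ω : ℝ) := by
  unfold pr
  rw [Finset.sum_boole]

theorem EXP_wt_le {n : ℕ} (x : Fin n → Bool) : wt x ≤ n := by
  unfold wt
  refine (Finset.card_le_univ _).trans ?_
  rw [Fintype.card_fin]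

theorem EXP_wt_not {n : ℕ} (x : Fin n → Bool) : wt x + wt (fun i => !x i) = n := by
  unfold wt
  have h : (Finset.univ.filter fun i => (!x i) = true) =
      Finset.univ.filter fun i => ¬ x i = true := by
    ext i
    simp
  rw [h, Finset.card_filter_add_card_filter_not, Finset.card_univ, Fintype.card_fin]

theorem EXP_sum_wt (n : ℕ) : (∑ x : Fin n → Bool, (wt x : ℝ)) = n / 2 * 2 ^ n := by
  have h1 : (∑ x : Fin n → Bool, (wt (fun i => !x i) : ℝ)) = ∑ x : Fin n → Bool, (wt x : ℝ) := by
    refine Fintype.sum_equiv (Equiv.piCongrRight fun _ => Equiv.boolNot) _ _ ?_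
    intro x
    rfl
  have h2 : (∑ x : Fin n → Bool, ((wt x : ℝ) + (wt (fun i => !x i) : ℝ))) = n * 2 ^ n := by
    have h3 : ∀ x : Fin n → Bool, ((wt x : ℝ) + (wt (fun i => !x i) : ℝ)) = n := by
      intro x
      exact_mod_cast EXP_wt_not x
    rw [Finset.sum_congr rfl fun x _ => h3 x, Finset.sum_const, Finset.card_univ,
      Fintype.card_fun, Fintype.card_fin, Fintype.card_bool, nsmul_eq_mul]
    push_cast
    ring
  rw [Finset.sum_add_distrib, h1] at h2
  linarith

theorem EXP_slice (n : ℕ) (C : BF n) (x : Fin n → Bool) :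
    (∑ k ∈ Finset.range (n + 1), if slice n k C x = true then (1 : ℝ) else 0) =
      wt x + if C x = true then (1 : ℝ) else 0 := by
  have hw := EXP_wt_le x
  have h1 : ∀ k ∈ Finset.range (n + 1), (if slice n k C x = true then (1 : ℝ) else 0) =
      (if k < wt x then (1 : ℝ) else 0) +
        (if k = wt x then (if C x = true then (1 : ℝ) else 0) else 0) := by
    intro k _
    unfold slice
    rcases lt_trichotomy k (wt x) with h | h | h
    · simp [h, h.ne]
    · subst h
      simp
    · have h2 : ¬ k < wt x := by omega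
      have h3 : ¬ wt x = k := by omega
      have h4 : ¬ k = wt x := by omega
      simp [h2, h3, h4]
  rw [Finset.sum_congr rfl h1, Finset.sum_add_distrib, Finset.sum_ite_eq', if_pos
    (Finset.mem_range.2 (by omega))]
  congr 1
  rw [Finset.sum_boole]
  have h5 : (Finset.range (n + 1)).filter (fun k => k < wt x) = Finset.range (wt x) := by
    ext k
    simp only [Finset.mem_filter, Finset.mem_range]
    omega
  rw [h5, Finset.card_range]

theorem t_EXP : S_EXP := by
  intro n C
  have hc : ((Fintype.card (Fin n → Bool) : ℕ) : ℝ) = 2 ^ n := by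
    rw [Fintype.card_fun, Fintype.card_fin, Fintype.card_bool]
    push_cast
    rfl
  have h1 : ∀ k ∈ Finset.range (n + 1), pr (slice n k C) =
      (∑ x : Fin n → Bool, if slice n k C x = true then (1 : ℝ) else 0) / 2 ^ n := by
    intro k _
    rw [EXP_pr, hc]
  rw [Finset.sum_congr rfl h1, ← Finset.sum_div, Finset.sum_comm,
    Finset.sum_congr rfl fun x _ => EXP_slice n C x, Finset.sum_add_distrib, EXP_sum_wt,
    EXP_pr, hc]
  field_simp

end Pool.Agent.H547R7
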