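import Pool.Agent.H547R7.Stm

/-!
# FOO: small bias distributions fool the easy circuits
-/

set_option autoImplicit false

namespace Pool.Agent.H547R7

open Pool.Agent.H547R6

namespace FOO

theorem gates_prop {B : Set BFun} {n : ℕ} (P : BF n → Prop) (hvar : ∀ i, P fun x => x i)
    (hgate : ∀ (k : ℕ) (f : (Fin k → Bool) → Bool) (g : Fin k → BF n), (⟨k, f⟩ : BFun) ∈ B →
      (∀ j, P (g j)) → P (fun x => f fun j => g j x)) {l : List (BF n)} (hl : Gates B n l) :
    ∀ f, Avail l f → P f := by
  induction hl with
  | nil =>
    rintro f (hf | ⟨i, rfl⟩)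
    · simp at hf
    · exact hvar i
  | gate l k f g hf hg hl ih =>
    rintro h (hh | ⟨i, rfl⟩)
    · rcases List.mem_cons.1 hh with rfl | hh
      · exact hgate k f g hf fun j => ih _ (hg j)
      · exact ih _ (Or.inl hh)
    · exact hvar i

theorem comp_prop {B : Set BFun} {n s : ℕ} (P : BF n → Prop) (hvar : ∀ i, P fun x => x i)
    (hgate : ∀ (k : ℕ) (f : (Fin k → Bool) → Bool) (g : Fin k → BF n), (⟨k, f⟩ : BFun) ∈ B →
      (∀ j, P (g j)) → P (fun x => f fun j => g j x)) {C : BF n} (hC : Computes B n s C) : P C := by
  obtain ⟨l, hl, -, hav⟩ := hC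
  exact gates_prop P hvar hgate hl C hav

section pr

variable {Ω Ω' : Type} [Fintype Ω] [Fintype Ω']

theorem pr_eq (p : Ω → Bool) :
    pr p = (∑ w, if p w = true then (1:ℝ) else 0) / Fintype.card Ω := by
  unfold pr
  rw [Finset.sum_boole]

theorem pr_not [Nonempty Ω] (p : Ω → Bool) : pr (fun w => !p w) = 1 - pr p := by
  rw [pr_eq, pr_eq, eq_sub_iff_add_eq, ← add_div, ← Finset.sum_add_distrib]
  have h : ∀ w, ((if (!p w) = true then (1:ℝ) else 0) + if p w = true then 1 else 0) = 1 := by
    intro w
    cases p w <;> simp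
  have hc : (Fintype.card Ω : ℝ) ≠ 0 := by
    exact_mod_cast Fintype.card_ne_zero
  rw [Finset.sum_congr rfl fun w _ => h w, Finset.sum_const, Finset.card_univ, nsmul_eq_mul,
    mul_one, div_self hc]

theorem pr_equiv (e : Ω ≃ Ω') (p : Ω' → Bool) : pr (fun w => p (e w)) = pr p := by
  rw [pr_eq, pr_eq, Fintype.card_congr e,
    Equiv.sum_comp e (fun w => if p w = true then (1:ℝ) else 0)]

theorem pr_prod (p : Ω × Bool → Bool) :
    pr p = (pr (fun w => p (w, false)) + pr (fun w => p (w, true))) / 2 := by
  rw [pr_eq, pr_eq, pr_eq, Fintype.sum_prod_type, Fintype.card_prod, Fintype.card_bool]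
  simp only [Fintype.sum_bool]
  rw [Finset.sum_add_distrib]
  push_cast
  ring

theorem pr_xor [Nonempty Ω] (p : Ω → Bool) (c : Bool) :
    |pr (fun w => xor c (p w)) - 1 / 2| = |pr p - 1 / 2| := by
  cases c
  · simp only [Bool.false_xor]
  · simp only [Bool.true_xor]
    rw [pr_not, ← abs_neg]
    congr 1
    ring

end pr

/-- parity of `x` on `S` -/
def pty {n : ℕ} (S : Finset (Fin n)) (x : Fin n → Bool) : Bool :=
  decide ((S.filter fun i => x i = true).card % 2 = 1)

theorem chi_eq {n : ℕ} (S : Finset (Fin n)) (x : Fin n → Bool) :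
    ∏ i ∈ S, (if x i = true then (-1:ℝ) else 1) = 1 - 2 * (if pty S x = true then 1 else 0) := by
  rw [Finset.prod_ite, Finset.prod_const, Finset.prod_const_one, mul_one]
  unfold pty
  rcases Nat.even_or_odd' (S.filter fun i => x i = true).card with ⟨m, hm | hm⟩
  · rw [hm, pow_mul]
    simp
  · rw [hm, pow_succ, pow_mul]
    have : (2 * m + 1) % 2 = 1 := by omega
    simp [this]
    norm_num

/-- the parity of the uniform distribution is unbiased -/
theorem pty_unif {n : ℕ} (T : Finset (Fin n)) (hT : T.Nonempty) :
    pr (fun x : Fin n → Bool => pty T x) = 1 / 2 := by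
  obtain ⟨a, ha⟩ := hT
  let e : (Fin n → Bool) ≃ (Fin n → Bool) :=
    { toFun := fun x i => if i = a then !x i else x i
      invFun := fun x i => if i = a then !x i else x i
      left_inv := by
        intro x
        funext i
        by_cases h : i = a <;> simp [h]
      right_inv := by
        intro x
        funext i
        by_cases h : i = a <;> simp [h] }
  have h1 : ∀ x, pty T (e x) = !pty T x := by
    intro x
    have h2 := chi_eq T (e x)
    have h3 := chi_eq T x
    have h4 : ∏ i ∈ T, (if e x i = true then (-1:ℝ) else 1) =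
        -∏ i ∈ T, (if x i = true then (-1:ℝ) else 1) := by
      rw [← Finset.mul_prod_erase T _ ha, ← Finset.mul_prod_erase T _ ha]
      have h5 : ∏ i ∈ T.erase a, (if e x i = true then (-1:ℝ) else 1) =
          ∏ i ∈ T.erase a, (if x i = true then (-1:ℝ) else 1) := by
        refine Finset.prod_congr rfl fun i hi => ?_
        have : e x i = x i := if_neg (Finset.ne_of_mem_erase hi)
        rw [this]
      have h6 : e x a = !x a := if_pos rfl
      rw [h5, h6]
      cases x a <;> simp
    rw [h2, h3] at h4
    cases h7 : pty T (e x) <;> cases h8 : pty T x <;> simp [h7, h8] at h4 ⊢ <;> norm_num at h4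
  have h2 := pr_equiv e (fun x => pty T x)
  simp only [h1] at h2
  rw [pr_not] at h2
  linarith

variable {Ω : Type} [Fintype Ω] [Nonempty Ω] {n : ℕ}

theorem chi_bias (D : Ω → Fin n → Bool) {β : ℝ} (S : Finset (Fin n))
    (h : |pr (fun w => pty S (D w)) - 1 / 2| ≤ β) :
    |(∑ w, ∏ i ∈ S, (if D w i = true then (-1:ℝ) else 1)) / Fintype.card Ω| ≤ 2 * β := by
  have hc : (Fintype.card Ω : ℝ) ≠ 0 := by
    exact_mod_cast Fintype.card_ne_zero
  have h1 : (∑ w, ∏ i ∈ S, (if D w i = true then (-1:ℝ) else 1)) / Fintype.card Ω =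
      1 - 2 * pr (fun w => pty S (D w)) := by
    rw [pr_eq]
    simp only [chi_eq]
    rw [Finset.sum_sub_distrib, ← Finset.mul_sum, Finset.sum_const, Finset.card_univ,
      nsmul_eq_mul, mul_one, sub_div, div_self hc]
    ring
  rw [h1]
  rw [abs_le] at h ⊢
  constructor <;> linarith [h.1, h.2]

theorem conj_pr (D : Ω → Fin n → Bool) {β : ℝ} (hβ : 0 ≤ β)
    (h : ∀ T : Finset (Fin n), T.Nonempty → |pr (fun w => pty T (D w)) - 1 / 2| ≤ β)
    (T : Finset (Fin n)) (σ : Bool) :
    |pr (fun w => decide (∀ i ∈ T, xor (D w i) σ = true)) - (1 / 2 : ℝ) ^ T.card| ≤ 2 * β := by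
  have hc : (Fintype.card Ω : ℝ) ≠ 0 := by
    exact_mod_cast Fintype.card_ne_zero
  obtain ⟨s, hs1, hs⟩ : ∃ s : ℝ, |s| = 1 ∧ ∀ b : Bool,
      (1 + s * (if b = true then (-1:ℝ) else 1)) / 2 = if xor b σ = true then 1 else 0 := by
    cases σ
    · refine ⟨-1, by simp, fun b => ?_⟩
      cases b <;> simp
    · refine ⟨1, by simp, fun b => ?_⟩
      cases b <;> simp
  have h1 : ∀ w, (if decide (∀ i ∈ T, xor (D w i) σ = true) = true then (1:ℝ) else 0) =
      (1 / 2) ^ T.card * ∑ S ∈ T.powerset, s ^ S.card *
        ∏ i ∈ S, (if D w i = true then (-1:ℝ) else 1) := by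
    intro w
    have h2 : ∏ i ∈ T, ((1 + s * (if D w i = true then (-1:ℝ) else 1)) / 2) =
        (1 / 2) ^ T.card * ∑ S ∈ T.powerset, s ^ S.card *
        ∏ i ∈ S, (if D w i = true then (-1:ℝ) else 1) := by
      rw [Finset.prod_div_distrib, Finset.prod_const, one_div, inv_pow, div_eq_inv_mul]
      congr 1
      rw [Finset.prod_one_add]
      refine Finset.sum_congr rfl fun S _ => ?_
      rw [Finset.prod_mul_distrib, Finset.prod_const]
    rw [← h2, Finset.prod_congr rfl fun i _ => hs (D w i), Finset.prod_boole]
    simp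
  have h2 : pr (fun w => decide (∀ i ∈ T, xor (D w i) σ = true)) =
      (1 / 2) ^ T.card * ∑ S ∈ T.powerset, s ^ S.card *
        ((∑ w, ∏ i ∈ S, (if D w i = true then (-1:ℝ) else 1)) / Fintype.card Ω) := by
    rw [pr_eq, Finset.sum_congr rfl fun w _ => h1 w, ← Finset.mul_sum, Finset.sum_comm, mul_div_assoc,
      Finset.sum_div]
    congr 1
    refine Finset.sum_congr rfl fun S _ => ?_
    rw [← Finset.mul_sum, mul_div_assoc]
  have hmem : (∅ : Finset (Fin n)) ∈ T.powerset := Finset.empty_mem_powerset T
  rw [h2, ← Finset.add_sum_erase _ _ hmem]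
  have h3 : s ^ (∅ : Finset (Fin n)).card *
      ((∑ w : Ω, ∏ i ∈ (∅ : Finset (Fin n)), (if D w i = true then (-1:ℝ) else 1)) /
        Fintype.card Ω) = 1 := by
    simp [hc]
  rw [h3, mul_add, mul_one, add_sub_cancel_left, abs_mul]
  have h4 : |∑ S ∈ T.powerset.erase ∅, s ^ S.card *
        ((∑ w, ∏ i ∈ S, (if D w i = true then (-1:ℝ) else 1)) / Fintype.card Ω)| ≤
      2 ^ T.card * (2 * β) := by
    refine (Finset.abs_sum_le_sum_abs _ _).trans ?_
    have h5 : ∀ S ∈ T.powerset.erase ∅, |s ^ S.card *
        ((∑ w, ∏ i ∈ S, (if D w i = true then (-1:ℝ) else 1)) / Fintype.card Ω)| ≤ 2 * β := by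
      intro S hS
      rw [abs_mul, abs_pow, hs1, one_pow, one_mul]
      exact chi_bias D S (h S (Finset.nonempty_iff_ne_empty.2 (Finset.ne_of_mem_erase hS)))
    refine (Finset.sum_le_sum h5).trans ?_
    rw [Finset.sum_const, nsmul_eq_mul]
    refine mul_le_mul_of_nonneg_right ?_ (by linarith)
    have h6 : (T.powerset.erase ∅).card ≤ 2 ^ T.card := by
      refine (Finset.card_le_card (Finset.erase_subset _ _)).trans ?_
      rw [Finset.card_powerset]
    exact_mod_cast h6
  have h5 : |(1 / 2 : ℝ) ^ T.card| = (1 / 2 : ℝ) ^ T.card := abs_of_nonneg (by positivity)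
  rw [h5]
  refine (mul_le_mul_of_nonneg_left h4 (by positivity)).trans (le_of_eq ?_)
  rw [← mul_assoc, ← mul_pow]
  norm_num

theorem aff_form (C : BF n)
    (hC : ∀ x y z : Fin n → Bool, C (fun i => xor (x i) (xor (y i) (z i))) =
      xor (C x) (xor (C y) (C z))) :
    ∃ (T : Finset (Fin n)) (c : Bool), ∀ x, C x = xor c (pty T x) := by
  classical
  refine ⟨Finset.univ.filter fun i => C (fun j => decide (j = i)) ≠ C (fun _ => false),
    C (fun _ => false), ?_⟩
  set T := Finset.univ.filter fun i => C (fun j => decide (j = i)) ≠ C (fun _ => false) with hT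
  have key : ∀ S : Finset (Fin n), C (fun j => decide (j ∈ S)) =
      xor (C (fun _ => false)) (pty T (fun j => decide (j ∈ S))) := by
    intro S
    induction S using Finset.induction_on with
    | empty => simp [pty]
    | insert a S ha ih =>
      have h1 : (fun j => decide (j ∈ insert a S)) =
          fun j : Fin n => xor (decide (j ∈ S)) (xor (decide (j = a)) false) := by
        funext j
        by_cases h2 : j = a
        · subst h2
          simp [ha]
        · simp [h2]
      have h3 : pty T (fun j => decide (j ∈ insert a S)) =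
          xor (pty T (fun j => decide (j ∈ S))) (decide (a ∈ T)) := by
        unfold pty
        simp only [decide_eq_true_eq]
        by_cases haT : a ∈ T
        · have h4 : (T.filter fun i => i ∈ insert a S) = insert a (T.filter fun i => i ∈ S) := by
            ext i
            simp only [Finset.mem_filter, Finset.mem_insert]
            constructor
            · rintro ⟨h5, h6 | h6⟩
              · exact Or.inl h6
              · exact Or.inr ⟨h5, h6⟩
            · rintro (h5 | ⟨h5, h6⟩)
              · exact ⟨h5 ▸ haT, Or.inl h5⟩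
              · exact ⟨h5, Or.inr h6⟩
          rw [h4, Finset.card_insert_of_notMem (by simp [ha])]
          simp only [haT, decide_true, Bool.xor_true]
          rcases Nat.mod_two_eq_zero_or_one (T.filter fun i => i ∈ S).card with h5 | h5
          · have h6 : ((T.filter fun i => i ∈ S).card + 1) % 2 = 1 := by omega
            simp [h5, h6]
          · have h6 : ((T.filter fun i => i ∈ S).card + 1) % 2 = 0 := by omega
            simp [h5, h6]
        · have h4 : (T.filter fun i => i ∈ insert a S) = (T.filter fun i => i ∈ S) := by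
            ext i
            simp only [Finset.mem_filter, Finset.mem_insert]
            constructor
            · rintro ⟨h5, h6 | h6⟩
              · exact absurd (h6 ▸ h5) haT
              · exact ⟨h5, h6⟩
            · rintro ⟨h5, h6⟩
              exact ⟨h5, Or.inr h6⟩
          rw [h4]
          simp [haT]
      rw [h3, h1, hC, ih]
      have h7 : decide (a ∈ T) = xor (C (fun j => decide (j = a))) (C (fun _ => false)) := by
        rw [hT]
        simp only [Finset.mem_filter, Finset.mem_univ, true_and]
        cases C (fun j => decide (j = a)) <;> cases C (fun _ => false) <;> rfl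
      rw [h7]
      cases C (fun j => decide (j = a)) <;> cases C (fun _ => false) <;>
        cases pty T (fun j => decide (j ∈ S)) <;> rfl
  intro x
  have h := key (Finset.univ.filter fun i => x i = true)
  have h2 : (fun j => decide (j ∈ Finset.univ.filter fun i => x i = true)) = x := by
    funext j
    simp
  rwa [h2] at h

theorem conj_form (C : BF n)
    (hC : ∀ x y : Fin n → Bool, C (fun i => x i && y i) = (C x && C y)) :
    (∀ x, C x = false) ∨ ∃ T : Finset (Fin n), ∀ x, C x = decide (∀ i ∈ T, x i = true) := by
  classical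
  rcases h1 : C (fun _ => true) with _ | _
  · left
    intro x
    have := hC x (fun _ => true)
    simp only [Bool.and_true] at this
    rw [this, h1, Bool.and_false]
  · right
    refine ⟨Finset.univ.filter fun i => C (fun j => !decide (j = i)) = false, ?_⟩
    set T := Finset.univ.filter fun i => C (fun j => !decide (j = i)) = false with hT
    have key : ∀ S : Finset (Fin n), C (fun j => !decide (j ∈ S)) =
        decide (∀ i ∈ T, i ∉ S) := by
      intro S
      induction S using Finset.induction_on with
      | empty => simp [h1]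
      | insert a S ha ih =>
        have h2 : (fun j => !decide (j ∈ insert a S)) =
            fun j : Fin n => (!decide (j ∈ S)) && (!decide (j = a)) := by
          funext j
          by_cases h3 : j = a
          · subst h3
            simp
          · simp [h3]
        rw [h2, hC, ih]
        rcases h4 : C (fun j => !decide (j = a)) with _ | _
        · rw [Bool.and_false]
          symm
          rw [decide_eq_false_iff_not]
          intro h5
          exact h5 a (by simp [hT, h4]) (Finset.mem_insert_self a S)
        · rw [Bool.and_true]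
          rw [decide_eq_decide]
          refine forall_congr' fun i => forall_congr' fun hi => ?_
          rw [Finset.mem_insert, not_or]
          have h5 : i ≠ a := by
            rintro rfl
            have := (Finset.mem_filter.1 hi).2
            rw [h4] at this
            exact absurd this (by simp)
          simp [h5]
    intro x
    have h := key (Finset.univ.filter fun i => x i = false)
    have h2 : (fun j => !decide (j ∈ Finset.univ.filter fun i => x i = false)) = x := by
      funext j
      simp
    rw [h2] at h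
    rw [h]
    simp

theorem pr_const (b : Bool) : pr (fun _ : Ω => b) = if b = true then 1 else 0 := by
  have hc : (Fintype.card Ω : ℝ) ≠ 0 := by
    exact_mod_cast Fintype.card_ne_zero
  rw [pr_eq]
  cases b <;> simp [hc]

theorem fool_const (D : Ω → Fin n → Bool) {β : ℝ} (hβ : 0 ≤ β) (C : BF n) (b : Bool)
    (hC : ∀ x, C x = b) :
    |pr (fun w : Ω × Bool => C (fun i => xor (D w.1 i) w.2)) - pr C| ≤ 2 * β := by
  have h1 : C = fun _ => b := funext hC
  rw [h1, pr_const, pr_const, sub_self, abs_zero]
  linarith

theorem fool_conj (D : Ω → Fin n → Bool) {β : ℝ} (hβ : 0 ≤ β)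
    (h : ∀ T : Finset (Fin n), T.Nonempty → |pr (fun w => pty T (D w)) - 1 / 2| ≤ β)
    (C : BF n) (hC : ∀ x y : Fin n → Bool, C (fun i => x i && y i) = (C x && C y)) :
    |pr (fun w : Ω × Bool => C (fun i => xor (D w.1 i) w.2)) - pr C| ≤ 2 * β := by
  rcases conj_form C hC with h0 | ⟨T, hT⟩
  · exact fool_const D hβ C false h0
  · have hu : pr C = (1 / 2 : ℝ) ^ T.card := by
      have h1 := conj_pr (Ω := Fin n → Bool) (n := n) (fun x => x) (β := 0) le_rfl (by
        intro T hT
        rw [pty_unif T hT]
        simp) T false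
      simp only [Bool.xor_false, mul_zero] at h1
      have h2 := abs_nonpos_iff.1 h1
      have h3 : C = fun x => decide (∀ i ∈ T, x i = true) := funext hT
      rw [h3]
      linarith
    have hD : ∀ σ, |pr (fun w => C (fun i => xor (D w i) σ)) - (1 / 2 : ℝ) ^ T.card| ≤ 2 * β := by
      intro σ
      simp only [hT]
      exact conj_pr D hβ h T σ
    rw [pr_prod, hu]
    have h1 := hD false
    have h2 := hD true
    rw [abs_le] at h1 h2 ⊢
    constructor <;> linarith [h1.1, h1.2, h2.1, h2.2]

theorem fool_disj (D : Ω → Fin n → Bool) {β : ℝ} (hβ : 0 ≤ β)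
    (h : ∀ T : Finset (Fin n), T.Nonempty → |pr (fun w => pty T (D w)) - 1 / 2| ≤ β)
    (C : BF n) (hC : ∀ x y : Fin n → Bool, C (fun i => x i || y i) = (C x || C y)) :
    |pr (fun w : Ω × Bool => C (fun i => xor (D w.1 i) w.2)) - pr C| ≤ 2 * β := by
  have h1 := fool_conj D hβ h (fun x => !C (fun i => !x i)) (by
    intro x y
    have := hC (fun i => !x i) (fun i => !y i)
    have h2 : (fun i => !(x i && y i)) = fun i => (!x i) || (!y i) := by
      funext i
      rw [Bool.not_and]
    show (!C fun i => !(x i && y i)) = _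
    rw [h2, this, Bool.not_or])
  have h2 : pr (fun w : Ω × Bool => !C (fun i => !xor (D w.1 i) w.2)) =
      1 - pr (fun w : Ω × Bool => C (fun i => xor (D w.1 i) w.2)) := by
    rw [pr_not (fun w : Ω × Bool => C (fun i => !xor (D w.1 i) w.2)), pr_prod, pr_prod]
    simp only [Bool.xor_false, Bool.xor_true, Bool.not_not]
    ring
  have h3 : pr (fun x : Fin n → Bool => !C (fun i => !x i)) = 1 - pr C := by
    rw [pr_not (fun x : Fin n → Bool => C (fun i => !x i))]
    let e : (Fin n → Bool) ≃ (Fin n → Bool) :=
      { toFun := fun x i => !x i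
        invFun := fun x i => !x i
        left_inv := by intro x; simp
        right_inv := by intro x; simp }
    have := pr_equiv e C
    rw [← this]
    rfl
  rw [h3] at h1
  have h4 : pr (fun w : Ω × Bool => C (fun i => xor (D w.1 i) w.2)) - pr C =
      -(pr (fun w : Ω × Bool => !C (fun i => !xor (D w.1 i) w.2)) - (1 - pr C)) := by
    rw [h2]; ring
  rw [h4, abs_neg]
  exact h1

theorem fool_dual (D : Ω → Fin n → Bool) {β : ℝ} (hβ : 0 ≤ β)
    (C : BF n) (hC : ∀ x : Fin n → Bool, C (fun i => !x i) = !C x) :
    |pr (fun w : Ω × Bool => C (fun i => xor (D w.1 i) w.2)) - pr C| ≤ 2 * β := by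
  have h1 : pr C = 1 / 2 := by
    let e : (Fin n → Bool) ≃ (Fin n → Bool) :=
      { toFun := fun x i => !x i
        invFun := fun x i => !x i
        left_inv := by intro x; simp
        right_inv := by intro x; simp }
    have h2 := pr_equiv e C
    have h3 : (fun w => C (e w)) = fun w => !C w := funext fun w => hC w
    rw [h3, pr_not] at h2
    linarith
  have h2 : pr (fun w : Ω × Bool => C (fun i => xor (D w.1 i) w.2)) = 1 / 2 := by
    rw [pr_prod]
    simp only [Bool.xor_false, Bool.xor_true]
    have h3 : (fun w => C fun i => !D w i) = fun w => !C (D w) := funext fun w => hC (D w)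
    rw [h3, pr_not]
    ring
  rw [h1, h2, sub_self, abs_zero]
  linarith

theorem fool_aff (D : Ω → Fin n → Bool) {β : ℝ} (hβ : 0 ≤ β)
    (h : ∀ T : Finset (Fin n), T.Nonempty → |pr (fun w => pty T (D w)) - 1 / 2| ≤ β)
    (C : BF n) (hC : ∀ x y z : Fin n → Bool, C (fun i => xor (x i) (xor (y i) (z i))) =
      xor (C x) (xor (C y) (C z))) :
    |pr (fun w : Ω × Bool => C (fun i => xor (D w.1 i) w.2)) - pr C| ≤ 2 * β := by
  obtain ⟨T, c, hT⟩ := aff_form C hC
  rcases T.eq_empty_or_nonempty with rfl | hne
  · exact fool_const D hβ C c (fun x => by rw [hT]; simp [pty])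
  · have hu : pr C = 1 / 2 := by
      have h1 : C = fun x => xor c (pty T x) := funext hT
      have h2 := pr_xor (fun x : Fin n → Bool => pty T x) c
      rw [pty_unif T hne, sub_self, abs_zero, abs_eq_zero] at h2
      rw [h1]
      linarith
    -- shift by `b`
    have hs : ∀ b : Bool, ∃ c' : Bool, ∀ x : Fin n → Bool,
        C (fun i => xor (x i) b) = xor c' (pty T x) := by
      intro b
      refine ⟨xor c (xor (C (fun _ => b)) (C (fun _ => false))), fun x => ?_⟩
      have h1 := hC x (fun _ => b) (fun _ => false)
      simp only [Bool.xor_false] at h1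
      rw [h1, hT x]
      cases c <;> cases pty T x <;> cases C (fun _ => b) <;> cases C (fun _ => false) <;> rfl
    have hD : ∀ b : Bool, |pr (fun w => C (fun i => xor (D w i) b)) - 1 / 2| ≤ β := by
      intro b
      obtain ⟨c', hc'⟩ := hs b
      simp only [hc']
      rw [pr_xor]
      exact h T hne
    rw [pr_prod, hu]
    have h1 := hD false
    have h2 := hD true
    rw [abs_le] at h1 h2 ⊢
    constructor <;> linarith [h1.1, h1.2, h2.1, h2.2]

end FOO

open FOO in
theorem t_FOO : S_FOO := by
  intro Ω _ _ n D β hβ h B s C hB hC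
  rcases hB with hB | hB | hB | hB
  · refine fool_aff D hβ h C (comp_prop (fun C => ∀ x y z : Fin n → Bool,
      C (fun i => xor (x i) (xor (y i) (z i))) = xor (C x) (xor (C y) (C z))) ?_ ?_ hC)
    · intro i x y z
      rfl
    · intro k f g hf hg x y z
      have h1 := hB hf (fun j => g j x) (fun j => g j y) (fun j => g j z)
      simp only [hg]
      exact h1
  · refine fool_conj D hβ h C (comp_prop (fun C => ∀ x y : Fin n → Bool,
      C (fun i => x i && y i) = (C x && C y)) ?_ ?_ hC)
    · intro i x y
      rfl
    · intro k f g hf hg x y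
      have h1 := hB hf (fun j => g j x) (fun j => g j y)
      simp only [hg]
      exact h1
  · refine fool_disj D hβ h C (comp_prop (fun C => ∀ x y : Fin n → Bool,
      C (fun i => x i || y i) = (C x || C y)) ?_ ?_ hC)
    · intro i x y
      rfl
    · intro k f g hf hg x y
      have h1 := hB hf (fun j => g j x) (fun j => g j y)
      simp only [hg]
      exact h1
  · refine fool_dual D hβ C (comp_prop (fun C => ∀ x : Fin n → Bool,
      C (fun i => !x i) = !C x) ?_ ?_ hC)
    · intro i x
      rfl
    · intro k f g hf hg x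
      have h1 := hB hf (fun j => g j x)
      simp only [hg]
      exact h1

end Pool.Agent.H547R7
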