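import Pool.Agent.H547R7.Stm2

/-!
# Monotone circuits are simulated over `B` under `x₀ ∧`
-/

set_option autoImplicit false

namespace Pool.Agent.H547R7

open Pool.Agent.H547R6 Pool.Agent.NPC Pool.Agent.H424R2.PPAD

private theorem GAD_avail_append {n : ℕ} (l' l : List (BF n)) (f : BF n) (h : Avail l f) :
    Avail (l' ++ l) f := by
  rcases h with h | h
  · exact Or.inl (List.mem_append_right _ h)
  · exact Or.inr h

private theorem GAD_subst {B : Set BFun} {k : ℕ} {g : (Fin k → Bool) → Bool}
    (hg : Gen B (Fin k) g) : ∃ c : ℕ, ∀ (n : ℕ) (l : List (BF n)), Gates B n l →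
      ∀ a : Fin k → BF n, (∀ j, Avail l (a j)) →
      ∃ l', Gates B n (l' ++ l) ∧ l'.length ≤ c ∧ Avail (l' ++ l) (fun x => g fun j => a j x) := by
  induction hg with
  | var i =>
    refine ⟨0, fun n l hl a ha => ⟨[], by simpa using hl, by simp, ?_⟩⟩
    simpa using ha i
  | app k' f hf h hh ih =>
    choose c hc using ih
    refine ⟨(∑ j, c j) + 1, fun n l hl a ha => ?_⟩
    have key : ∀ s : Finset (Fin k'), ∃ l', Gates B n (l' ++ l) ∧ l'.length ≤ ∑ j ∈ s, c j ∧
        ∀ j ∈ s, Avail (l' ++ l) (fun x => h j fun i => a i x) := by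
      intro s
      induction s using Finset.induction_on with
      | empty => exact ⟨[], by simpa using hl, by simp, by simp⟩
      | insert j s hj ihs =>
        obtain ⟨l1, h1, h2, h3⟩ := ihs
        obtain ⟨l2, h4, h5, h6⟩ := hc j n (l1 ++ l) h1 a
          (fun i => GAD_avail_append _ _ _ (ha i))
        refine ⟨l2 ++ l1, by rw [List.append_assoc]; exact h4, ?_, ?_⟩
        · rw [List.length_append, Finset.sum_insert hj]
          omega
        · intro i hi
          rw [List.append_assoc]
          rcases Finset.mem_insert.1 hi with rfl | hi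
          · exact h6
          · exact GAD_avail_append _ _ _ (h3 i hi)
    obtain ⟨l1, h1, h2, h3⟩ := key Finset.univ
    refine ⟨(fun x => f fun j => h j fun i => a i x) :: l1, ?_, ?_, ?_⟩
    · exact Gates.gate (l1 ++ l) k' f (fun j x => h j fun i => a i x) hf
        (fun j => h3 j (Finset.mem_univ j)) h1
    · rw [List.length_cons]; omega
    · exact Or.inl List.mem_cons_self

/-- GAD: monotone circuits are simulated under `x₀ ∧` -/
theorem t_GAD : S_GAD := by
  intro B hB
  obtain ⟨c, hc⟩ := GAD_subst hB
  refine ⟨c, ?_⟩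
  have main : ∀ (n : ℕ) (l : List (BF n)), Gates MB n l →
      ∃ L, Gates B (n + 1) L ∧ L.length ≤ c * l.length ∧ ∀ f, Avail l f →
        ∃ F, Avail L F ∧ ∀ x, x 0 = true → F x = f (fun i => x i.succ) := by
    intro n l hl
    induction hl with
    | nil =>
      refine ⟨[], Gates.nil, by simp, ?_⟩
      rintro f (hf | ⟨i, rfl⟩)
      · simp at hf
      · exact ⟨fun x => x i.succ, Or.inr ⟨i.succ, rfl⟩, fun x _ => rfl⟩
    | gate l k f g hf hg hl ih =>
      obtain ⟨L, hL1, hL2, hL3⟩ := ih
      have x0 : Avail L (fun x : Fin (n + 1) → Bool => x 0) := Or.inr ⟨0, rfl⟩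
      have fin : ∀ (F : BF (n + 1)) (L' : List (BF (n + 1))), Gates B (n + 1) (L' ++ L) →
          L'.length ≤ c → Avail (L' ++ L) F →
          (∀ x, x 0 = true → F x = f fun j => g j (fun i => x i.succ)) →
          ∃ L, Gates B (n + 1) L ∧ L.length ≤ c * (((fun x => f fun j => g j x) :: l).length) ∧
            ∀ f', Avail ((fun x => f fun j => g j x) :: l) f' →
            ∃ F, Avail L F ∧ ∀ x, x 0 = true → F x = f' (fun i => x i.succ) := by
        intro F L' h1 h2 h3 h4
        refine ⟨L' ++ L, h1, ?_, ?_⟩
        · rw [List.length_append, List.length_cons]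
          nlinarith
        · rintro f' (hf' | hf')
          · rcases List.mem_cons.1 hf' with rfl | hf'
            · exact ⟨F, h3, h4⟩
            · obtain ⟨F', h5, h6⟩ := hL3 f' (Or.inl hf')
              exact ⟨F', GAD_avail_append _ _ _ h5, h6⟩
          · obtain ⟨F', h5, h6⟩ := hL3 f' (Or.inr hf')
            exact ⟨F', GAD_avail_append _ _ _ h5, h6⟩
      rcases hf with hf | hf
      · obtain ⟨rfl, hf⟩ := Sigma.mk.inj hf
        have hf := eq_of_heq hf
        subst hf
        obtain ⟨F0, h01, h02⟩ := hL3 _ (hg 0)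
        obtain ⟨F1, h11, h12⟩ := hL3 _ (hg 1)
        obtain ⟨L', h1, h2, h3⟩ := hc (n + 1) L hL1 ![F0, F1, F1] (by
          intro j
          fin_cases j
          · exact h01
          · exact h11
          · exact h11)
        refine fin _ L' h1 h2 h3 ?_
        intro x hx
        have e0 := h02 x hx
        have e1 := h12 x hx
        simp only [Matrix.cons_val_zero, Matrix.cons_val_one, Matrix.cons_val_two,
          Matrix.head_cons, Matrix.tail_cons, Matrix.cons_val]
        rw [e0, e1, Bool.or_self]
      · have hf := Set.mem_singleton_iff.1 hf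
        obtain ⟨rfl, hf⟩ := Sigma.mk.inj hf
        have hf := eq_of_heq hf
        subst hf
        obtain ⟨F0, h01, h02⟩ := hL3 _ (hg 0)
        obtain ⟨F1, h11, h12⟩ := hL3 _ (hg 1)
        obtain ⟨L', h1, h2, h3⟩ := hc (n + 1) L hL1 ![fun x => x 0, F0, F1] (by
          intro j
          fin_cases j
          · exact x0
          · exact h01
          · exact h11)
        refine fin _ L' h1 h2 h3 ?_
        intro x hx
        have e0 := h02 x hx
        have e1 := h12 x hx
        simp only [Matrix.cons_val_zero, Matrix.cons_val_one, Matrix.cons_val_two,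
          Matrix.head_cons, Matrix.tail_cons, Matrix.cons_val]
        rw [e0, e1, hx, Bool.true_and]
  intro n s f ⟨l, hl, hls, hf⟩
  obtain ⟨L, hL1, hL2, hL3⟩ := main n l hl
  obtain ⟨F, h1, h2⟩ := hL3 f hf
  have x0 : Avail L (fun x : Fin (n + 1) → Bool => x 0) := Or.inr ⟨0, rfl⟩
  obtain ⟨L', h3, h4, h5⟩ := hc (n + 1) L hL1 ![fun x => x 0, F, F] (by
    intro j
    fin_cases j
    · exact x0
    · exact h1
    · exact h1)
  refine ⟨L' ++ L, h3, ?_, ?_⟩
  · rw [List.length_append]
    have : c * l.length ≤ c * s := Nat.mul_le_mul_left c hls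
    rw [Nat.mul_succ]
    omega
  · have e : (fun x : Fin (n + 1) → Bool => x 0 && f (fun i => x i.succ)) =
        (fun x => (fun x : Fin 3 → Bool => (fun a b c => a && (b || c)) (x 0) (x 1) (x 2))
          fun j => (![fun x => x 0, F, F] : Fin 3 → BF (n + 1)) j x) := by
      funext x
      simp only [Matrix.cons_val_zero, Matrix.cons_val_one, Matrix.cons_val_two,
        Matrix.head_cons, Matrix.tail_cons, Matrix.cons_val]
      rw [Bool.or_self]
      cases hx : x 0
      · rfl
      · rw [h2 x hx]
    rw [e]
    exact h5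

end Pool.Agent.H547R7
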