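import Pool.Agent.H547R7.Stm2

/-!
# Task L0: generators against larger circuits
-/

set_option autoImplicit false

namespace Pool.Agent.H547R7

open Pool.Agent.H547R6 Pool.Agent.NPC Pool.Agent.H424R2.PPAD

/-- renaming the inputs -/
def L0_ren {n N : ℕ} (h : n ≤ N) (f : BF n) : BF N := fun y => f (fun i => y (Fin.castLE h i))

theorem L0_avail {n N : ℕ} (h : n ≤ N) {l : List (BF n)} {f : BF n} (hf : Avail l f) :
    Avail (l.map (L0_ren h)) (L0_ren h f) := by
  rcases hf with hf | ⟨i, rfl⟩
  · exact Or.inl (List.mem_map_of_mem hf)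
  · exact Or.inr ⟨Fin.castLE h i, rfl⟩

theorem L0_aon {n N : ℕ} (h : n ≤ N) {s : ℕ} {l : List (BF n)} (hl : AON n s l) :
    AON N s (l.map (L0_ren h)) := by
  induction hl with
  | nil => exact AON.nil
  | not s l a _ ha ih => exact AON.not s _ _ ih (L0_avail h ha)
  | and s l a b _ ha hb ih => exact AON.and s _ _ _ ih (L0_avail h ha) (L0_avail h hb)
  | or s l a b _ ha hb ih => exact AON.or s _ _ _ ih (L0_avail h ha) (L0_avail h hb)

theorem L0_comp {n N s : ℕ} (h : n ≤ N) {C : BF n} (hC : Comp0 n s C) :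
    Comp0 N s (L0_ren h C) := by
  obtain ⟨l, s', h1, h2, h3⟩ := hC
  exact ⟨_, s', L0_aon h h1, h2, L0_avail h h3⟩

theorem L0_sq (L : ℕ) (hL : 4 ≤ L) : L ^ 2 ≤ 2 ^ L := by
  induction L, hL using Nat.le_induction with
  | base => norm_num
  | succ L hL ih =>
    rw [pow_succ 2 L]
    nlinarith

/-- multiples of the logarithm are small -/
theorem L0_log (c : ℕ) : ∃ m₁ : ℕ, ∀ m, m₁ ≤ m → c * Nat.log 2 m < m := by
  refine ⟨2 ^ (c + 4), fun m hm => ?_⟩
  have h0 : m ≠ 0 := by
    rintro rfl
    have : 0 < 2 ^ (c + 4) := by positivity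
    omega
  have h1 : c + 4 ≤ Nat.log 2 m := Nat.le_log_of_pow_le (by norm_num) hm
  have h2 := L0_sq (Nat.log 2 m) (by omega)
  have h3 := Nat.pow_log_le_self 2 h0
  have h4 : c * Nat.log 2 m < Nat.log 2 m ^ 2 := by
    rw [sq]
    exact Nat.mul_lt_mul_of_pos_right (by omega) (by omega)
  omega

theorem L0_logpow (k m : ℕ) (hk : 1 ≤ k) (hm : 2 ≤ m) :
    Nat.log 2 (m ^ k) ≤ 2 * k * Nat.log 2 m := by
  have h1 : m < 2 ^ (Nat.log 2 m).succ := Nat.lt_pow_succ_log_self (by norm_num) m
  have h2 : m ^ k < (2 ^ (Nat.log 2 m).succ) ^ k := Nat.pow_lt_pow_left h1 (by omega)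
  rw [← pow_mul] at h2
  have h3 := Nat.log_lt_of_lt_pow (by positivity) h2
  have h4 : 1 ≤ Nat.log 2 m := Nat.le_log_of_pow_le (by norm_num) (by simpa using hm)
  have h5 : (Nat.log 2 m).succ * k ≤ 2 * k * Nat.log 2 m := by
    rw [Nat.succ_eq_add_one]
    nlinarith
  omega

theorem L0_upow (k : ℕ) : UPoly (fun u : List Bool => u.length ^ k) := by
  have h := (UPoly.length (Poly.id (α := List Bool))).eval (Polynomial.X ^ k)
  simpa using h

theorem L0_take {α : Type} (l : List α) (n : ℕ) :
    (l.zip (List.range n)).map Prod.fst = l.take n := by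
  apply List.ext_getElem
  · simp [min_comm]
  · intro i h1 h2
    simp

theorem t_L0 (h : S_PRJ) : S_L0 := by
  intro k ε hk hG
  obtain ⟨d, G, hd, hGp, c, m₀, hc⟩ := hG
  have hlen : Poly (fun u : List Bool => List.replicate (u.length ^ k) false) :=
    (NPC.Poly.map (show NPC.Poly (fun u : List Bool => List.replicate (u.length ^ k) ()) from
      L0_upow k) (F := fun _ _ => false) (NPC.Poly.const false)).congr fun a => by simp
  refine ⟨fun m => d (m ^ k), fun m s => (G (m ^ k) s).take m, ?_, ?_, ?_⟩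
  · apply PTime.of_poly
    exact (Poly.comp hd.toPoly hlen).congr fun a => by simp
  · apply PTime.of_poly
    have h1 : Poly (fun p : List Bool × List Bool => G (p.1.length ^ k) p.2) :=
      (Poly.comp hGp.toPoly (Poly.pair (hlen.comp (Poly.fst Poly.id)) (Poly.snd Poly.id))).congr
        fun a => by simp
    have h2 : Poly (fun p : List Bool × List Bool => List.range p.1.length) :=
      (UPoly.length (Poly.fst (Poly.id (α := List Bool × List Bool)))).range
    refine (NPC.Poly.map (Poly.zip h1 h2) (F := fun _ q => q.1) (Poly.fst (Poly.snd Poly.id))).congr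
      fun a => ?_
    exact L0_take _ _
  · obtain ⟨m₁, hm₁⟩ := L0_log (c * (2 * k))
    refine ⟨c * (2 * k), max m₀ (max m₁ 2), fun m hm => ?_⟩
    have hm0 : m₀ ≤ m := (le_max_left _ _).trans hm
    have hm1 : m₁ ≤ m := ((le_max_left _ _).trans (le_max_right _ _)).trans hm
    have hm2 : 2 ≤ m := ((le_max_right _ _).trans (le_max_right _ _)).trans hm
    have hmk : m ≤ m ^ k := Nat.le_self_pow (by omega) m
    obtain ⟨h1, h2, h3, h4⟩ := hc (m ^ k) (hm0.trans hmk)
    have h5 : d (m ^ k) ≤ c * (2 * k) * Nat.log 2 m := by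
      refine h1.trans ?_
      rw [mul_assoc]
      exact Nat.mul_le_mul_left c (L0_logpow k m hk hm2)
    refine ⟨h5, h5.trans_lt (hm₁ m hm1), ?_, ?_⟩
    · intro s hs
      rw [List.length_take, h3 s hs]
      exact min_eq_left hmk
    · intro C hC
      have hC' : L0_ren hmk C ∈ T0 1 (m ^ k) := by
        show Comp0 (m ^ k) ((m ^ k) ^ 1) (L0_ren hmk C)
        rw [pow_one]
        exact L0_comp hmk hC
      have h6 := h4 _ hC'
      have h7 : pr (L0_ren hmk C) = pr C := h.1 m (m ^ k) hmk C
      rw [h7] at h6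
      have h8 : ∀ s : Fin (d (m ^ k)) → Bool,
          L0_ren hmk C (vec (m ^ k) (G (m ^ k) (List.ofFn s))) =
            C (vec m ((G (m ^ k) (List.ofFn s)).take m)) := by
        intro s
        unfold L0_ren
        congr 1
        funext i
        simp only [vec, Fin.val_castLE, List.getD_eq_getElem?_getD, List.getElem?_take]
        rw [if_pos i.2]
      simp only [h8] at h6
      exact h6

end Pool.Agent.H547R7
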