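import Pool.Agent.H547R7.Stm2
import Pool.Agent.H547R2.Params

/-!
# The main step: analysis
-/

set_option autoImplicit false

namespace Pool.Agent.H547R7

open Pool.Agent.H547R6 Pool.Agent.NPC Pool.Agent.H424R2.PPAD

/-- bound for the size of the tests -/
def SZ (e n : ℕ) : ℕ :=
  2 * (rr e n * (4 * (n + 1) ^ 3 + 2 * n) + 2 * rr e n * (rr e n + 1)) + 1

theorem L1A_SZ_le (e n : ℕ) (he : 1 ≤ e) :
    SZ e n + 1 ≤ (24 * e ^ 3 + 24 * e ^ 6 + 2) * (n + 2) ^ 5 := by
  have hx : 1 ≤ n + 2 := by omega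
  have h1 : rr e n ≤ 2 * e ^ 3 * (n + 2) ^ 2 := by
    unfold rr
    exact Nat.mul_le_mul_left _ (Nat.pow_le_pow_left (by omega) 2)
  have h2 : 4 * (n + 1) ^ 3 + 2 * n ≤ 6 * (n + 2) ^ 3 := by
    have a1 : (n + 1) ^ 3 ≤ (n + 2) ^ 3 := Nat.pow_le_pow_left (by omega) 3
    have a2 : n + 2 ≤ (n + 2) ^ 3 := Nat.le_self_pow (by norm_num) _
    omega
  have h3 : 1 ≤ e ^ 3 * (n + 2) ^ 2 := Nat.one_le_iff_ne_zero.mpr (by positivity)
  have h4 : rr e n + 1 ≤ 3 * (e ^ 3 * (n + 2) ^ 2) := by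
    have : 2 * e ^ 3 * (n + 2) ^ 2 = 2 * (e ^ 3 * (n + 2) ^ 2) := by ring
    omega
  have h5 : rr e n * (4 * (n + 1) ^ 3 + 2 * n) ≤ 2 * e ^ 3 * (n + 2) ^ 2 * (6 * (n + 2) ^ 3) :=
    Nat.mul_le_mul h1 h2
  have h6 : rr e n * (rr e n + 1) ≤ 2 * e ^ 3 * (n + 2) ^ 2 * (3 * (e ^ 3 * (n + 2) ^ 2)) :=
    Nat.mul_le_mul h1 h4
  have h7 : (n + 2) ^ 4 ≤ (n + 2) ^ 5 := Nat.pow_le_pow_right hx (by norm_num)
  have h8 : 1 ≤ (n + 2) ^ 5 := Nat.one_le_pow _ _ hx
  have e1 : 2 * e ^ 3 * (n + 2) ^ 2 * (6 * (n + 2) ^ 3) = 12 * e ^ 3 * (n + 2) ^ 5 := by ring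
  have e2 : 2 * e ^ 3 * (n + 2) ^ 2 * (3 * (e ^ 3 * (n + 2) ^ 2)) = 6 * e ^ 6 * (n + 2) ^ 4 := by
    ring
  rw [e1] at h5
  rw [e2] at h6
  have h9 : 6 * e ^ 6 * (n + 2) ^ 4 ≤ 6 * e ^ 6 * (n + 2) ^ 5 := Nat.mul_le_mul_left _ h7
  have e3 : (24 * e ^ 3 + 24 * e ^ 6 + 2) * (n + 2) ^ 5 =
      2 * (12 * e ^ 3 * (n + 2) ^ 5) + 4 * (6 * e ^ 6 * (n + 2) ^ 5) + 2 * (n + 2) ^ 5 := by ring
  have e4 : SZ e n = 2 * (rr e n * (4 * (n + 1) ^ 3 + 2 * n)) + 4 * (rr e n * (rr e n + 1)) + 1 := by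
    unfold SZ
    ring
  rw [e3, e4]
  omega

theorem L1A_M (cB e m₀ : ℕ) (he : 1 ≤ e) : ∃ a : ℕ, ∀ n : ℕ,
    cB * (SZ e n + 1) + rr e n * n + 1 ≤ (n + 2) ^ a ∧ m₀ ≤ (n + 2) ^ a := by
  set K := cB * (24 * e ^ 3 + 24 * e ^ 6 + 2) + 2 * e ^ 3 + 1 + m₀ with hK
  refine ⟨K + 5, fun n => ?_⟩
  have h1 : K ≤ (n + 2) ^ K := (Nat.lt_two_pow_self).le.trans (Nat.pow_le_pow_left (by omega) K)
  have h2 : K * (n + 2) ^ 5 ≤ (n + 2) ^ (K + 5) := by
    rw [pow_add]
    exact Nat.mul_le_mul_right _ h1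
  have h8 : 1 ≤ (n + 2) ^ 5 := Nat.one_le_pow _ _ (by omega)
  have h3 : cB * (SZ e n + 1) ≤ cB * (24 * e ^ 3 + 24 * e ^ 6 + 2) * (n + 2) ^ 5 := by
    rw [mul_assoc]
    exact Nat.mul_le_mul_left _ (L1A_SZ_le e n he)
  have h4 : rr e n * n ≤ 2 * e ^ 3 * (n + 2) ^ 5 := by
    unfold rr
    rw [mul_assoc]
    refine Nat.mul_le_mul_left _ ?_
    calc (n + 1) ^ 2 * n ≤ (n + 2) ^ 2 * (n + 2) ^ 3 :=
          Nat.mul_le_mul (Nat.pow_le_pow_left (by omega) 2)
            ((by omega : n ≤ n + 2).trans (Nat.le_self_pow (by norm_num) _))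
      _ = (n + 2) ^ 5 := by ring
  have e1 : K * (n + 2) ^ 5 = cB * (24 * e ^ 3 + 24 * e ^ 6 + 2) * (n + 2) ^ 5 +
      2 * e ^ 3 * (n + 2) ^ 5 + (n + 2) ^ 5 + m₀ * (n + 2) ^ 5 := by
    rw [hK]
    ring
  have h5 : m₀ ≤ m₀ * (n + 2) ^ 5 := Nat.le_mul_of_pos_right _ (by omega)
  constructor
  · omega
  · omega

theorem L1A_e (ε : ℝ) (h1 : ε < 1 / 6) : ∃ e : ℕ, 8 ≤ e ∧ ε + 1 / (8 * e) ≤ 1 / 4 ∧
    5 / ((e : ℝ) - 2) + (ε + 1 / (8 * e)) / (1 / 2 - ε - 1 / (8 * e)) + 1 / e < 1 / 2 := by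
  have t1 : Filter.Tendsto (fun e : ℕ => 1 / (8 * (e : ℝ))) Filter.atTop (nhds 0) := by
    have := (tendsto_const_div_atTop_nhds_zero_nat (1 / 8 : ℝ))
    refine this.congr fun e => ?_
    rw [div_div]
  have t2 : Filter.Tendsto (fun e : ℕ => 1 / (e : ℝ)) Filter.atTop (nhds 0) :=
    tendsto_const_div_atTop_nhds_zero_nat 1
  have t3 : Filter.Tendsto (fun e : ℕ => 5 / ((e : ℝ) - 2)) Filter.atTop (nhds 0) := by
    refine Filter.Tendsto.const_div_atTop ?_ 5
    exact Filter.tendsto_atTop_add_const_right _ (-2) tendsto_natCast_atTop_atTop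
  have t4 : Filter.Tendsto (fun e : ℕ => 5 / ((e : ℝ) - 2) +
      (ε + 1 / (8 * e)) / (1 / 2 - ε - 1 / (8 * e)) + 1 / e) Filter.atTop
      (nhds (0 + (ε + 0) / (1 / 2 - ε - 0) + 0)) :=
    (t3.add ((t1.const_add ε).div (t1.const_sub (1 / 2 - ε)) (by linarith))).add t2
  have lim : 0 + (ε + 0) / (1 / 2 - ε - 0) + 0 < 1 / 2 := by
    rw [zero_add, add_zero, add_zero, sub_zero, div_lt_iff₀ (by linarith)]
    linarith
  have t5 : Filter.Tendsto (fun e : ℕ => ε + 1 / (8 * (e : ℝ))) Filter.atTop (nhds (ε + 0)) :=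
    t1.const_add ε
  have h2 := t4.eventually (gt_mem_nhds lim)
  have h3 := t5.eventually (gt_mem_nhds (show ε + 0 < 1 / 4 by linarith))
  obtain ⟨e, he1, he2, he3⟩ := (h2.and (h3.and (Filter.eventually_ge_atTop 8))).exists
  exact ⟨e, he3, he2.le, he1⟩

theorem L1A_rename {B : Set BFun} {n N : ℕ} (ρ : Fin n → Fin N) {l : List (BF n)}
    (h : Gates B n l) :
    Gates B N (l.map fun f y => f fun i => y (ρ i)) := by
  induction h with
  | nil => exact Gates.nil
  | gate l k f g hf hg _ ih =>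
    refine Gates.gate _ k f (fun j y => g j fun i => y (ρ i)) hf (fun j => ?_) ih
    rcases hg j with h | ⟨i, h⟩
    · left
      exact List.mem_map.mpr ⟨g j, h, rfl⟩
    · right
      exact ⟨ρ i, by funext y; rw [h]⟩

theorem L1A_renameC {B : Set BFun} {n N s s' : ℕ} (ρ : Fin n → Fin N) {f : BF n}
    (h : Computes B n s f) (hs : s ≤ s') : Computes B N s' (fun y => f fun i => y (ρ i)) := by
  obtain ⟨l, h1, h2, h3⟩ := h
  refine ⟨_, L1A_rename ρ h1, by rw [List.length_map]; omega, ?_⟩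
  rcases h3 with h | ⟨i, h⟩
  · left
    exact List.mem_map.mpr ⟨f, h, rfl⟩
  · right
    exact ⟨ρ i, by funext y; rw [h]⟩

theorem cp_map {α β : Type} (f : α → β) (l : List α) (p : β → Bool) :
    cp (l.map f) p = cp l (fun x => p (f x)) := by
  unfold cp
  rw [List.countP_map, List.length_map]
  rfl

theorem L1A_good (h1 : S_PRJ) (h2 : S_ALS) {B : Set BFun} {cB : ℕ}
    (hB : ∀ (n s : ℕ) (f : BF n), Computes MB n s f →
      Computes B (n + 1) (cB * (s + 1)) (fun x => x 0 && f (fun i => x i.succ)))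
    {ε : ℝ} (hε : 0 ≤ ε) {G : ℕ → List Bool → List Bool} {dM M e n : ℕ}
    (hM : cB * (SZ e n + 1) + rr e n * n + 1 ≤ M)
    (hG : ∀ C ∈ TB B M,
      |pr (fun s : Fin dM → Bool => C (vec M (G M (List.ofFn s)))) - pr C| ≤ ε)
    {T : BF (rr e n * n)} (hT : MC (rr e n * n) (SZ e n) T) :
    Good e n ((allS dM).map (G M)) ε T := by
  unfold Good
  rw [cp_map, h2.2.2]
  by_cases hc : ∀ x, T x = false
  · have e1 : pr T = 0 := by
      unfold pr
      simp [hc]
    have e2 : pr (fun s : Fin dM → Bool => (G M (List.ofFn s)).getD 0 false &&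
        T (vecD e n (G M (List.ofFn s)))) = 0 := by
      unfold pr
      simp [hc]
    rw [e1, e2]
    simpa using hε
  · have key : Computes B (rr e n * n + 1) (cB * (SZ e n + 1))
        (fun x => x 0 && T (fun i => x i.succ)) := by
      rcases hT with ⟨b, hb⟩ | hT
      · have hb' : b = true := by
          cases b
          · exact absurd hb hc
          · rfl
        refine ⟨[], Gates.nil, by simp, Or.inr ⟨0, ?_⟩⟩
        funext x
        rw [hb, hb', Bool.and_true]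
      · exact hB _ _ _ hT
    have hle : rr e n * n + 1 ≤ M := by omega
    have h3 := hG _ (L1A_renameC (Fin.castLE hle) key (by omega : cB * (SZ e n + 1) ≤ M))
    have e1 := h1.1 _ _ hle (fun x : Fin (rr e n * n + 1) → Bool => x 0 && T (fun i => x i.succ))
    have e2 := h1.2 _ T
    rw [e2] at e1
    rw [e1] at h3
    have e3 : ∀ y : List Bool, (y.getD 0 false && T (vecD e n y)) =
        ((fun i => vec M y (Fin.castLE hle i)) 0 &&
          T fun i => (fun i => vec M y (Fin.castLE hle i)) i.succ) := by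
      intro y
      have : (vecD e n y) = fun i => (fun i => vec M y (Fin.castLE hle i)) i.succ := by
        funext i
        simp only [vecD, vec, Fin.val_castLE, Fin.val_succ]
        rw [Nat.add_comm]
      rw [this]
      rfl
    simp only [e3]
    exact h3

theorem pr_not {Ω : Type} [Fintype Ω] [Nonempty Ω] (p : Ω → Bool) :
    pr (fun x => !p x) = 1 - pr p := by
  unfold pr
  have h : (Finset.univ.filter fun x => p x = true).card +
      (Finset.univ.filter fun x => (!p x) = true).card = Fintype.card Ω := by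
    rw [← Finset.card_univ, ← Finset.card_filter_add_card_filter_not (s := Finset.univ)
      (fun x => p x = true)]
    simp
  have h0 : (Fintype.card Ω : ℝ) ≠ 0 := by
    have := Fintype.card_pos (α := Ω)
    positivity
  rw [eq_sub_iff_add_eq, ← add_div, div_eq_one_iff_eq h0]
  rw [← h]
  push_cast
  ring

theorem cp_not {α : Type} (l : List α) (hl : l ≠ []) (p : α → Bool) :
    cp l (fun x => !p x) = 1 - cp l p := by
  unfold cp
  have h : l.countP p + l.countP (fun x => !p x) = l.length := by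
    have := List.length_eq_countP_add_countP (l := l) p
    simp at this
    simpa using this.symm
  have h0 : (l.length : ℝ) ≠ 0 := by
    have := List.length_pos_of_ne_nil hl
    positivity
  rw [eq_sub_iff_add_eq, ← add_div, div_eq_one_iff_eq h0, ← h]
  push_cast
  ring

theorem comp0_not {n s : ℕ} {C : BF n} (h : Comp0 n s C) : Comp0 n s (fun x => !C x) := by
  obtain ⟨l, s', h1, h2, h3⟩ := h
  exact ⟨_, s', AON.not _ _ _ h1 h3, h2, Or.inl (by simp)⟩

theorem L1A_D_len (e n : ℕ) (ys : List (List Bool)) (hys : ∀ y ∈ ys, 1 + rr e n * n ≤ y.length) :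
    ∀ x ∈ dL e n ys, x.length = n := by
  intro x hx
  unfold dL at hx
  rw [List.mem_flatMap] at hx
  obtain ⟨y, hy, hx⟩ := hx
  by_cases hp : passL e n y = true
  · rw [if_pos hp] at hx
    have hx := List.mem_of_mem_take hx
    unfold mbL at hx
    rw [List.mem_map] at hx
    obtain ⟨i, hi, rfl⟩ := hx
    rw [List.mem_filter, List.mem_range] at hi
    unfold blkL
    rw [List.length_take, List.length_drop]
    have h1 := hys y hy
    have h2 : n * i + n ≤ rr e n * n := by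
      have : n * i + n = (i + 1) * n := by ring
      rw [this]
      exact Nat.mul_le_mul_right _ hi.1
    omega
  · rw [if_neg hp] at hx
    simp at hx

theorem L1A_D_card (e n : ℕ) (ys : List (List Bool)) :
    (dL e n ys).length ≤ ys.length * kk e n := by
  unfold dL
  induction ys with
  | nil => simp
  | cons y ys ih =>
    rw [List.flatMap_cons, List.length_append, List.length_cons, Nat.add_mul, Nat.one_mul]
    have : (if passL e n y = true then (mbL e n y).take (kk e n) else []).length ≤ kk e n := by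
      by_cases hp : passL e n y = true
      · rw [if_pos hp, List.length_take]
        exact min_le_left _ _
      · rw [if_neg hp]
        simp
    omega

theorem t_L1A (h1 : S_PRJ) (h2 : S_ALS) (h3 : S_MOD) (h4 : S_GAD) (h5 : S_COR) (h6 : S_CPX)
    (h7 : S_L1P) : S_L1A := by
  intro B hB ε hε0 hε1 hL
  obtain ⟨d, G, hd, hG, c, m₀, hgen⟩ := hL
  obtain ⟨cB, hcB⟩ := h4 B hB
  obtain ⟨e, he8, he1, he2⟩ := L1A_e ε hε1
  obtain ⟨a, ha⟩ := L1A_M cB e m₀ (by omega)
  set b := a * c + 1 + 2 * e ^ 3 with hb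
  set c3 := 2 * b + 2 with hc3
  refine ⟨_, he2, fun n => c3 * Nat.log 2 n, gen1 e c a d G, ?_, h7 e c a d G hd hG, c3,
    max (max e 4) (2 ^ (c3 + 4)), fun n hn => ?_⟩
  · exact PTime.of_poly (Poly.mul (NPC.Poly.const _)
      (Pool.Agent.H547R2.poly_log2 (Poly.length Poly.id)))
  have hn1 : e ≤ n := (le_max_left _ _).trans ((le_max_left _ _).trans hn)
  have hn2 : 4 ≤ n := (le_max_right _ _).trans ((le_max_left _ _).trans hn)
  have hn3 : 2 ^ (c3 + 4) ≤ n := (le_max_right _ _).trans hn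
  set M := (n + 2) ^ a with hM
  obtain ⟨hM1, hM2⟩ := ha n
  obtain ⟨g1, g2, g3, g4⟩ := hgen M hM2
  set ys := (allS (d M)).map (G M) with hys
  have hylen : ∀ y ∈ ys, 1 + rr e n * n ≤ y.length := by
    intro y hy
    rw [hys, List.mem_map] at hy
    obtain ⟨s, hs, rfl⟩ := hy
    rw [g3 s (h2.2.1 _ s hs)]
    rw [hM]
    omega
  have hys0 : ys ≠ [] := by
    intro h
    have := congrArg List.length h
    rw [hys, List.length_map, h2.1] at this
    simp at this
  have hgood : ∀ {T : BF (rr e n * n)}, MC (rr e n * n) (SZ e n) T → Good e n ys ε T :=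
    fun hT => L1A_good h1 h2 hcB hε0 (M := M) (by rw [hM]; exact hM1) g4 hT
  -- the new list of points
  set D := dL e n ys with hD
  have hcor : ∀ C : BF n, Comp0 n n C → D ≠ [] ∧ cp D (fun x => C (vec n x)) ≤
      pr C + 5 / ((e : ℝ) - 2) + (ε + 1 / (8 * e)) / (1 / 2 - ε - 1 / (8 * e)) := by
    intro C hC
    refine h5 e n ys ε C he8 (by omega) hys0 hylen he1 ?_ ?_ fun θ => ?_
    · exact hgood (h6 e n C 0 (by omega) hC).1
    · exact hgood (h6 e n C 0 (by omega) hC).2.1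
    · exact hgood (h6 e n C θ (by omega) hC).2.2
  -- sizes
  have hlog : 2 ^ Nat.log 2 n ≤ n := Nat.pow_log_le_self 2 (by omega)
  have hlog2 : n < 2 ^ (Nat.log 2 n + 1) := Nat.lt_pow_succ_log_self (by norm_num) n
  set Lg := Nat.log 2 n with hLg
  have hLg2 : c3 + 4 ≤ Lg := Nat.le_log_of_pow_le (by norm_num) hn3
  have hdn : c3 * Lg < n := by
    have q1 : Lg ^ 2 ≤ 2 ^ Lg := by
      have : ∀ k : ℕ, 4 ≤ k → k ^ 2 ≤ 2 ^ k := by
        intro k hk
        induction k, hk using Nat.le_induction with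
        | base => norm_num
        | succ k hk ih =>
          rw [pow_succ 2 k]
          nlinarith
      exact this _ (by omega)
    nlinarith
  have hDcard : (D.length : ℝ) / 2 ^ (c3 * Lg) ≤ 1 / e := by
    have q1 : D.length ≤ (n + 2) ^ b := by
      refine (L1A_D_card e n ys).trans ?_
      rw [hys, List.length_map, h2.1]
      have q2 : 2 ^ d M ≤ (n + 2) ^ (a * c) := by
        calc 2 ^ d M ≤ 2 ^ (c * Nat.log 2 M) := Nat.pow_le_pow_right (by norm_num) g1
          _ = (2 ^ Nat.log 2 M) ^ c := by rw [← pow_mul, Nat.mul_comm]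
          _ ≤ M ^ c := Nat.pow_le_pow_left (Nat.pow_log_le_self 2 (by
              rw [hM]; positivity)) c
          _ = (n + 2) ^ (a * c) := by rw [hM, ← pow_mul]
      have q3 : kk e n ≤ 2 * e ^ 3 * (n + 2) := by
        unfold kk
        refine (Nat.sub_le _ _).trans (Nat.mul_le_mul_left _ (by omega))
      have q4 : 2 * e ^ 3 ≤ (n + 2) ^ (2 * e ^ 3) :=
        (Nat.lt_two_pow_self).le.trans (Nat.pow_le_pow_left (by omega) _)
      calc 2 ^ d M * kk e n ≤ (n + 2) ^ (a * c) * (2 * e ^ 3 * (n + 2)) := Nat.mul_le_mul q2 q3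
        _ ≤ (n + 2) ^ (a * c) * ((n + 2) ^ (2 * e ^ 3) * (n + 2)) :=
          Nat.mul_le_mul_left _ (Nat.mul_le_mul_right _ q4)
        _ = (n + 2) ^ b := by rw [hb]; ring
    have q5 : n * (n + 2) ^ b ≤ 2 ^ (c3 * Lg) := by
      have r0 : 2 ^ 2 ≤ 2 ^ Lg := Nat.pow_le_pow_right (by norm_num) (by omega)
      have r1 : n + 2 ≤ (2 ^ Lg) ^ 2 := by
        rw [pow_succ] at hlog2
        nlinarith
      calc n * (n + 2) ^ b ≤ (2 ^ Lg) ^ 2 * ((2 ^ Lg) ^ 2) ^ b :=
            Nat.mul_le_mul ((by omega : n ≤ n + 2).trans r1) (Nat.pow_le_pow_left r1 b)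
        _ = 2 ^ (c3 * Lg) := by
          rw [hc3, ← pow_mul, ← pow_mul, ← pow_add]
          congr 1
          ring
    have q6 : e * D.length ≤ 2 ^ (c3 * Lg) :=
      (Nat.mul_le_mul hn1 q1).trans q5
    rw [div_le_div_iff₀ (by positivity) (by positivity)]
    have : ((e * D.length : ℕ) : ℝ) ≤ ((2 ^ (c3 * Lg) : ℕ) : ℝ) := by exact_mod_cast q6
    push_cast at this
    linarith
  have hcond : d ((n + 2) ^ a) ≤ c * Nat.log 2 ((n + 2) ^ a) := g1
  have hDlen : ∀ x ∈ D, x.length = n := L1A_D_len e n ys hylen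
  refine ⟨le_rfl, hdn, ?_, ?_⟩
  · intro s _
    unfold gen1
    simp only [if_pos hcond]
    change (if D = [] then _ else _ : List Bool).length = n
    split_ifs with hD0
    · simp
    · have hpos : 0 < D.length := List.length_pos_of_ne_nil hD0
      have hlt : valB s % D.length < D.length := Nat.mod_lt _ hpos
      rw [List.getD_eq_getElem _ _ hlt]
      exact hDlen _ (List.getElem_mem hlt)
  · intro C hC
    have hC' : Comp0 n n C := by
      have : Comp0 n (n ^ 1) C := hC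
      rwa [pow_one] at this
    obtain ⟨hD0, hc1⟩ := hcor C hC'
    have hc2 := (hcor _ (comp0_not hC')).2
    rw [pr_not, cp_not D hD0 (fun x => C (vec n x))] at hc2
    have hmod := h3 (List Bool) (List.replicate n false) D (fun x => C (vec n x)) (c3 * Lg) hD0
    have hfun : (fun s : Fin (c3 * Lg) → Bool => C (vec n (gen1 e c a d G n (List.ofFn s)))) =
        fun s : Fin (c3 * Lg) → Bool =>
          C (vec n (D.getD (valB (List.ofFn s) % D.length) (List.replicate n false))) := by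
      funext s
      congr 2
      unfold gen1
      simp only [if_pos hcond]
      change (if D = [] then _ else _ : List Bool) = _
      rw [if_neg hD0]
    rw [hfun]
    have habs : |cp D (fun x => C (vec n x)) - pr C| ≤
        5 / ((e : ℝ) - 2) + (ε + 1 / (8 * e)) / (1 / 2 - ε - 1 / (8 * e)) := by
      rw [abs_le]
      constructor <;> linarith
    have := abs_add_le (pr (fun s : Fin (c3 * Lg) → Bool =>
      C (vec n (D.getD (valB (List.ofFn s) % D.length) (List.replicate n false)))) -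
        cp D (fun x => C (vec n x))) (cp D (fun x => C (vec n x)) - pr C)
    rw [sub_add_sub_cancel] at this
    linarith

end Pool.Agent.H547R7
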