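import Pool.Agent.H547R7.Stm2

/-!
# The new generator is computed in polynomial time
-/

set_option autoImplicit false

namespace Pool.Agent.H547R7

open Pool.Agent.NPC Pool.Agent.H424R2.PPAD

namespace L1P

variable {α β : Type} [TEnc α] [TEnc β]

theorem take_eq_aux {α : Type} (k : ℕ) : ∀ (l : List α) (j : ℕ),
    ((l.zipIdx j).filter fun q => decide (q.2 < j + k)).map Prod.fst = l.take k
  | [], j => by simp
  | a :: l, j => by
    rw [List.zipIdx_cons]
    cases k with
    | zero =>
      rw [List.take_zero, List.map_eq_nil_iff, List.filter_eq_nil_iff]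
      rintro ⟨b, i⟩ hb
      rw [← List.zipIdx_cons, List.mem_zipIdx_iff_le_and_getElem?_sub] at hb
      simp only [decide_eq_true_eq]
      omega
    | succ k =>
      have ih := take_eq_aux k l (j + 1)
      rw [List.take_succ_cons, ← ih, List.filter_cons_of_pos (by simp), List.map_cons,
        show j + (k + 1) = j + 1 + k by omega]

theorem drop_eq_aux {α : Type} (k : ℕ) : ∀ (l : List α) (j : ℕ),
    ((l.zipIdx j).filter fun q => decide (j + k ≤ q.2)).map Prod.fst = l.drop k
  | [], j => by simp
  | a :: l, j => by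
    rw [List.zipIdx_cons]
    cases k with
    | zero =>
      rw [List.drop_zero, List.filter_eq_self.2]
      · rw [← List.zipIdx_cons]
        exact List.zipIdx_map_fst _ _
      · rintro ⟨b, i⟩ hb
        rw [← List.zipIdx_cons, List.mem_zipIdx_iff_le_and_getElem?_sub] at hb
        simp only [decide_eq_true_eq]
        omega
    | succ k =>
      have ih := drop_eq_aux k l (j + 1)
      rw [List.drop_succ_cons, ← ih, List.filter_cons_of_neg (by simp),
        show j + (k + 1) = j + 1 + k by omega]

@[fun_prop]
theorem poly_take {l : α → List β} {k : α → ℕ} (hl : Poly l)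
    (hk : Poly k) : Poly (fun a => (l a).take (k a)) := by
  have h : Poly (fun a => (((l a).zipIdx.filter fun q => decide (q.2 < k a)).map Prod.fst)) := by
    fun_prop
  refine h.congr fun a => ?_
  have := take_eq_aux (k a) (l a) 0
  simpa using this

@[fun_prop]
theorem poly_drop {l : α → List β} {k : α → ℕ} (hl : Poly l)
    (hk : Poly k) : Poly (fun a => (l a).drop (k a)) := by
  have h : Poly (fun a => (((l a).zipIdx.filter fun q => decide (k a ≤ q.2)).map Prod.fst)) := by
    fun_prop
  refine h.congr fun a => ?_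
  have := drop_eq_aux (k a) (l a) 0
  simpa using this

@[fun_prop]
theorem poly_countP {l : α → List β} {p : α → β → Bool} (hl : Poly l)
    (hp : Poly (fun x : α × β => p x.1 x.2)) : Poly (fun a => (l a).countP (p a)) := by
  have h : Poly (fun a => ((l a).filter (p a)).length) := Poly.length (Poly.filter hl hp)
  refine h.congr fun a => ?_
  rw [List.countP_eq_length_filter]

@[fun_prop]
theorem poly_wtL {x : α → List Bool} (hx : Poly x) : Poly (fun a => wtL (x a)) := by
  unfold wtL
  exact poly_countP (p := fun _ b => b) hx (Poly.snd Poly.id)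

@[fun_prop]
theorem poly_blkL {n i : α → ℕ} {y : α → List Bool} (hn : Poly n) (hy : Poly y) (hi : Poly i) :
    Poly (fun a => blkL (n a) (y a) (i a)) := by
  unfold blkL
  fun_prop

theorem upoly_pow {n : α → ℕ} (hn : UPoly n) (a b : ℕ) : UPoly (fun x => (n x + b) ^ a) := by
  have h := UPoly.eval hn ((Polynomial.X + Polynomial.C b) ^ a)
  refine Poly.congr h fun x => ?_
  congr 1
  simp

theorem upoly_rr (e : ℕ) {n : α → ℕ} (hn : UPoly n) : UPoly (fun x => rr e (n x)) := by
  unfold rr
  exact UPoly.mul (UPoly.const _) (upoly_pow hn 2 1)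

theorem poly_a1 (e : ℕ) {n : α → ℕ} (hn : Poly n) : Poly (fun x => a1 e (n x)) := by
  unfold a1
  fun_prop

theorem poly_a0 (e : ℕ) {n : α → ℕ} (hn : Poly n) : Poly (fun x => a0 e (n x)) := by
  unfold a0
  fun_prop

theorem poly_b0 (e : ℕ) {n : α → ℕ} (hn : Poly n) : Poly (fun x => b0 e (n x)) := by
  unfold b0
  fun_prop

theorem poly_kk (e : ℕ) {n : α → ℕ} (hn : Poly n) : Poly (fun x => kk e (n x)) := by
  unfold kk
  fun_prop

theorem poly_s1L (e : ℕ) {n : α → ℕ} {y : α → List Bool} (hn : UPoly n) (hy : Poly y) :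
    Poly (fun x => s1L e (n x) (y x)) := by
  have hr := (upoly_rr e hn).range
  have hn' := hn.toPoly
  unfold s1L
  refine poly_countP (p := fun x i => decide (i % (n x + 1) ≤ wtL (blkL (n x) (y x) i))) hr ?_
  fun_prop

theorem poly_s0L (e : ℕ) {n : α → ℕ} {y : α → List Bool} (hn : UPoly n) (hy : Poly y) :
    Poly (fun x => s0L e (n x) (y x)) := by
  have hr := (upoly_rr e hn).range
  have hn' := hn.toPoly
  unfold s0L
  refine poly_countP (p := fun x i => decide (i % (n x + 1) < wtL (blkL (n x) (y x) i))) hr ?_
  fun_prop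

theorem poly_passL (e : ℕ) {n : α → ℕ} {y : α → List Bool} (hn : UPoly n) (hy : Poly y) :
    Poly (fun x => passL e (n x) (y x)) := by
  have hn' := hn.toPoly
  have h1 := poly_s1L e hn hy
  have h2 := poly_s0L e hn hy
  have h3 := poly_a1 e hn'
  have h4 := poly_a0 e hn'
  have h5 := poly_b0 e hn'
  unfold passL
  fun_prop

theorem poly_mbL (e : ℕ) {n : α → ℕ} {y : α → List Bool} (hn : UPoly n) (hy : Poly y) :
    Poly (fun x => mbL e (n x) (y x)) := by
  have hr := (upoly_rr e hn).range
  have hn' := hn.toPoly
  unfold mbL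
  refine NPC.Poly.map (F := fun x i => blkL (n x) (y x) i)
    (Poly.filter (p := fun x i => decide (wtL (blkL (n x) (y x) i) = i % (n x + 1))) hr ?_) ?_
  · fun_prop
  · fun_prop

theorem poly_dL (e : ℕ) {n : α → ℕ} {ys : α → List (List Bool)} (hn : UPoly n) (hy : Poly ys) :
    Poly (fun x => dL e (n x) (ys x)) := by
  have hn2 : UPoly (fun p : α × List Bool => n p.1) := hn.comp (Poly.fst Poly.id)
  have hs : Poly (fun p : α × List Bool => p.2) := Poly.snd Poly.id
  unfold dL
  refine Poly.flatMap (F := fun x y => if passL e (n x) y = true then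
    (mbL e (n x) y).take (kk e (n x)) else []) hy ?_
  exact Poly.ite (Poly.decide_bool (poly_passL e hn2 hs))
    (poly_take (poly_mbL e hn2 hs) (poly_kk e hn2.toPoly)) (NPC.Poly.const [])

/-! ### all strings -/

theorem allS_length (d : ℕ) : (allS d).length = 2 ^ d := by
  induction d with
  | zero => rfl
  | succ d ih => simp [allS, ih, pow_succ]; ring

theorem allS_len (d : ℕ) : ∀ s ∈ allS d, s.length = d := by
  induction d with
  | zero => intro s hs; simp [allS] at hs; simp [hs]
  | succ d ih =>
    intro s hs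
    simp only [allS, List.mem_append, List.mem_map] at hs
    rcases hs with ⟨t, ht, rfl⟩ | ⟨t, ht, rfl⟩
    · simp [ih t ht]
    · simp [ih t ht]

theorem allS_sz (d : ℕ) : sz (allS d) ≤ 2 ^ d * (4 * d + 2) + 1 := by
  have h := sz_le_length_mul (allS d) (4 * d + 1) fun s hs => by
    have h1 := sz_listBool_le s
    rw [allS_len d s hs] at h1
    exact h1
  rw [allS_length] at h
  simpa using h

/-- the step -/
def stp (l : List (List Bool)) : List (List Bool) :=
  l.map (fun s => false :: s) ++ l.map (fun s => true :: s)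

theorem stp_iter (d : ℕ) : stp^[d] [[]] = allS d := by
  induction d with
  | zero => rfl
  | succ d ih => rw [Function.iterate_succ_apply', ih]; rfl

theorem poly_allS {E M : α → ℕ} (c : ℕ) (hE : Poly E) (hM : UPoly M)
    (h : ∀ x, E x ≤ c * Nat.log 2 (M x)) (hM1 : ∀ x, M x ≠ 0) : Poly (fun x => allS (E x)) := by
  have hlog : ∀ x, Nat.log 2 (M x) ≤ M x := fun x => Nat.log_le_self 2 (M x)
  have hEM : ∀ x, E x ≤ c * M x := fun x => (h x).trans (Nat.mul_le_mul_left c (hlog x))
  have hEu : UPoly E := UPoly.of_le hE (UPoly.mul (UPoly.const c) hM) hEM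
  obtain ⟨r, hr⟩ := Poly.sz_le hM
  have hMr : ∀ x, M x ≤ r.eval (sz x) := fun x => by
    have h1 := hr x
    have h2 := length_lt_sz (List.replicate (M x) ())
    rw [List.length_replicate] at h2
    omega
  have h2c : ∀ x, 2 ^ (E x) ≤ M x ^ c := fun x => by
    calc 2 ^ (E x) ≤ 2 ^ (c * Nat.log 2 (M x)) := Nat.pow_le_pow_right (by norm_num) (h x)
      _ = (2 ^ Nat.log 2 (M x)) ^ c := by rw [mul_comm, pow_mul]
      _ ≤ M x ^ c := Nat.pow_le_pow_left (Nat.pow_log_le_self 2 (hM1 x)) c
  have key : Poly (fun x => stp^[(List.replicate (E x) ()).length] [[]]) := by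
    refine Poly.iterLen (F := fun _ l => stp l) hEu (NPC.Poly.const [[]]) ?_
      (r ^ c * (Polynomial.C 4 * (Polynomial.C c * r) + Polynomial.C 2) + Polynomial.C 1) ?_
    · unfold stp
      fun_prop
    · intro x k hk
      rw [List.length_replicate] at hk
      have e1 : (fun l => stp l)^[k] [[]] = allS k := stp_iter k
      rw [e1]
      have e2 := allS_sz k
      have e3 : 2 ^ k ≤ (r.eval (sz x)) ^ c :=
        (Nat.pow_le_pow_right (by norm_num) hk).trans
          ((h2c x).trans (Nat.pow_le_pow_left (hMr x) c))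
      have e4 : k ≤ c * r.eval (sz x) :=
        hk.trans ((hEM x).trans (Nat.mul_le_mul_left c (hMr x)))
      simp only [Polynomial.eval_add, Polynomial.eval_mul, Polynomial.eval_C,
        Polynomial.eval_pow]
      have e5 : 2 ^ k * (4 * k + 2) ≤
          (r.eval (sz x)) ^ c * (4 * (c * r.eval (sz x)) + 2) :=
        Nat.mul_le_mul e3 (by omega)
      omega
  refine key.congr fun x => ?_
  rw [List.length_replicate, stp_iter]

/-! ### the logarithm -/

theorem size_eq_log (n : ℕ) (hn : n ≠ 0) : n.bits.length - 1 = Nat.log 2 n := by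
  rw [Nat.size_eq_bits_len]
  have h1 : n < 2 ^ n.size := Nat.lt_size_self n
  have h2 : Nat.log 2 n < n.size := Nat.log_lt_of_lt_pow hn h1
  have h3 : n.size ≤ Nat.log 2 n + 1 := by
    rw [Nat.size_le]
    exact Nat.lt_pow_succ_log_self (by norm_num) n
  omega

theorem poly_log {M : α → ℕ} (hM : Poly M) (h : ∀ x, M x ≠ 0) :
    Poly (fun x => Nat.log 2 (M x)) := by
  have h1 : Poly (fun x => ((M x).bits.length - 1)) :=
    Poly.sub (Poly.length (Poly.natBits hM)) (NPC.Poly.const 1)
  exact h1.congr fun x => size_eq_log _ (h x)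

theorem poly_ones {n : α → ℕ} (hn : UPoly n) (b : Bool) :
    Poly (fun x => List.replicate (n x) b) := by
  have h : Poly (fun x => (List.range (n x)).map fun _ => b) :=
    NPC.Poly.map (F := fun _ _ => b) hn.range (NPC.Poly.const b)
  refine h.congr fun x => ?_
  simp

end L1P

open L1P in
theorem t_L1P : S_L1P := by
  intro e c a d G hd hG
  apply PTime.of_poly
  have hd' := hd.toPoly
  have hG' := hG.toPoly
  have hn : UPoly (fun p : List Bool × List Bool => p.1.length) := UPoly.length (Poly.fst Poly.id)
  have hM : UPoly (fun p : List Bool × List Bool => (p.1.length + 2) ^ a) := upoly_pow hn a 2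
  have hM0 : ∀ p : List Bool × List Bool, (p.1.length + 2) ^ a ≠ 0 := fun p =>
    (pow_pos (by omega) a).ne'
  have hMl := poly_log hM.toPoly hM0
  have hu : Poly (fun p : List Bool × List Bool => List.replicate ((p.1.length + 2) ^ a) true) :=
    poly_ones hM true
  have hdM : Poly (fun p : List Bool × List Bool => d ((p.1.length + 2) ^ a)) :=
    (hd'.comp hu).congr fun p => by simp
  have hE : Poly (fun p : List Bool × List Bool =>
      min (d ((p.1.length + 2) ^ a)) (c * Nat.log 2 ((p.1.length + 2) ^ a))) :=
    Poly.min hdM (Poly.mul (NPC.Poly.const c) hMl)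
  have hS := poly_allS c hE hM (fun p => min_le_right _ _) hM0
  have hGm : Poly (fun p : List Bool × List Bool =>
      (allS (min (d ((p.1.length + 2) ^ a)) (c * Nat.log 2 ((p.1.length + 2) ^ a)))).map
        (G ((p.1.length + 2) ^ a))) := by
    refine NPC.Poly.map (F := fun p s => G ((p.1.length + 2) ^ a) s) hS ?_
    have h1 : Poly (fun q : (List Bool × List Bool) × List Bool =>
        (List.replicate ((q.1.1.length + 2) ^ a) true, q.2)) :=
      Poly.pair (hu.comp (Poly.fst Poly.id)) (Poly.snd Poly.id)
    exact (hG'.comp h1).congr fun q => by simp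
  have hD := poly_dL e hn hGm
  have hz : Poly (fun p : List Bool × List Bool => List.replicate p.1.length false) :=
    poly_ones hn false
  have hv : Poly (fun p : List Bool × List Bool => valB p.2) := Poly.valBits (Poly.snd Poly.id)
  have key : Poly (fun p : List Bool × List Bool =>
      if d ((p.1.length + 2) ^ a) ≤ c * Nat.log 2 ((p.1.length + 2) ^ a) then
        (if dL e p.1.length ((allS (min (d ((p.1.length + 2) ^ a))
            (c * Nat.log 2 ((p.1.length + 2) ^ a)))).map (G ((p.1.length + 2) ^ a))) = [] then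
          List.replicate p.1.length false
        else (dL e p.1.length ((allS (min (d ((p.1.length + 2) ^ a))
            (c * Nat.log 2 ((p.1.length + 2) ^ a)))).map (G ((p.1.length + 2) ^ a)))).getD
            (valB p.2 % (dL e p.1.length ((allS (min (d ((p.1.length + 2) ^ a))
            (c * Nat.log 2 ((p.1.length + 2) ^ a)))).map (G ((p.1.length + 2) ^ a)))).length)
            (List.replicate p.1.length false))
      else List.replicate p.1.length false) := by
    refine Poly.ite (Poly.decide_le hdM (Poly.mul (NPC.Poly.const c) hMl)) (Poly.ite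
      (Poly.decide_eq hD (NPC.Poly.const [])) hz (Poly.getD hD (Poly.mod hv (Poly.length hD)) hz)) hz
  refine key.congr fun p => ?_
  unfold gen1
  by_cases h : d ((p.1.length + 2) ^ a) ≤ c * Nat.log 2 ((p.1.length + 2) ^ a)
  · simp only [h, if_true, min_eq_left h]
  · simp only [h, if_false]

end Pool.Agent.H547R7
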