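import Pool.Agent.H547R7.Stm2

/-!
# Error reduction by the sum of two copies
-/

set_option autoImplicit false

namespace Pool.Agent.H547R7

open Pool.Agent.H547R6 Pool.Agent.NPC Pool.Agent.H424R2.PPAD

private theorem L2_availL {n : ℕ} (l l' : List (BF n)) (f : BF n) (h : Avail l f) :
    Avail (l ++ l') f := by
  rcases h with h | h
  · exact Or.inl (List.mem_append_left _ h)
  · exact Or.inr h

private theorem L2_availR {n : ℕ} (l l' : List (BF n)) (f : BF n) (h : Avail l' f) :
    Avail (l ++ l') f := by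
  rcases h with h | h
  · exact Or.inl (List.mem_append_right _ h)
  · exact Or.inr h

private theorem L2_append {n : ℕ} {s2 : ℕ} {l2 : List (BF n)} (h2 : AON n s2 l2) {s1 : ℕ}
    {l1 : List (BF n)} (h1 : AON n s1 l1) : AON n (s1 + s2) (l1 ++ l2) := by
  induction h1 with
  | nil => simpa using h2
  | not s l a h ha ih => exact AON.not _ _ a ih (L2_availL _ _ _ ha)
  | and s l a b h ha hb ih =>
    have := AON.and _ _ a b ih (L2_availL _ _ _ ha) (L2_availL _ _ _ hb)
    rw [Nat.add_right_comm]
    exact this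
  | or s l a b h ha hb ih =>
    have := AON.or _ _ a b ih (L2_availL _ _ _ ha) (L2_availL _ _ _ hb)
    rw [Nat.add_right_comm]
    exact this

private theorem L2_availSub {m n : ℕ} (a : Fin m → BF n) (l0 : List (BF n))
    (ha : ∀ i, Avail l0 (a i)) (l : List (BF m)) (f : BF m) (hf : Avail l f) :
    Avail (l.map (fun f x => f fun i => a i x) ++ l0) (fun x => f fun i => a i x) := by
  rcases hf with hf | ⟨i, rfl⟩
  · exact Or.inl (List.mem_append_left _ (List.mem_map_of_mem hf))
  · exact L2_availR _ _ _ (ha i)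

private theorem L2_subA {m n s0 : ℕ} (a : Fin m → BF n) {l0 : List (BF n)} (h0 : AON n s0 l0)
    (ha : ∀ i, Avail l0 (a i)) {s : ℕ} {l : List (BF m)} (h : AON m s l) :
    AON n (s + s0) (l.map (fun f x => f fun i => a i x) ++ l0) := by
  induction h with
  | nil => simpa using h0
  | not s l b h hb ih => exact AON.not _ _ _ ih (L2_availSub a l0 ha l b hb)
  | and s l b c h hb hc ih =>
    have := AON.and _ _ _ _ ih (L2_availSub a l0 ha l b hb) (L2_availSub a l0 ha l c hc)
    rw [Nat.add_right_comm]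
    exact this
  | or s l b c h hb hc ih =>
    have := AON.or _ _ _ _ ih (L2_availSub a l0 ha l b hb) (L2_availSub a l0 ha l c hc)
    rw [Nat.add_right_comm]
    exact this

private theorem L2_subM {m n s0 : ℕ} (a : Fin m → BF n) {l0 : List (BF n)} (h0 : AON n s0 l0)
    (ha : ∀ i, Avail l0 (a i)) {l : List (BF m)} (h : Gates MB m l) :
    AON n (l.length + s0) (l.map (fun f x => f fun i => a i x) ++ l0) := by
  induction h with
  | nil => simpa using h0
  | gate l k f g hf hg hl ih =>
    rw [List.length_cons, Nat.add_right_comm]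
    rcases hf with hf | hf
    · obtain ⟨rfl, hf⟩ := Sigma.mk.inj hf
      have hf := eq_of_heq hf
      subst hf
      exact AON.and _ _ _ _ ih (L2_availSub a l0 ha l _ (hg 0)) (L2_availSub a l0 ha l _ (hg 1))
    · have hf := Set.mem_singleton_iff.1 hf
      obtain ⟨rfl, hf⟩ := Sigma.mk.inj hf
      have hf := eq_of_heq hf
      subst hf
      exact AON.or _ _ _ _ ih (L2_availSub a l0 ha l _ (hg 0)) (L2_availSub a l0 ha l _ (hg 1))

/-- shifts do not change the size -/
private theorem L2_shift {n s : ℕ} {C : BF n} (h : Comp0 n s C) (g : Fin n → Bool) :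
    Comp0 n s (fun x => C (vx g x)) := by
  obtain ⟨l, s', h1, h2, h3⟩ := h
  have hN : ∀ L : List (Fin n), AON n 0 (L.map fun i => (fun x : Fin n → Bool => !x i)) := by
    intro L
    induction L with
    | nil => exact AON.nil
    | cons i L ih => exact AON.not _ _ (fun x => x i) ih (Or.inr ⟨i, rfl⟩)
  have ha : ∀ i, Avail ((List.finRange n).map fun i => (fun x : Fin n → Bool => !x i))
      (fun x : Fin n → Bool => xor (g i) (x i)) := by
    intro i
    cases hg : g i
    · right
      exact ⟨i, by funext x; simp⟩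
    · left
      have e : (fun x : Fin n → Bool => xor true (x i)) = (fun x => !x i) := by
        funext x; simp
      rw [e]
      exact List.mem_map_of_mem (List.mem_finRange i)
  have := L2_subA (fun i x => xor (g i) (x i)) (hN _) ha h1
  refine ⟨_, _, this, by omega, ?_⟩
  exact L2_availSub _ _ ha l C h3

/-- several functions at once -/
private theorem L2_many {n T q : ℕ} (C : Fin T → BF n) (h : ∀ i, Comp0 n q (C i)) :
    ∃ l s', AON n s' l ∧ s' ≤ T * q ∧ ∀ i, Avail l (C i) := by
  have key : ∀ S : Finset (Fin T), ∃ l s', AON n s' l ∧ s' ≤ S.card * q ∧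
      ∀ i ∈ S, Avail l (C i) := by
    intro S
    induction S using Finset.induction_on with
    | empty => exact ⟨[], 0, AON.nil, by simp, by simp⟩
    | insert i S hi ih =>
      obtain ⟨l1, s1, h1, h2, h3⟩ := ih
      obtain ⟨l2, s2, h4, h5, h6⟩ := h i
      refine ⟨l2 ++ l1, s2 + s1, L2_append h1 h4, ?_, ?_⟩
      · rw [Finset.card_insert_of_notMem hi, Nat.succ_mul]
        omega
      · intro j hj
        rcases Finset.mem_insert.1 hj with rfl | hj
        · exact L2_availL _ _ _ h6
        · exact L2_availR _ _ _ (h3 j hj)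
  obtain ⟨l, s', h1, h2, h3⟩ := key Finset.univ
  rw [Finset.card_univ, Fintype.card_fin] at h2
  exact ⟨l, s', h1, h2, fun i => h3 i (Finset.mem_univ i)⟩

private theorem L2_pr_equiv {Ω Ω' : Type} [Fintype Ω] [Fintype Ω'] (e : Ω ≃ Ω')
    (p : Ω' → Bool) : pr (fun w => p (e w)) = pr p := by
  unfold pr
  rw [Fintype.card_congr e]
  congr 2
  apply Finset.card_bij (fun w _ => e w)
  · intro w hw
    simpa using hw
  · intro w _ w' _ h
    exact e.injective h
  · intro w hw
    exact ⟨e.symm w, by simpa using hw, by simp⟩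

private theorem L2_pr_const {Ω Ω' : Type} [Fintype Ω] [Fintype Ω'] [Nonempty Ω] [Nonempty Ω']
    (b : Bool) : pr (fun _ : Ω => b) = pr (fun _ : Ω' => b) := by
  unfold pr
  cases b
  · simp
  · simp

private theorem L2_sq (L : ℕ) (hL : 4 ≤ L) : L * L ≤ 2 ^ L := by
  induction L, hL using Nat.le_induction with
  | base => norm_num
  | succ k hk ih =>
    rw [pow_succ]
    nlinarith

private theorem L2_log (K m : ℕ) (hm : 2 ^ (K + 4) ≤ m) : K * Nat.log 2 m < m := by
  have hm0 : m ≠ 0 := by
    have : 0 < 2 ^ (K + 4) := by positivity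
    omega
  have h1 : K + 4 ≤ Nat.log 2 m := Nat.le_log_of_pow_le (by norm_num) hm
  have h2 : 2 ^ Nat.log 2 m ≤ m := Nat.pow_log_le_self 2 hm0
  have h3 := L2_sq (Nat.log 2 m) (by omega)
  have h4 : K * Nat.log 2 m < Nat.log 2 m * Nat.log 2 m :=
    Nat.mul_lt_mul_of_pos_right (by omega) (by omega)
  omega

/-- the analysis for a fixed length -/
private theorem L2_core (h1 : S_SAM) (h2 : S_XOR) (h3 : S_THR) (ε δ : ℝ) (hε0 : 0 ≤ ε)
    (hε1 : ε ≤ 1) (hδ0 : 0 < δ) (hδ1 : δ ≤ 1) (K m k : ℕ) (hK12 : 12 ≤ (K : ℝ) * δ ^ 2)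
    (hK1 : 1 ≤ K) (hm : K + 2 * K * (K + 1) + 1 ≤ m) (g : (Fin k → Bool) → Fin m → Bool)
    (hfool : ∀ D : BF m, Comp0 m (m ^ 3) D →
      |pr (fun w : Fin k → Bool => D (g w)) - pr D| ≤ ε)
    (C : BF m) (hC' : Comp0 m m C) :
    |pr (fun w : (Fin k → Bool) × (Fin k → Bool) => C (vx (g w.1) (g w.2))) - pr C| ≤
      2 * ε ^ 2 + 4 * δ := by
  have hmpos : 1 ≤ m := by omega
  obtain ⟨T, hT⟩ : ∃ T : ℕ, T = K * m := ⟨_, rfl⟩
  have hT0 : 0 < T := by rw [hT]; exact Nat.mul_pos hK1 hmpos
  have hTδ : 4 * ((m : ℝ) + 2) ≤ (T : ℝ) * δ ^ 2 := by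
    have hm' : (1 : ℝ) ≤ m := by exact_mod_cast hmpos
    have : (T : ℝ) = K * m := by rw [hT]; push_cast; rfl
    rw [this]
    nlinarith
  obtain ⟨s, hs⟩ := h1 (Fin k → Bool) (Fin m → Bool) (fun y w => C (vx (g w) y)) m T δ hδ0 hδ1
    (by simp) hTδ
  have hsize : 2 * T * (T + 1) + T * m ≤ m ^ 3 := by
    rw [hT]
    have e1 : K * m + 1 ≤ (K + 1) * m := by
      rw [Nat.succ_mul]; omega
    calc 2 * (K * m) * (K * m + 1) + K * m * m
        ≤ 2 * (K * m) * ((K + 1) * m) + K * m * m :=
          Nat.add_le_add_right (Nat.mul_le_mul_left _ e1) _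
      _ = (K + 2 * K * (K + 1)) * (m * m) := by ring
      _ ≤ m * (m * m) := Nat.mul_le_mul_right _ (by omega)
      _ = m ^ 3 := by ring
  have hmm : m ≤ m ^ 3 := by
    calc m = m ^ 1 := (pow_one m).symm
      _ ≤ m ^ 3 := Nat.pow_le_pow_right hmpos (by norm_num)
  have mono : ∀ (D : BF m) (a b : ℕ), a ≤ b → Comp0 m a D → Comp0 m b D := by
    rintro D a b hab ⟨l, s', q1, q2, q3⟩
    exact ⟨l, s', q1, le_trans q2 hab, q3⟩
  have hvx : ∀ y z : Fin m → Bool, vx y z = vx z y := by
    intro y z
    funext i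
    exact Bool.xor_comm _ _
  -- the tests
  have test1 : ∀ y, |pr (fun w : Fin k → Bool => C (vx (g w) y)) - pr C| ≤ ε := by
    intro y
    have q1 : Comp0 m (m ^ 3) (fun z => C (vx y z)) := mono _ _ _ hmm (L2_shift hC' y)
    have q2 := hfool _ q1
    have q3 : pr (fun z => C (vx y z)) = pr C := by
      have inv : Function.Involutive (fun z : Fin m → Bool => vx y z) := by
        intro z
        funext i
        simp [vx]
      exact L2_pr_equiv inv.toPerm C
    rw [q3] at q2
    have q4 : (fun w : Fin k → Bool => C (vx (g w) y)) = fun w => C (vx y (g w)) := by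
      funext w; rw [hvx]
    rw [q4]
    exact q2
  have test2 : ∀ θ : ℕ, |pr (fun w : Fin k → Bool => decide (θ ≤ (Finset.univ.filter fun i =>
      C (vx (g (s i)) (g w)) = true).card)) -
      pr (fun y => decide (θ ≤ (Finset.univ.filter fun i =>
      C (vx (g (s i)) y) = true).card))| ≤ ε := by
    intro θ
    obtain ⟨l', q1, q2, q3⟩ := h3 T T [] (fun i x => x i) Gates.nil
      (fun i => Or.inr (Or.inr ⟨i, rfl⟩)) θ
    rw [List.append_nil] at q1 q3
    rcases q3 with ⟨b, hb⟩ | q3
    · have e1 : (fun w : Fin k → Bool => decide (θ ≤ (Finset.univ.filter fun i =>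
          C (vx (g (s i)) (g w)) = true).card)) = fun _ => b := by
        funext w
        exact hb (fun i => C (vx (g (s i)) (g w)))
      have e2 : (fun y : Fin m → Bool => decide (θ ≤ (Finset.univ.filter fun i =>
          C (vx (g (s i)) y) = true).card)) = fun _ => b := by
        funext y
        exact hb (fun i => C (vx (g (s i)) y))
      rw [e1, e2, L2_pr_const (Ω := Fin k → Bool) (Ω' := Fin m → Bool) b, sub_self, abs_zero]
      exact hε0
    · obtain ⟨l, s', r1, r2, r3⟩ := L2_many (fun i : Fin T => fun x => C (vx (g (s i)) x))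
        (fun i => L2_shift hC' _)
      have r4 := L2_subM (fun i : Fin T => fun x => C (vx (g (s i)) x)) r1 r3 q1
      have r5 := L2_availSub (fun i : Fin T => fun x => C (vx (g (s i)) x)) l r3 l' _ q3
      have r6 : Comp0 m (m ^ 3) (fun y => decide (θ ≤ (Finset.univ.filter fun i =>
          C (vx (g (s i)) y) = true).card)) := by
        refine ⟨_, _, r4, ?_, r5⟩
        omega
      have r7 := hfool _ r6
      exact r7
  exact h2 (Fin k → Bool) m g C T s ε δ hT0 hε0 hε1 hδ0.le hs test2 test1

/-- the first half of the seed -/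
private def L2_half1 (k : ℕ) (s : List Bool) : List Bool :=
  (List.range k).map fun i => s.getD i false

/-- the second half of the seed -/
private def L2_half2 (k : ℕ) (s : List Bool) : List Bool :=
  (List.range k).map fun i => s.getD (k + i) false

/-- the sum of two copies -/
private def L2_gen (k : ℕ) (G : ℕ → List Bool → List Bool) (m : ℕ) (s : List Bool) :
    List Bool :=
  (List.range m).map fun i =>
    xor ((G m (L2_half1 k s)).getD i false) ((G m (L2_half2 k s)).getD i false)

private theorem L2_w1 (k : ℕ) (a b : Fin k → Bool) :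
    L2_half1 k (List.ofFn (Fin.append a b)) = List.ofFn a := by
  apply List.ext_getElem
  · simp [L2_half1]
  · intro i hi1 hi2
    have hi : i < k := by simpa using hi2
    simp only [L2_half1, List.getElem_map, List.getElem_range, List.getElem_ofFn]
    rw [List.getD_eq_getElem _ _ (by simp; omega), List.getElem_ofFn]
    exact Fin.append_left a b ⟨i, hi⟩

private theorem L2_w2 (k : ℕ) (a b : Fin k → Bool) :
    L2_half2 k (List.ofFn (Fin.append a b)) = List.ofFn b := by
  apply List.ext_getElem
  · simp [L2_half2]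
  · intro i hi1 hi2
    have hi : i < k := by simpa using hi2
    simp only [L2_half2, List.getElem_map, List.getElem_range, List.getElem_ofFn]
    rw [List.getD_eq_getElem _ _ (by simp; omega), List.getElem_ofFn]
    exact Fin.append_right a b ⟨i, hi⟩

private theorem L2_match (k m : ℕ) (G : ℕ → List Bool → List Bool) (C : BF m) :
    pr (fun t : Fin (k + k) → Bool => C (vec m (L2_gen k G m (List.ofFn t)))) =
    pr (fun w : (Fin k → Bool) × (Fin k → Bool) =>
      C (vx (vec m (G m (List.ofFn w.1))) (vec m (G m (List.ofFn w.2))))) := by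
  rw [← L2_pr_equiv (Fin.appendEquiv k k)]
  congr 1
  funext w
  congr 1
  funext i
  change (L2_gen k G m (List.ofFn (Fin.append w.1 w.2))).getD i false = _
  rw [L2_gen, L2_w1, L2_w2, List.getD_eq_getElem _ _ (by simp)]
  simp only [List.getElem_map, List.getElem_range]
  rfl

/-- L2: sum of two copies -/
theorem t_L2 (h0 : S_L0) (h1 : S_SAM) (h2 : S_XOR) (h3 : S_THR) : S_L2 := by
  intro ε δ hε0 hε1 hδ0 hδ1 hL
  obtain ⟨d, G, hd, hG, c, m₀, hm₀⟩ := h0 3 ε (by norm_num) hL
  have hdP : Pool.Agent.NPC.Poly (fun u : List Bool => d u.length) := hd.toPoly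
  have hGP : Pool.Agent.NPC.Poly (fun p : List Bool × List Bool => G p.1.length p.2) :=
    hG.toPoly
  have hddP : Pool.Agent.NPC.Poly (fun u : List Bool => min (d u.length) u.length) :=
    Pool.Agent.NPC.Poly.min hdP (Pool.Agent.NPC.Poly.length Pool.Agent.NPC.Poly.id)
  have hddU : UPoly (fun u : List Bool => min (d u.length) u.length) :=
    UPoly.of_le hddP (UPoly.length Pool.Agent.NPC.Poly.id) (fun u => min_le_right _ _)
  -- the constant for the sampling
  obtain ⟨K, hK⟩ : ∃ K : ℕ, 12 / δ ^ 2 ≤ K := exists_nat_ge _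
  have hK12 : 12 ≤ (K : ℝ) * δ ^ 2 := by
    have : 0 < δ ^ 2 := by positivity
    rw [div_le_iff₀ this] at hK
    exact hK
  have hK1 : 1 ≤ K := by
    rcases Nat.eq_zero_or_pos K with h | h
    · rw [h] at hK12; simp at hK12; linarith
    · exact h
  refine ⟨fun m => min (d m) m + min (d m) m, fun m s => L2_gen (min (d m) m) G m s, ?_, ?_,
    2 * c, max m₀ (max (2 ^ (2 * c + 4)) (K + 2 * K * (K + 1) + 1)), ?_⟩
  · exact PTime.of_poly (Pool.Agent.NPC.Poly.add hddP hddP)
  · apply PTime.of_poly
    have hf : Pool.Agent.NPC.Poly (fun p : List Bool × List Bool => p.1) :=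
      Pool.Agent.NPC.Poly.fst Pool.Agent.NPC.Poly.id
    have hr : Pool.Agent.NPC.Poly (fun p : List Bool × List Bool =>
        List.range (min (d p.1.length) p.1.length)) := (hddU.comp hf).range
    have e1 : Pool.Agent.NPC.Poly (fun p : List Bool × List Bool =>
        L2_half1 (min (d p.1.length) p.1.length) p.2) :=
      Pool.Agent.NPC.Poly.map (γ := Bool) hr
        (F := fun (p : List Bool × List Bool) (i : ℕ) => p.2.getD i false)
        (Pool.Agent.NPC.Poly.getD
          (Pool.Agent.NPC.Poly.snd (Pool.Agent.NPC.Poly.fst Pool.Agent.NPC.Poly.id))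
          (Pool.Agent.NPC.Poly.snd Pool.Agent.NPC.Poly.id) (Pool.Agent.NPC.Poly.const false))
    have e2 : Pool.Agent.NPC.Poly (fun p : List Bool × List Bool =>
        L2_half2 (min (d p.1.length) p.1.length) p.2) :=
      Pool.Agent.NPC.Poly.map (γ := Bool) hr
        (F := fun (p : List Bool × List Bool) (i : ℕ) =>
          p.2.getD (min (d p.1.length) p.1.length + i) false)
        (Pool.Agent.NPC.Poly.getD
          (Pool.Agent.NPC.Poly.snd (Pool.Agent.NPC.Poly.fst Pool.Agent.NPC.Poly.id))
          (Pool.Agent.NPC.Poly.add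
            (hddP.comp (Pool.Agent.NPC.Poly.fst (Pool.Agent.NPC.Poly.fst
              Pool.Agent.NPC.Poly.id)))
            (Pool.Agent.NPC.Poly.snd Pool.Agent.NPC.Poly.id))
          (Pool.Agent.NPC.Poly.const false))
    have e3 : Pool.Agent.NPC.Poly (fun p : List Bool × List Bool =>
        G p.1.length (L2_half1 (min (d p.1.length) p.1.length) p.2)) :=
      hGP.comp (Pool.Agent.NPC.Poly.pair hf e1)
    have e4 : Pool.Agent.NPC.Poly (fun p : List Bool × List Bool =>
        G p.1.length (L2_half2 (min (d p.1.length) p.1.length) p.2)) :=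
      hGP.comp (Pool.Agent.NPC.Poly.pair hf e2)
    have hrm : Pool.Agent.NPC.Poly (fun p : List Bool × List Bool =>
        List.range p.1.length) := (UPoly.length hf).range
    exact Pool.Agent.NPC.Poly.map hrm (F := fun p i =>
        xor ((G p.1.length (L2_half1 (min (d p.1.length) p.1.length) p.2)).getD i false)
        ((G p.1.length (L2_half2 (min (d p.1.length) p.1.length) p.2)).getD i false))
      (Pool.Agent.NPC.Poly.xor
        (Pool.Agent.NPC.Poly.getD (e3.comp (Pool.Agent.NPC.Poly.fst Pool.Agent.NPC.Poly.id))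
          (Pool.Agent.NPC.Poly.snd Pool.Agent.NPC.Poly.id) (Pool.Agent.NPC.Poly.const false))
        (Pool.Agent.NPC.Poly.getD (e4.comp (Pool.Agent.NPC.Poly.fst Pool.Agent.NPC.Poly.id))
          (Pool.Agent.NPC.Poly.snd Pool.Agent.NPC.Poly.id) (Pool.Agent.NPC.Poly.const false)))
  · intro m hm
    have hm1 : m₀ ≤ m := le_trans (le_max_left _ _) hm
    have hm2 : 2 ^ (2 * c + 4) ≤ m :=
      le_trans (le_trans (le_max_left _ _) (le_max_right _ _)) hm
    have hm3 : K + 2 * K * (K + 1) + 1 ≤ m :=
      le_trans (le_trans (le_max_right _ _) (le_max_right _ _)) hm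
    obtain ⟨g1, g2, g3, g4⟩ := hm₀ m hm1
    have hddm : min (d m) m = d m := min_eq_left g2.le
    have hfin : ∀ k : ℕ, k = d m → (k + k ≤ 2 * c * Nat.log 2 m ∧ k + k < m ∧
        (∀ s : List Bool, s.length = k + k → (L2_gen k G m s).length = m) ∧
        ∀ C ∈ T0 1 m, |pr (fun s : Fin (k + k) → Bool =>
          C (vec m (L2_gen k G m (List.ofFn s)))) - pr C| ≤ 2 * ε ^ 2 + 4 * δ) := by
      intro k hk
      subst hk
      refine ⟨?_, ?_, ?_, ?_⟩
      · calc d m + d m ≤ c * Nat.log 2 m + c * Nat.log 2 m := add_le_add g1 g1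
          _ = 2 * c * Nat.log 2 m := by ring
      · have := L2_log (2 * c) m hm2
        calc d m + d m ≤ c * Nat.log 2 m + c * Nat.log 2 m := add_le_add g1 g1
          _ = 2 * c * Nat.log 2 m := by ring
          _ < m := this
      · intro s _
        simp [L2_gen]
      · intro C hC
        have hC' : Comp0 m m C := by
          have : Comp0 m (m ^ 1) C := hC
          rwa [pow_one] at this
        rw [L2_match]
        exact L2_core h1 h2 h3 ε δ hε0 hε1 hδ0 hδ1 K m (d m) hK12 hK1 hm3
          (fun w => vec m (G m (List.ofFn w))) (fun D hD => g4 D hD) C hC'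
    exact hfin _ hddm

end Pool.Agent.H547R7
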