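import Pool.Agent.H547R7.Stm2

set_option autoImplicit false

namespace Pool.Agent.H547R7

open Pool.Agent.H547R6 Pool.Agent.NPC Pool.Agent.H424R2.PPAD

theorem t_L3 (h0 : S_L0) (h1 : S_ORG) : S_L3 := by
  intro B ε hB h
  obtain ⟨d, G, hd, hG, c, m₀, H⟩ := h0 2 ε (by norm_num) h
  obtain ⟨k, hk⟩ := h1 B hB
  refine ⟨d, G, hd, hG, c, max m₀ (max k 1), fun m hm => ?_⟩
  have hm1 : m₀ ≤ m := (le_max_left _ _).trans hm
  have hm2 : k ≤ m := ((le_max_left _ _).trans (le_max_right _ _)).trans hm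
  have hm3 : 1 ≤ m := ((le_max_right _ _).trans (le_max_right _ _)).trans hm
  obtain ⟨a1, a2, a3, a4⟩ := H m hm1
  refine ⟨a1, a2, a3, fun C hC => a4 C ?_⟩
  obtain ⟨l, s', b1, b2, b3⟩ := hk m m C hm3 hC
  refine ⟨l, s', b1, b2.trans ?_, b3⟩
  calc k * m ≤ m * m := Nat.mul_le_mul_right _ hm2
    _ = m ^ 2 := by ring

end Pool.Agent.H547R7
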