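import Pool.Agent.H547R7.Stm2

/-!
# Task MOD: choice of a member of a list by a random bit string
-/

set_option autoImplicit false

namespace Pool.Agent.H547R7

open Pool.Agent.H547R6 Pool.Agent.NPC Pool.Agent.H424R2.PPAD

theorem modd_valB_inj : ∀ (l l' : List Bool), l.length = l'.length → valB l = valB l' → l = l'
  | [], [], _, _ => rfl
  | [], _ :: _, h, _ => by simp at h
  | _ :: _, [], h, _ => by simp at h
  | b :: l, b' :: l', h, hv => by
    rw [valB_cons, valB_cons] at hv
    have hb : b = b' := by
      cases b <;> cases b' <;> simp at hv ⊢ <;> omega
    subst hb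
    have h2 : valB l = valB l' := by omega
    rw [modd_valB_inj l l' (by simpa using h) h2]

theorem modd_ofFn_inj {d : ℕ} (s s' : Fin d → Bool)
    (h : valB (List.ofFn s) = valB (List.ofFn s')) : s = s' :=
  List.ofFn_injective (modd_valB_inj _ _ (by simp) h)

theorem modd_image (d : ℕ) : (Finset.univ : Finset (Fin d → Bool)).image
    (fun s => valB (List.ofFn s)) = Finset.range (2 ^ d) := by
  apply Finset.eq_of_subset_of_card_le
  · intro v hv
    obtain ⟨s, -, rfl⟩ := Finset.mem_image.1 hv
    have := valB_lt (List.ofFn s)
    rw [List.length_ofFn] at this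
    exact Finset.mem_range.2 this
  · rw [Finset.card_image_of_injective _ (fun s s' h => modd_ofFn_inj s s' h), Finset.card_range]
    simp

theorem modd_card (d : ℕ) (q : ℕ → Bool) :
    ((Finset.univ : Finset (Fin d → Bool)).filter
      (fun s => q (valB (List.ofFn s)) = true)).card =
    ((Finset.range (2 ^ d)).filter (fun v => q v = true)).card := by
  rw [← modd_image d, Finset.filter_image, Finset.card_image_of_injective _
    (fun s s' h => modd_ofFn_inj s s' h)]

theorem modd_countP {α : Type} (x₀ : α) (p : α → Bool) (D : List α) :
    D.countP p = ((Finset.range D.length).filter (fun j => p (D.getD j x₀) = true)).card := by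
  induction D using List.reverseRecOn with
  | nil => simp
  | append_singleton l x ih =>
    rw [List.countP_append, List.length_append, List.length_singleton, Finset.range_add_one,
      Finset.filter_insert, ih]
    have h1 : (Finset.range l.length).filter (fun j => p ((l ++ [x]).getD j x₀) = true) =
        (Finset.range l.length).filter (fun j => p (l.getD j x₀) = true) := by
      apply Finset.filter_congr
      intro j hj
      have hj' : j < l.length := Finset.mem_range.1 hj
      rw [List.getD_append _ _ _ _ hj']
    have h2 : (l ++ [x]).getD l.length x₀ = x := by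
      rw [List.getD_append_right _ _ _ _ le_rfl]
      simp
    rw [h1, h2]
    by_cases hx : p x = true
    · rw [if_pos hx, Finset.card_insert_of_notMem (by simp)]
      simp [hx]
    · rw [if_neg hx]
      simp [hx]

theorem modd_step (L : ℕ) (q : ℕ → Bool) (hq : ∀ v, q (v + L) = q v) (N : ℕ) :
    ((Finset.range (N + L)).filter (fun v => q v = true)).card =
      ((Finset.range N).filter (fun v => q v = true)).card +
      ((Finset.range L).filter (fun v => q v = true)).card := by
  have hper : Function.Periodic (fun v => q v = true) L := by
    intro v
    simp only [hq v]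
  have h1 := Nat.filter_Ico_card_eq_of_periodic N L (fun v => q v = true) hper
  have h2 : (Finset.range (N + L)).filter (fun v => q v = true) =
      (Finset.range N).filter (fun v => q v = true) ∪
        (Finset.Ico N (N + L)).filter (fun v => q v = true) := by
    rw [← Finset.filter_union]
    congr 1
    ext v
    simp only [Finset.mem_range, Finset.mem_union, Finset.mem_Ico]
    omega
  have h3 : Disjoint ((Finset.range N).filter (fun v => q v = true))
      ((Finset.Ico N (N + L)).filter (fun v => q v = true)) := by
    rw [Finset.disjoint_left]
    intro v hv hv'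
    have := Finset.mem_range.1 (Finset.mem_filter.1 hv).1
    have := (Finset.mem_Ico.1 (Finset.mem_filter.1 hv').1).1
    omega
  rw [h2, Finset.card_union_of_disjoint h3, h1, Nat.count_eq_card_filter_range]

theorem modd_bound (L : ℕ) (hL : 0 < L) (q : ℕ → Bool) (hq : ∀ v, q (v + L) = q v) (N : ℕ) :
    ((Finset.range L).filter (fun v => q v = true)).card * N ≤
      L * ((Finset.range N).filter (fun v => q v = true)).card + L * L ∧
    L * ((Finset.range N).filter (fun v => q v = true)).card ≤
      ((Finset.range L).filter (fun v => q v = true)).card * N + L * L := by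
  induction N using Nat.strong_induction_on with
  | _ N ih =>
    by_cases hN : N < L
    · have h1 : ((Finset.range L).filter (fun v => q v = true)).card ≤ L := by
        refine (Finset.card_filter_le _ _).trans ?_
        rw [Finset.card_range]
      have h2 : ((Finset.range N).filter (fun v => q v = true)).card ≤ N := by
        refine (Finset.card_filter_le _ _).trans ?_
        rw [Finset.card_range]
      constructor
      · exact (Nat.mul_le_mul h1 hN.le).trans (Nat.le_add_left _ _)
      · exact (Nat.mul_le_mul le_rfl (h2.trans hN.le)).trans (Nat.le_add_left _ _)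
    · obtain ⟨M, rfl⟩ : ∃ M, N = M + L := ⟨N - L, by omega⟩
      obtain ⟨h1, h2⟩ := ih M (by omega)
      rw [modd_step L q hq M]
      constructor
      · nlinarith
      · nlinarith

theorem t_MOD : S_MOD := by
  intro α x₀ D p d hD
  have hL : 0 < D.length := List.length_pos_of_ne_nil hD
  set q : ℕ → Bool := fun v => p (D.getD (v % D.length) x₀) with hqd
  have hq : ∀ v, q (v + D.length) = q v := by
    intro v
    simp only [hqd, Nat.add_mod_right]
  have hc : D.countP p = ((Finset.range D.length).filter (fun v => q v = true)).card := by
    rw [modd_countP x₀ p D]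
    congr 1
    apply Finset.filter_congr
    intro j hj
    have hj' : j < D.length := Finset.mem_range.1 hj
    simp only [hqd, Nat.mod_eq_of_lt hj']
  obtain ⟨h1, h2⟩ := modd_bound D.length hL q hq (2 ^ d)
  have h3 : pr (fun s : Fin d → Bool => p (D.getD (valB (List.ofFn s) % D.length) x₀)) =
      (((Finset.range (2 ^ d)).filter (fun v => q v = true)).card : ℝ) / 2 ^ d := by
    unfold pr
    rw [← modd_card d q]
    simp [hqd]
  rw [h3]
  unfold cp
  rw [hc]
  set A := ((Finset.range (2 ^ d)).filter (fun v => q v = true)).card with hA
  set B := ((Finset.range D.length).filter (fun v => q v = true)).card with hB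
  have hL' : (0 : ℝ) < D.length := by exact_mod_cast hL
  have hd' : (0 : ℝ) < 2 ^ d := by positivity
  have h1' : (B : ℝ) * 2 ^ d ≤ D.length * A + D.length * D.length := by exact_mod_cast h1
  have h2' : (D.length : ℝ) * A ≤ B * 2 ^ d + D.length * D.length := by exact_mod_cast h2
  have e1 : (A : ℝ) / 2 ^ d - B / D.length = (D.length * A - B * 2 ^ d) / (2 ^ d * D.length) := by
    field_simp
  have e2 : (D.length : ℝ) / 2 ^ d = (D.length * D.length) / (2 ^ d * D.length) := by
    field_simp
  rw [e1, e2, abs_div, abs_of_pos (mul_pos hd' hL')]
  apply div_le_div_of_nonneg_right _ (mul_pos hd' hL').le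
  rw [abs_le]
  constructor <;> linarith

end Pool.Agent.H547R7
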