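import Pool.Agent.H547R7.Stm

/-!
# Task ORG: every finite gate set is simulated by AND, OR, NOT with a constant factor
-/

set_option autoImplicit false

namespace Pool.Agent.H547R7

open Pool.Agent.H547R6 Pool.Agent.NPC Pool.Agent.H424R2.PPAD

theorem ORG_cons {n : ℕ} {l : List (BF n)} {f : BF n} (g : BF n) (h : Avail l f) :
    Avail (g :: l) f := by
  rcases h with h | h
  · exact Or.inl (List.mem_cons_of_mem _ h)
  · exact Or.inr h

theorem ORG_self {n : ℕ} (l : List (BF n)) (g : BF n) : Avail (g :: l) g :=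
  Or.inl List.mem_cons_self

/-- simulation of one gate -/
def ORG_Sim (k : ℕ) (f : (Fin k → Bool) → Bool) (c : ℕ) : Prop :=
  ∀ (n : ℕ), 1 ≤ n → ∀ (s : ℕ) (l : List (BF n)), AON n s l → ∀ a : Fin k → BF n,
    (∀ j, Avail l (a j)) →
    ∃ (L : List (BF n)) (s' : ℕ), AON n s' L ∧ s' ≤ s + c ∧ (∀ g, Avail l g → Avail L g) ∧
      Avail L (fun x => f fun j => a j x)

theorem ORG_sim (k : ℕ) : ∀ f : (Fin k → Bool) → Bool, ∃ c, ORG_Sim k f c := by
  induction k with
  | zero =>
    intro f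
    refine ⟨1, ?_⟩
    intro n hn s l hl a _
    have hx : Avail l (fun x : Fin n → Bool => x ⟨0, by omega⟩) := Or.inr ⟨_, rfl⟩
    have h1 := AON.not s l _ hl hx
    have h2 := AON.and s _ _ _ h1 (ORG_cons _ hx) (ORG_self _ _)
    have hconst : ∀ x : Fin n → Bool, (f fun j => a j x) = f Fin.elim0 := by
      intro x
      congr 1
      funext j
      exact j.elim0
    by_cases hb : f Fin.elim0 = false
    · refine ⟨_, s + 1, h2, le_refl _, fun g hg => ORG_cons _ (ORG_cons _ hg), ?_⟩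
      have e : (fun x : Fin n → Bool => f fun j => a j x) =
          (fun x : Fin n → Bool => x ⟨0, by omega⟩ && !x ⟨0, by omega⟩) := by
        funext x
        rw [hconst, hb, Bool.and_not_self]
      rw [e]
      exact ORG_self _ _
    · have hb' : f Fin.elim0 = true := by simpa using hb
      have h3 := AON.not _ _ _ h2 (ORG_self _ _)
      refine ⟨_, s + 1, h3, le_refl _, fun g hg => ORG_cons _ (ORG_cons _ (ORG_cons _ hg)), ?_⟩
      have e : (fun x : Fin n → Bool => f fun j => a j x) =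
          (fun x : Fin n → Bool => !(x ⟨0, by omega⟩ && !x ⟨0, by omega⟩)) := by
        funext x
        rw [hconst, hb', Bool.and_not_self]
        rfl
      rw [e]
      exact ORG_self _ _
  | succ k ih =>
    intro f
    obtain ⟨c1, H1⟩ := ih (fun y => f (Fin.cons true y))
    obtain ⟨c0, H0⟩ := ih (fun y => f (Fin.cons false y))
    refine ⟨c1 + c0 + 3, ?_⟩
    intro n hn s l hl a ha
    obtain ⟨l1, s1, hA1, hs1, hm1, hv1⟩ := H1 n hn s l hl (fun j => a j.succ) (fun j => ha j.succ)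
    obtain ⟨l0, s0, hA0, hs0, hm0, hv0⟩ := H0 n hn s1 l1 hA1 (fun j => a j.succ)
      (fun j => hm1 _ (ha j.succ))
    have ha0 : Avail l0 (a 0) := hm0 _ (hm1 _ (ha 0))
    have g1 := AON.and _ _ _ _ hA0 ha0 (hm0 _ hv1)
    have g2 := AON.not _ _ _ g1 (ORG_cons _ ha0)
    have g3 := AON.and _ _ _ _ g2 (ORG_self _ _) (ORG_cons _ (ORG_cons _ hv0))
    have g4 := AON.or _ _ _ _ g3 (ORG_cons _ (ORG_cons _ (ORG_self _ _))) (ORG_self _ _)
    refine ⟨_, _, g4, by omega, fun g hg =>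
      ORG_cons _ (ORG_cons _ (ORG_cons _ (ORG_cons _ (hm0 _ (hm1 _ hg))))), ?_⟩
    have e : (fun x : Fin n → Bool => f fun j => a j x) =
        (fun x => (a 0 x && f (Fin.cons true fun j => a j.succ x)) ||
          (!a 0 x && f (Fin.cons false fun j => a j.succ x))) := by
      funext x
      have hc : (fun j => a j x) = (Fin.cons (a 0 x) (fun j => a j.succ x) : Fin (k + 1) → Bool) := by
        funext j
        refine Fin.cases ?_ (fun i => ?_) j <;> simp
      rw [hc]
      cases a 0 x <;> simp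
    rw [e]
    exact ORG_self _ _

theorem ORG_sim_mono {k : ℕ} {f : (Fin k → Bool) → Bool} {c c' : ℕ} (h : ORG_Sim k f c)
    (hc : c ≤ c') : ORG_Sim k f c' := by
  intro n hn s l hl a ha
  obtain ⟨L, s', h1, h2, h3⟩ := h n hn s l hl a ha
  exact ⟨L, s', h1, by omega, h3⟩

theorem ORG_fin {B : Set BFun} (hB : B.Finite) : ∃ c, ∀ f ∈ B, ORG_Sim f.1 f.2 c := by
  classical
  choose F hF using fun f : BFun => ORG_sim f.1 f.2
  refine ⟨∑ f ∈ hB.toFinset, F f, ?_⟩
  intro f hf
  apply ORG_sim_mono (hF f)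
  exact Finset.single_le_sum (f := F) (fun _ _ => Nat.zero_le _) (hB.mem_toFinset.mpr hf)

theorem ORG_gates {B : Set BFun} {c : ℕ} (hc : ∀ f ∈ B, ORG_Sim f.1 f.2 c) {n : ℕ} (hn : 1 ≤ n)
    {l : List (BF n)} (h : Gates B n l) :
    ∃ (L : List (BF n)) (s' : ℕ), AON n s' L ∧ s' ≤ c * l.length ∧ ∀ f, Avail l f → Avail L f := by
  induction h with
  | nil => exact ⟨[], 0, AON.nil, by simp, fun f hf => hf⟩
  | gate l k f g hf hg hl ih =>
    obtain ⟨L, s, hA, hs, hv⟩ := ih
    obtain ⟨L', s', h1, h2, h3, h4⟩ := hc ⟨k, f⟩ hf n hn s L hA g (fun j => hv _ (hg j))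
    refine ⟨L', s', h1, ?_, ?_⟩
    · rw [List.length_cons, Nat.mul_succ]
      omega
    · intro f' hf'
      rcases hf' with hf' | hf'
      · rcases List.mem_cons.mp hf' with rfl | hf'
        · exact h4
        · exact h3 _ (hv _ (Or.inl hf'))
      · exact Or.inr hf'

theorem t_ORG : S_ORG := by
  intro B hB
  obtain ⟨c, hc⟩ := ORG_fin hB
  refine ⟨c, ?_⟩
  intro n s C hn hC
  obtain ⟨l, hl, hls, hlC⟩ := hC
  obtain ⟨L, s', h1, h2, h3⟩ := ORG_gates hc hn hl
  exact ⟨L, s', h1, h2.trans (Nat.mul_le_mul_left _ hls), h3 C hlC⟩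

end Pool.Agent.H547R7
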