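import Pool.Agent.H547R7.Stm2

set_option autoImplicit false

namespace Pool.Agent.H547R7

open Pool.Agent.H547R6 Pool.Agent.NPC Pool.Agent.H424R2.PPAD

theorem PRJ_equiv {Ω Ω' : Type} [Fintype Ω] [Fintype Ω'] (e : Ω ≃ Ω') (p : Ω' → Bool) :
    pr (fun w => p (e w)) = pr p := by
  unfold pr
  have h : (Finset.univ.filter fun w : Ω => p (e w) = true).card =
      (Finset.univ.filter fun w : Ω' => p w = true).card := by
    apply Finset.card_bij (fun w _ => e w)
    · intro a ha
      simpa using ha
    · intro a _ b _ hab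
      exact e.injective hab
    · intro b hb
      exact ⟨e.symm b, by simpa using hb, by simp⟩
  rw [h, Fintype.card_congr e]

theorem PRJ_fst {Ω Ω' : Type} [Fintype Ω] [Fintype Ω'] [Nonempty Ω'] (p : Ω → Bool) :
    pr (fun w : Ω × Ω' => p w.1) = pr p := by
  unfold pr
  have h : (Finset.univ.filter fun w : Ω × Ω' => p w.1 = true) =
      (Finset.univ.filter fun w : Ω => p w = true) ×ˢ (Finset.univ : Finset Ω') := by
    ext w
    simp
  rw [h, Finset.card_product, Fintype.card_prod, Finset.card_univ]
  push_cast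
  have h0 : (Fintype.card Ω' : ℝ) ≠ 0 := by
    have := Fintype.card_pos (α := Ω')
    exact_mod_cast this.ne'
  rw [mul_div_mul_right _ _ h0]

theorem PRJ_bool {Ω : Type} [Fintype Ω] (p : Ω → Bool) :
    pr (fun w : Bool × Ω => w.1 && p w.2) = pr p / 2 := by
  unfold pr
  have h : (Finset.univ.filter fun w : Bool × Ω => (w.1 && p w.2) = true) =
      ({true} : Finset Bool) ×ˢ (Finset.univ.filter fun w : Ω => p w = true) := by
    ext w
    rw [Finset.mem_filter, Finset.mem_product, Finset.mem_filter, Finset.mem_singleton,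
      Bool.and_eq_true]
    constructor
    · rintro ⟨_, h1, h2⟩
      exact ⟨h1, Finset.mem_univ _, h2⟩
    · rintro ⟨h1, _, h2⟩
      exact ⟨Finset.mem_univ _, h1, h2⟩
  rw [h, Finset.card_product, Fintype.card_prod, Finset.card_singleton, Fintype.card_bool]
  push_cast
  rw [one_mul, div_div, mul_comm]

theorem t_PRJ : S_PRJ := by
  constructor
  · intro n N h f
    obtain ⟨k, rfl⟩ := Nat.exists_eq_add_of_le h
    have e := PRJ_equiv (Fin.appendEquiv n k (α := Bool)).symm
      (fun w : (Fin n → Bool) × (Fin k → Bool) => f w.1)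
    rw [PRJ_fst] at e
    rw [← e]
    rfl
  · intro n f
    have e := PRJ_equiv (Fin.consEquiv (fun _ : Fin (n + 1) => Bool)).symm
      (fun w : Bool × (Fin n → Bool) => w.1 && f w.2)
    rw [PRJ_bool] at e
    rw [← e]
    rfl

end Pool.Agent.H547R7
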