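import Pool.Agent.H547R7.Stm

set_option autoImplicit false

namespace Pool.Agent.H547R7

open Pool.Agent.H547R6 Pool.Agent.NPC Pool.Agent.H424R2.PPAD

theorem SAM_mgf {Ω : Type} [Fintype Ω] [Nonempty Ω] (g : Ω → Bool) (T : ℕ) (l : ℝ)
    (hl0 : 0 ≤ l) (hl1 : l ≤ 1) :
    ∑ s : Fin T → Ω, Real.exp (l * ((Finset.univ.filter fun i => g (s i) = true).card : ℝ)) ≤
      (Fintype.card Ω : ℝ) ^ T * Real.exp (T * (pr g * (l + l ^ 2))) := by
  have hΩ : (0 : ℝ) < Fintype.card Ω := by exact_mod_cast Fintype.card_pos
  have h1 : ∀ s : Fin T → Ω,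
      Real.exp (l * ((Finset.univ.filter fun i => g (s i) = true).card : ℝ)) =
      ∏ i, (if g (s i) = true then Real.exp l else 1) := by
    intro s
    rw [Finset.prod_ite, Finset.prod_const, Finset.prod_const_one, mul_one, ← Real.exp_nat_mul,
      mul_comm]
  rw [Finset.sum_congr rfl fun s _ => h1 s,
    ← Fintype.sum_pow (fun w : Ω => if g w = true then Real.exp l else 1) T]
  have h2 : ∑ w : Ω, (if g w = true then Real.exp l else 1) =
      Fintype.card Ω * (1 + pr g * (Real.exp l - 1)) := by
    have h3 : ∀ w : Ω, (if g w = true then Real.exp l else 1) =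
        1 + (if g w = true then Real.exp l - 1 else 0) := by
      intro w
      split_ifs <;> ring
    rw [Finset.sum_congr rfl fun w _ => h3 w, Finset.sum_add_distrib, Finset.sum_ite,
      Finset.sum_const, Finset.sum_const_zero, Finset.sum_const, Finset.card_univ]
    unfold pr
    simp only [nsmul_eq_mul, mul_one, add_zero]
    field_simp
  have hpr : 0 ≤ pr g := by
    unfold pr
    positivity
  have h4 : 1 + pr g * (Real.exp l - 1) ≤ Real.exp (pr g * (l + l ^ 2)) := by
    have h5 : Real.exp l - 1 ≤ l + l ^ 2 := by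
      have := Real.abs_exp_sub_one_sub_id_le (x := l) (by rwa [abs_of_nonneg hl0])
      have := (abs_le.1 this).2
      linarith
    have h6 := Real.add_one_le_exp (pr g * (l + l ^ 2))
    have h7 := mul_le_mul_of_nonneg_left h5 hpr
    linarith
  have h8 : 0 ≤ 1 + pr g * (Real.exp l - 1) := by
    have : 0 ≤ Real.exp l - 1 := by
      have := Real.add_one_le_exp l
      linarith
    positivity
  rw [h2, mul_pow, Real.exp_nat_mul]
  exact mul_le_mul_of_nonneg_left (pow_le_pow_left₀ h8 h4 T) (by positivity)

theorem SAM_tail {Ω : Type} [Fintype Ω] [Nonempty Ω] (g : Ω → Bool) (T : ℕ) (δ : ℝ)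
    (hδ : 0 < δ) (hδ1 : δ ≤ 1) :
    ((Finset.univ.filter fun s : Fin T → Ω => T * (pr g + δ) <
      ((Finset.univ.filter fun i => g (s i) = true).card : ℝ)).card : ℝ) ≤
      (Fintype.card Ω : ℝ) ^ T * Real.exp (-(T * δ ^ 2 / 4)) := by
  have h1 := SAM_mgf g T (δ / 2) (by linarith) (by linarith)
  have hpr : 0 ≤ pr g := by
    unfold pr
    positivity
  have hpr1 : pr g ≤ 1 := by
    unfold pr
    rw [div_le_one (by exact_mod_cast Fintype.card_pos)]
    exact_mod_cast Finset.card_filter_le _ _
  have h2 : ((Finset.univ.filter fun s : Fin T → Ω => T * (pr g + δ) <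
      ((Finset.univ.filter fun i => g (s i) = true).card : ℝ)).card : ℝ) *
      Real.exp (δ / 2 * (T * (pr g + δ))) ≤
      ∑ s : Fin T → Ω, Real.exp (δ / 2 * ((Finset.univ.filter fun i => g (s i) = true).card : ℝ)) := by
    rw [← nsmul_eq_mul, ← Finset.sum_const]
    refine le_trans (Finset.sum_le_sum fun s hs => ?_)
      (Finset.sum_le_sum_of_subset_of_nonneg (Finset.filter_subset _ _)
        fun s _ _ => (Real.exp_pos _).le)
    apply Real.exp_le_exp.2
    exact mul_le_mul_of_nonneg_left (Finset.mem_filter.1 hs).2.le (by linarith)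
  have h3 := h2.trans h1
  rw [← le_div_iff₀ (Real.exp_pos _)] at h3
  refine h3.trans ?_
  rw [mul_div_assoc, ← Real.exp_sub]
  refine mul_le_mul_of_nonneg_left (Real.exp_le_exp.2 ?_) (by positivity)
  have hT : (0 : ℝ) ≤ T := Nat.cast_nonneg T
  have h4 : pr g * δ ^ 2 ≤ δ ^ 2 := by
    have := sq_nonneg δ
    nlinarith
  nlinarith

theorem t_SAM : S_SAM := by
  classical
  intro Ω Y _ _ _ h n T δ hδ hδ1 hY hT
  have hTpos : 0 < T := by
    rcases Nat.eq_zero_or_pos T with h0 | h0
    · subst h0
      have : (0 : ℝ) ≤ n := Nat.cast_nonneg n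
      norm_num at hT
      linarith
    · exact h0
  have hTr : (0 : ℝ) < T := by exact_mod_cast hTpos
  have hΩ : (0 : ℝ) < Fintype.card Ω := by exact_mod_cast Fintype.card_pos
  by_contra hno
  push Not at hno
  let A : (Ω → Bool) → Finset (Fin T → Ω) := fun g => Finset.univ.filter fun s : Fin T → Ω =>
    T * (pr g + δ) < ((Finset.univ.filter fun i => g (s i) = true).card : ℝ)
  have hAle : ∀ g, ((A g).card : ℝ) ≤ (Fintype.card Ω : ℝ) ^ T * Real.exp (-(n + 2)) := by
    intro g
    refine (SAM_tail g T δ hδ hδ1).trans ?_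
    refine mul_le_mul_of_nonneg_left (Real.exp_le_exp.2 ?_) (by positivity)
    linarith
  have hprn : ∀ g : Ω → Bool, pr (fun w => !g w) = 1 - pr g := by
    intro g
    unfold pr
    have h1 := Finset.card_filter_add_card_filter_not (s := (Finset.univ : Finset Ω))
      (p := fun x => g x = true)
    have h2 : (Finset.univ.filter fun x => (!g x) = true) =
        Finset.univ.filter fun x => ¬ g x = true := by
      ext x
      simp
    rw [h2, eq_sub_iff_add_eq, ← add_div, div_eq_one_iff_eq hΩ.ne', ← Finset.card_univ, ← h1]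
    push_cast
    ring
  have hNn : ∀ (g : Ω → Bool) (s : Fin T → Ω),
      ((Finset.univ.filter fun i => (!g (s i)) = true).card : ℝ) =
      T - ((Finset.univ.filter fun i => g (s i) = true).card : ℝ) := by
    intro g s
    have h1 := Finset.card_filter_add_card_filter_not (s := (Finset.univ : Finset (Fin T)))
      (p := fun i => g (s i) = true)
    have h2 : (Finset.univ.filter fun i => (!g (s i)) = true) =
        Finset.univ.filter fun i => ¬ g (s i) = true := by
      ext x
      simp
    rw [Finset.card_univ, Fintype.card_fin] at h1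
    rw [h2, eq_sub_iff_add_eq]
    have h3 : ((Finset.univ.filter fun i => g (s i) = true).card : ℝ) +
        ((Finset.univ.filter fun i => ¬ g (s i) = true).card : ℝ) = T := by exact_mod_cast h1
    linarith
  have hcov : (Finset.univ : Finset (Fin T → Ω)) ⊆
      Finset.univ.biUnion fun y : Y => A (h y) ∪ A (fun w => !h y w) := by
    intro s _
    obtain ⟨y, hy⟩ := hno s
    refine Finset.mem_biUnion.2 ⟨y, Finset.mem_univ _, Finset.mem_union.2 ?_⟩
    rcases lt_abs.1 hy with h1 | h1
    · left
      refine Finset.mem_filter.2 ⟨Finset.mem_univ _, ?_⟩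
      have h2 : pr (h y) + δ < ((Finset.univ.filter fun i => h y (s i) = true).card : ℝ) / T := by
        linarith
      rw [lt_div_iff₀ hTr] at h2
      linarith
    · right
      refine Finset.mem_filter.2 ⟨Finset.mem_univ _, ?_⟩
      rw [hNn, hprn]
      have h2 : ((Finset.univ.filter fun i => h y (s i) = true).card : ℝ) / T < pr (h y) - δ := by
        linarith
      rw [div_lt_iff₀ hTr] at h2
      linarith
  have hcard : (Fintype.card Ω : ℝ) ^ T ≤
      2 ^ n * (2 * ((Fintype.card Ω : ℝ) ^ T * Real.exp (-(n + 2)))) := by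
    have h1 := Finset.card_le_card hcov
    have h2 : (Finset.univ : Finset (Fin T → Ω)).card = Fintype.card Ω ^ T := by
      rw [Finset.card_univ, Fintype.card_fun, Fintype.card_fin]
    have h3 : ((Finset.univ : Finset (Fin T → Ω)).card : ℝ) ≤
        ∑ y : Y, (2 * ((Fintype.card Ω : ℝ) ^ T * Real.exp (-(n + 2)))) := by
      have h4 : ((Finset.univ : Finset (Fin T → Ω)).card : ℝ) ≤
          ((Finset.univ.biUnion fun y : Y => A (h y) ∪ A (fun w => !h y w)).card : ℝ) := by
        exact_mod_cast h1
      refine h4.trans ?_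
      have h5 : ((Finset.univ.biUnion fun y : Y => A (h y) ∪ A (fun w => !h y w)).card : ℝ) ≤
          ∑ y : Y, ((A (h y) ∪ A (fun w => !h y w)).card : ℝ) := by
        exact_mod_cast Finset.card_biUnion_le
      refine h5.trans (Finset.sum_le_sum fun y _ => ?_)
      have h6 : ((A (h y) ∪ A (fun w => !h y w)).card : ℝ) ≤
          ((A (h y)).card : ℝ) + ((A (fun w => !h y w)).card : ℝ) := by
        exact_mod_cast Finset.card_union_le _ _
      have h7 := hAle (h y)
      have h8 := hAle (fun w => !h y w)
      linarith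
    rw [h2, Finset.sum_const, Finset.card_univ, nsmul_eq_mul] at h3
    push_cast at h3
    refine h3.trans (mul_le_mul_of_nonneg_right ?_ (by positivity))
    exact_mod_cast hY
  have hexp : (2 : ℝ) ^ n * (2 * Real.exp (-(n + 2))) < 1 := by
    have h1 : (2 : ℝ) ^ (n + 2) ≤ Real.exp (n + 2) := by
      have h2 : (2 : ℝ) ≤ Real.exp 1 := by
        have := Real.add_one_le_exp (1 : ℝ)
        linarith
      have h3 := pow_le_pow_left₀ (by norm_num : (0:ℝ) ≤ 2) h2 (n + 2)
      rw [← Real.exp_nat_mul, mul_one] at h3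
      push_cast at h3
      exact h3
    rw [Real.exp_neg, ← mul_assoc, ← div_eq_mul_inv, div_lt_one (Real.exp_pos _)]
    refine lt_of_lt_of_le ?_ h1
    rw [pow_add]
    have : (0 : ℝ) < 2 ^ n := by positivity
    nlinarith
  have hpos : (0 : ℝ) < (Fintype.card Ω : ℝ) ^ T := by positivity
  have h9 := mul_lt_mul_of_pos_left hexp hpos
  nlinarith

end Pool.Agent.H547R7
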