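import Pool.Agent.H547R7.Stm

/-!
# Slice functions have small monotone circuits
-/

set_option autoImplicit false

namespace Pool.Agent.H547R7

open Pool.Agent.H547R6 Pool.Agent.NPC Pool.Agent.H424R2.PPAD

theorem SLI_avail_mono {n : ℕ} {l : List (BF n)} (l' : List (BF n)) {f : BF n}
    (h : Avail l f) : Avail (l' ++ l) f := by
  rcases h with h | h
  · exact Or.inl (List.mem_append_right _ h)
  · exact Or.inr h

theorem SLI_mca_mono {n : ℕ} {l : List (BF n)} (l' : List (BF n)) {f : BF n}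
    (h : MCa l f) : MCa (l' ++ l) f := by
  rcases h with h | h
  · exact Or.inl h
  · exact Or.inr (SLI_avail_mono l' h)

theorem SLI_mca_congr {n : ℕ} {l : List (BF n)} {f g : BF n} (h : ∀ x, f x = g x)
    (hf : MCa l f) : MCa l g := by
  have : f = g := funext h
  rw [← this]
  exact hf

/-- conjunction -/
theorem SLI_and {n : ℕ} {l : List (BF n)} {a b : BF n} (hl : Gates MB n l) (ha : MCa l a)
    (hb : MCa l b) : ∃ l', Gates MB n (l' ++ l) ∧ l'.length ≤ 1 ∧
      MCa (l' ++ l) (fun x => a x && b x) := by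
  rcases ha with ⟨u, hu⟩ | ha
  · refine ⟨[], hl, by simp, ?_⟩
    cases u
    · exact Or.inl ⟨false, fun x => by simp [hu x]⟩
    · exact SLI_mca_congr (fun x => by simp [hu x]) hb
  · rcases hb with ⟨u, hu⟩ | hb
    · refine ⟨[], hl, by simp, ?_⟩
      cases u
      · exact Or.inl ⟨false, fun x => by simp [hu x]⟩
      · exact SLI_mca_congr (fun x => by simp [hu x]) (Or.inr ha : MCa l a)
    · have h1 : Gates MB n ((fun x => (fun y : Fin 2 → Bool => y 0 && y 1)
          fun j => (![a, b] : Fin 2 → BF n) j x) :: l) := by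
        refine Gates.gate l 2 (fun y => y 0 && y 1) ![a, b] ?_ ?_ hl
        · exact Or.inl rfl
        · intro j
          fin_cases j
          · exact ha
          · exact hb
      refine ⟨[fun x => a x && b x], h1, by simp, ?_⟩
      exact Or.inr (Or.inl (by simp))

/-- disjunction -/
theorem SLI_or {n : ℕ} {l : List (BF n)} {a b : BF n} (hl : Gates MB n l) (ha : MCa l a)
    (hb : MCa l b) : ∃ l', Gates MB n (l' ++ l) ∧ l'.length ≤ 1 ∧
      MCa (l' ++ l) (fun x => a x || b x) := by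
  rcases ha with ⟨u, hu⟩ | ha
  · refine ⟨[], hl, by simp, ?_⟩
    cases u
    · exact SLI_mca_congr (fun x => by simp [hu x]) hb
    · exact Or.inl ⟨true, fun x => by simp [hu x]⟩
  · rcases hb with ⟨u, hu⟩ | hb
    · refine ⟨[], hl, by simp, ?_⟩
      cases u
      · exact SLI_mca_congr (fun x => by simp [hu x]) (Or.inr ha : MCa l a)
      · exact Or.inl ⟨true, fun x => by simp [hu x]⟩
    · have h1 : Gates MB n ((fun x => (fun y : Fin 2 → Bool => y 0 || y 1)
          fun j => (![a, b] : Fin 2 → BF n) j x) :: l) := by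
        refine Gates.gate l 2 (fun y => y 0 || y 1) ![a, b] ?_ ?_ hl
        · exact Or.inr rfl
        · intro j
          fin_cases j
          · exact ha
          · exact hb
      refine ⟨[fun x => a x || b x], h1, by simp, ?_⟩
      exact Or.inr (Or.inl (by simp))

/-- the negation of a variable on the slice -/
def SLI_N (n k : ℕ) (i : Fin n) : BF n := fun x =>
  decide (k ≤ (Finset.univ.filter fun j =>
    (if j = i then (fun _ => false : BF n) else fun x => x j) x = true).card)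

theorem SLI_N_eq (n k : ℕ) (i : Fin n) (x : Fin n → Bool) (hx : wt x = k) :
    SLI_N n k i x = !x i := by
  classical
  unfold SLI_N
  have h1 : (Finset.univ.filter fun j =>
      (if j = i then (fun _ => false : BF n) else fun x => x j) x = true) =
      (Finset.univ.filter fun j => x j = true).erase i := by
    ext j
    by_cases h : j = i
    · simp [h]
    · simp [h]
  rw [h1]
  cases hxi : x i
  · rw [Finset.erase_eq_of_notMem (by simp [hxi])]
    unfold wt at hx
    simp [hx]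
  · have h2 : i ∈ Finset.univ.filter fun j => x j = true := by simp [hxi]
    rw [Finset.card_erase_of_mem h2]
    have h3 : 0 < (Finset.univ.filter fun j => x j = true).card := Finset.card_pos.2 ⟨i, h2⟩
    unfold wt at hx
    simp only [Bool.not_true, decide_eq_false_iff_not]
    omega

theorem SLI_negs (hT : S_THR) (n k : ℕ) (m : ℕ) :
    ∃ l, Gates MB n l ∧ l.length ≤ m * (2 * n * (n + 1)) ∧
      ∀ i : Fin n, (i : ℕ) < m → MCa l (SLI_N n k i) := by
  induction m with
  | zero => exact ⟨[], Gates.nil, by simp, fun i hi => absurd hi (by omega)⟩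
  | succ m ih =>
    obtain ⟨l, hl, hlen, hN⟩ := ih
    by_cases hm : m < n
    · let i₀ : Fin n := ⟨m, hm⟩
      obtain ⟨l', hl', hlen', hN'⟩ := hT n n l
        (fun j => if j = i₀ then (fun _ => false : BF n) else fun x => x j) hl (by
          intro j
          by_cases h : j = i₀
          · exact Or.inl ⟨false, fun x => by simp [h]⟩
          · refine Or.inr (Or.inr ⟨j, ?_⟩)
            simp [h]) k
      refine ⟨l' ++ l, hl', ?_, ?_⟩
      · rw [List.length_append]
        have : (m + 1) * (2 * n * (n + 1)) = m * (2 * n * (n + 1)) + 2 * n * (n + 1) := by ring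
        omega
      · intro i hi
        by_cases h : (i : ℕ) < m
        · exact SLI_mca_mono l' (hN i h)
        · have h2 : i = i₀ := Fin.ext (by simp only [i₀]; omega)
          rw [h2]
          exact hN'
    · refine ⟨l, hl, ?_, fun i hi => hN i (by omega)⟩
      have : (m + 1) * (2 * n * (n + 1)) = m * (2 * n * (n + 1)) + 2 * n * (n + 1) := by ring
      omega

/-- a function and its negation are available on the slice -/
def SLI_P {n : ℕ} (k : ℕ) (L : List (BF n)) (f : BF n) : Prop :=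
  ∃ fp fm : BF n, MCa L fp ∧ MCa L fm ∧ ∀ x, wt x = k → fp x = f x ∧ fm x = !f x

theorem SLI_P_mono {n k : ℕ} {L : List (BF n)} (L' : List (BF n)) {f : BF n}
    (h : SLI_P k L f) : SLI_P k (L' ++ L) f := by
  obtain ⟨fp, fm, h1, h2, h3⟩ := h
  exact ⟨fp, fm, SLI_mca_mono L' h1, SLI_mca_mono L' h2, h3⟩

theorem SLI_P_avail {n k : ℕ} {L l : List (BF n)} (hN : ∀ i : Fin n, MCa L (SLI_N n k i))
    (h : ∀ f ∈ l, SLI_P k L f) {f : BF n} (hf : Avail l f) : SLI_P k L f := by
  rcases hf with hf | ⟨i, rfl⟩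
  · exact h f hf
  · exact ⟨fun x => x i, SLI_N n k i, Or.inr (Or.inr ⟨i, rfl⟩), hN i,
      fun x hx => ⟨rfl, SLI_N_eq n k i x hx⟩⟩

theorem SLI_sim {n k : ℕ} (l0 : List (BF n)) (h0 : Gates MB n l0)
    (hN : ∀ i : Fin n, MCa l0 (SLI_N n k i)) {s : ℕ} {l : List (BF n)} (h : AON n s l) :
    ∃ L, Gates MB n (L ++ l0) ∧ L.length ≤ 2 * s ∧ ∀ f ∈ l, SLI_P k (L ++ l0) f := by
  induction h with
  | nil => exact ⟨[], h0, by simp, fun f hf => absurd hf (by simp)⟩
  | not s l a h ha ih =>
    obtain ⟨L, hL, hlen, hP⟩ := ih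
    refine ⟨L, hL, hlen, ?_⟩
    intro f hf
    rcases List.mem_cons.1 hf with rfl | hf
    · obtain ⟨fp, fm, h1, h2, h3⟩ := SLI_P_avail (fun i => SLI_mca_mono L (hN i)) hP ha
      refine ⟨fm, fp, h2, h1, fun x hx => ⟨(h3 x hx).2, ?_⟩⟩
      rw [(h3 x hx).1, Bool.not_not]
    · exact hP f hf
  | and s l a b h ha hb ih =>
    obtain ⟨L, hL, hlen, hP⟩ := ih
    obtain ⟨ap, am, ha1, ha2, ha3⟩ := SLI_P_avail (fun i => SLI_mca_mono L (hN i)) hP ha
    obtain ⟨bp, bm, hb1, hb2, hb3⟩ := SLI_P_avail (fun i => SLI_mca_mono L (hN i)) hP hb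
    obtain ⟨l1, hl1, hlen1, hf1⟩ := SLI_and hL ha1 hb1
    obtain ⟨l2, hl2, hlen2, hf2⟩ := SLI_or hl1 (SLI_mca_mono l1 ha2) (SLI_mca_mono l1 hb2)
    refine ⟨l2 ++ (l1 ++ L), ?_, ?_, ?_⟩
    · simpa only [List.append_assoc] using hl2
    · rw [List.length_append, List.length_append]; omega
    · intro f hf
      rw [List.append_assoc, List.append_assoc]
      rcases List.mem_cons.1 hf with rfl | hf
      · refine ⟨_, _, SLI_mca_mono l2 hf1, hf2, fun x hx => ⟨?_, ?_⟩⟩
        · simp only [(ha3 x hx).1, (hb3 x hx).1]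
        · simp only [(ha3 x hx).2, (hb3 x hx).2, Bool.not_and]
      · exact SLI_P_mono l2 (SLI_P_mono l1 (hP f hf))
  | or s l a b h ha hb ih =>
    obtain ⟨L, hL, hlen, hP⟩ := ih
    obtain ⟨ap, am, ha1, ha2, ha3⟩ := SLI_P_avail (fun i => SLI_mca_mono L (hN i)) hP ha
    obtain ⟨bp, bm, hb1, hb2, hb3⟩ := SLI_P_avail (fun i => SLI_mca_mono L (hN i)) hP hb
    obtain ⟨l1, hl1, hlen1, hf1⟩ := SLI_or hL ha1 hb1
    obtain ⟨l2, hl2, hlen2, hf2⟩ := SLI_and hl1 (SLI_mca_mono l1 ha2) (SLI_mca_mono l1 hb2)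
    refine ⟨l2 ++ (l1 ++ L), ?_, ?_, ?_⟩
    · simpa only [List.append_assoc] using hl2
    · rw [List.length_append, List.length_append]; omega
    · intro f hf
      rw [List.append_assoc, List.append_assoc]
      rcases List.mem_cons.1 hf with rfl | hf
      · refine ⟨_, _, SLI_mca_mono l2 hf1, hf2, fun x hx => ⟨?_, ?_⟩⟩
        · simp only [(ha3 x hx).1, (hb3 x hx).1]
        · simp only [(ha3 x hx).2, (hb3 x hx).2, Bool.not_or]
      · exact SLI_P_mono l2 (SLI_P_mono l1 (hP f hf))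

theorem t_SLI (h : S_THR) : S_SLI := by
  intro n q k C hC
  obtain ⟨l, s', hl, hs', hCl⟩ := hC
  obtain ⟨l0, hl0, hlen0, hN⟩ := SLI_negs h n k n
  have hN' : ∀ i : Fin n, MCa l0 (SLI_N n k i) := fun i => hN i i.2
  obtain ⟨L, hL, hlenL, hP⟩ := SLI_sim l0 hl0 hN' hl
  obtain ⟨Cp, Cm, hCp, _, hC3⟩ := SLI_P_avail (fun i => SLI_mca_mono L (hN' i)) hP hCl
  obtain ⟨l1, hl1, hlen1, hf1⟩ := h n n (L ++ l0) (fun i x => x i) hL
    (fun i => Or.inr (Or.inr ⟨i, rfl⟩)) (k + 1)
  obtain ⟨l2, hl2, hlen2, hf2⟩ := h n n (l1 ++ (L ++ l0)) (fun i x => x i) hl1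
    (fun i => Or.inr (Or.inr ⟨i, rfl⟩)) k
  obtain ⟨l3, hl3, hlen3, hf3⟩ := SLI_and hl2 hf2 (SLI_mca_mono l2 (SLI_mca_mono l1 hCp))
  obtain ⟨l4, hl4, hlen4, hf4⟩ := SLI_or hl3 (SLI_mca_mono l3 (SLI_mca_mono l2 hf1)) hf3
  have hfin := SLI_mca_congr (g := slice n k C) (fun x => by
    unfold slice
    have e : wt x = (Finset.univ.filter fun i => x i = true).card := rfl
    rw [← e]
    rcases lt_trichotomy (wt x) k with h1 | h1 | h1
    · have a1 : ¬ (k + 1 ≤ wt x) := by omega
      have a2 : ¬ (k ≤ wt x) := by omega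
      have a3 : ¬ (k < wt x) := by omega
      have a4 : ¬ (wt x = k) := by omega
      simp [a1, a2, a3, a4]
    · have a1 : ¬ (k + 1 ≤ wt x) := by omega
      have a2 : k ≤ wt x := by omega
      have a3 : ¬ (k < wt x) := by omega
      simp only [a1, a2, a3, h1, decide_false, decide_true, Bool.false_or, Bool.true_and]
      simp [(hC3 x h1).1]
    · have a1 : k + 1 ≤ wt x := by omega
      have a3 : k < wt x := by omega
      simp [a1, a3]) hf4
  rcases hfin with hfin | hfin
  · exact Or.inl hfin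
  · refine Or.inr ⟨_, hl4, ?_, hfin⟩
    simp only [List.length_append]
    have e1 : n * (2 * n * (n + 1)) + 2 * (2 * n * (n + 1)) + 2 ≤ 4 * (n + 1) ^ 3 := by
      ring_nf
      nlinarith [Nat.zero_le n, Nat.zero_le (n ^ 2), Nat.zero_le (n ^ 3)]
    omega

end Pool.Agent.H547R7
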