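import Pool.Agent.H547R7.Stm

/-!
# THR: thresholds of available functions by monotone circuits
-/

set_option autoImplicit false

namespace Pool.Agent.H547R7

open Pool.Agent.H547R6 Pool.Agent.NPC Pool.Agent.H424R2.PPAD

theorem THR_avail_append {n : ℕ} {l : List (BF n)} {f : BF n} (l' : List (BF n))
    (h : Avail l f) : Avail (l' ++ l) f := by
  rcases h with h | h
  · exact Or.inl (List.mem_append_right _ h)
  · exact Or.inr h

theorem THR_mca_append {n : ℕ} {l : List (BF n)} {f : BF n} (l' : List (BF n))
    (h : MCa l f) : MCa (l' ++ l) f := by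
  rcases h with h | h
  · exact Or.inl h
  · exact Or.inr (THR_avail_append l' h)

theorem THR_and {n : ℕ} {l : List (BF n)} {f g : BF n} (hl : Gates MB n l) (hf : MCa l f)
    (hg : MCa l g) : ∃ l', Gates MB n (l' ++ l) ∧ l'.length ≤ 1 ∧
      MCa (l' ++ l) (fun x => f x && g x) := by
  rcases hf with ⟨b, hb⟩ | hf
  · cases b with
    | false => exact ⟨[], hl, by simp, Or.inl ⟨false, fun x => by simp [hb]⟩⟩
    | true =>
      have e : (fun x => f x && g x) = g := by
        funext x
        simp [hb]
      rw [e]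
      exact ⟨[], hl, by simp, hg⟩
  · rcases hg with ⟨b, hb⟩ | hg
    · cases b with
      | false => exact ⟨[], hl, by simp, Or.inl ⟨false, fun x => by simp [hb]⟩⟩
      | true =>
        have e : (fun x => f x && g x) = f := by
          funext x
          simp [hb]
        rw [e]
        exact ⟨[], hl, by simp, Or.inr hf⟩
    · refine ⟨[fun x => f x && g x], Gates.gate l 2 (fun x => x 0 && x 1) ![f, g] (Or.inl rfl)
        ?_ hl, by simp, Or.inr (Or.inl (by simp))⟩
      intro j
      match j with
      | 0 => exact hf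
      | 1 => exact hg

theorem THR_or {n : ℕ} {l : List (BF n)} {f g : BF n} (hl : Gates MB n l) (hf : MCa l f)
    (hg : MCa l g) : ∃ l', Gates MB n (l' ++ l) ∧ l'.length ≤ 1 ∧
      MCa (l' ++ l) (fun x => f x || g x) := by
  rcases hf with ⟨b, hb⟩ | hf
  · cases b with
    | true => exact ⟨[], hl, by simp, Or.inl ⟨true, fun x => by simp [hb]⟩⟩
    | false =>
      have e : (fun x => f x || g x) = g := by
        funext x
        simp [hb]
      rw [e]
      exact ⟨[], hl, by simp, hg⟩
  · rcases hg with ⟨b, hb⟩ | hg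
    · cases b with
      | true => exact ⟨[], hl, by simp, Or.inl ⟨true, fun x => by simp [hb]⟩⟩
      | false =>
        have e : (fun x => f x || g x) = f := by
          funext x
          simp [hb]
        rw [e]
        exact ⟨[], hl, by simp, Or.inr hf⟩
    · refine ⟨[fun x => f x || g x], Gates.gate l 2 (fun x => x 0 || x 1) ![f, g] (Or.inr rfl)
        ?_ hl, by simp, Or.inr (Or.inl (by simp))⟩
      intro j
      match j with
      | 0 => exact hf
      | 1 => exact hg

/-- the number of true functions among the first `j` ones -/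
def THR_c {n r : ℕ} (g : Fin r → BF n) (j : ℕ) (x : Fin n → Bool) : ℕ :=
  (Finset.univ.filter fun i : Fin r => i.val < j ∧ g i x = true).card

theorem THR_c_succ {n r : ℕ} (g : Fin r → BF n) (j : ℕ) (hj : j < r) (x : Fin n → Bool) :
    THR_c g (j + 1) x = THR_c g j x + (if g ⟨j, hj⟩ x = true then 1 else 0) := by
  unfold THR_c
  by_cases hg : g ⟨j, hj⟩ x = true
  · rw [if_pos hg]
    have e : (Finset.univ.filter fun i : Fin r => i.val < j + 1 ∧ g i x = true) =
        insert ⟨j, hj⟩ (Finset.univ.filter fun i : Fin r => i.val < j ∧ g i x = true) := by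
      ext i
      simp only [Finset.mem_filter, Finset.mem_univ, true_and, Finset.mem_insert]
      constructor
      · rintro ⟨h1, h2⟩
        rcases Nat.lt_succ_iff_lt_or_eq.1 h1 with h | h
        · exact Or.inr ⟨h, h2⟩
        · exact Or.inl (Fin.ext h)
      · rintro (h | ⟨h1, h2⟩)
        · rw [h]
          exact ⟨Nat.lt_succ_self _, hg⟩
        · exact ⟨by omega, h2⟩
    rw [e, Finset.card_insert_of_notMem]
    simp
  · rw [if_neg hg, add_zero]
    congr 1
    ext i
    simp only [Finset.mem_filter, Finset.mem_univ, true_and]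
    constructor
    · rintro ⟨h1, h2⟩
      rcases Nat.lt_succ_iff_lt_or_eq.1 h1 with h | h
      · exact ⟨h, h2⟩
      · exact absurd h2 (by
          have : i = ⟨j, hj⟩ := Fin.ext h
          rw [this]
          exact hg)
    · rintro ⟨h1, h2⟩
      exact ⟨by omega, h2⟩

theorem THR_rec {n r : ℕ} (g : Fin r → BF n) (j : ℕ) (hj : j < r) (t : ℕ) :
    (fun x => decide (t + 1 ≤ THR_c g (j + 1) x)) =
      (fun x => decide (t + 1 ≤ THR_c g j x) || (decide (t ≤ THR_c g j x) && g ⟨j, hj⟩ x)) := by
  funext x
  rw [THR_c_succ g j hj x]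
  cases hg : g ⟨j, hj⟩ x with
  | true =>
    simp only [if_true, Bool.and_true, add_le_add_iff_right]
    by_cases h : t ≤ THR_c g j x
    · simp [h]
    · simp only [h, decide_false, Bool.or_false]
      symm
      rw [decide_eq_false_iff_not]
      omega
  | false => simp

theorem THR_row {n r : ℕ} (g : Fin r → BF n) (j : ℕ) (hj : j < r) (R : ℕ) (l : List (BF n))
    (hl : Gates MB n l) (hg : MCa l (g ⟨j, hj⟩))
    (h : ∀ t, t ≤ R → MCa l (fun x => decide (t ≤ THR_c g j x))) :
    ∀ m, m ≤ R → ∃ l', Gates MB n (l' ++ l) ∧ l'.length ≤ 2 * m ∧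
      ∀ t, t ≤ m → MCa (l' ++ l) (fun x => decide (t ≤ THR_c g (j + 1) x)) := by
  intro m
  induction m with
  | zero =>
    intro _
    refine ⟨[], hl, by simp, ?_⟩
    intro t ht
    obtain rfl : t = 0 := by omega
    exact Or.inl ⟨true, fun x => by simp⟩
  | succ m ih =>
    intro hm
    obtain ⟨l1, h1, h2, h3⟩ := ih (by omega)
    obtain ⟨l2, h4, h5, h6⟩ := THR_and h1 (THR_mca_append l1 (h m (by omega)))
      (THR_mca_append l1 hg)
    obtain ⟨l3, h7, h8, h9⟩ := THR_or h4
      (THR_mca_append l2 (THR_mca_append l1 (h (m + 1) hm))) h6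
    refine ⟨l3 ++ (l2 ++ l1), ?_, ?_, ?_⟩
    · rw [List.append_assoc, List.append_assoc]
      exact h7
    · rw [List.length_append, List.length_append]
      omega
    · intro t ht
      rw [List.append_assoc, List.append_assoc]
      rcases Nat.lt_or_ge t (m + 1) with hlt | hge
      · exact THR_mca_append l3 (THR_mca_append l2 (h3 t (by omega)))
      · obtain rfl : t = m + 1 := by omega
        rw [THR_rec g j hj m]
        exact h9

theorem THR_table {n r : ℕ} (g : Fin r → BF n) (R : ℕ) (l : List (BF n))
    (hl : Gates MB n l) (hg : ∀ i, MCa l (g i)) :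
    ∀ j, j ≤ r → ∃ l', Gates MB n (l' ++ l) ∧ l'.length ≤ 2 * R * j ∧
      ∀ t, t ≤ R → MCa (l' ++ l) (fun x => decide (t ≤ THR_c g j x)) := by
  intro j
  induction j with
  | zero =>
    intro _
    refine ⟨[], hl, by simp, ?_⟩
    intro t _
    left
    refine ⟨decide (t ≤ 0), fun x => ?_⟩
    have e : THR_c g 0 x = 0 := by
      unfold THR_c
      simp
    show decide (t ≤ THR_c g 0 x) = decide (t ≤ 0)
    rw [e]
  | succ j ih =>
    intro hj
    obtain ⟨l1, h1, h2, h3⟩ := ih (by omega)
    obtain ⟨l2, h4, h5, h6⟩ := THR_row g j (by omega) R (l1 ++ l) h1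
      (THR_mca_append l1 (hg _)) h3 R le_rfl
    refine ⟨l2 ++ l1, ?_, ?_, ?_⟩
    · rw [List.append_assoc]
      exact h4
    · rw [List.length_append]
      nlinarith
    · intro t ht
      rw [List.append_assoc]
      exact h6 t ht

theorem t_THR : S_THR := by
  intro n r l g hl hg θ
  rcases Nat.lt_or_ge r θ with h | h
  · refine ⟨[], hl, by simp, Or.inl ⟨false, fun x => ?_⟩⟩
    rw [decide_eq_false_iff_not, not_le]
    refine lt_of_le_of_lt (Finset.card_filter_le _ _) ?_
    rw [Finset.card_univ, Fintype.card_fin]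
    exact h
  · obtain ⟨l', h1, h2, h3⟩ := THR_table g r l hl hg r le_rfl
    refine ⟨l', h1, ?_, ?_⟩
    · nlinarith
    · have h4 := h3 θ h
      have e : (fun x => decide (θ ≤ THR_c g r x)) = (fun x : Fin n → Bool =>
          decide (θ ≤ (Finset.univ.filter fun i => g i x = true).card)) := by
        funext x
        unfold THR_c
        congr 3
        ext i
        simp
      rw [e] at h4
      exact h4

end Pool.Agent.H547R7
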