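import Pool.Agent.H547R7.Stm

/-!
# The sum of two independent copies of a generator
-/

set_option autoImplicit false

namespace Pool.Agent.H547R7

open Pool.Agent.H547R6 Pool.Agent.NPC Pool.Agent.H424R2.PPAD

/-- average -/
private noncomputable def XOR_av {X : Type} [Fintype X] (f : X → ℝ) : ℝ :=
  (∑ x, f x) / Fintype.card X

private lemma XOR_pr {X : Type} [Fintype X] (p : X → Bool) :
    pr p = XOR_av (fun x => if p x = true then (1 : ℝ) else 0) := by
  unfold pr XOR_av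
  rw [Finset.sum_boole]

private lemma XOR_card_pos (X : Type) [Fintype X] [Nonempty X] :
    (0 : ℝ) < Fintype.card X := by
  exact_mod_cast Fintype.card_pos

private lemma XOR_close {X : Type} [Fintype X] [Nonempty X] (f g : X → ℝ) (δ : ℝ)
    (h : ∀ x, |f x - g x| ≤ δ) : |XOR_av f - XOR_av g| ≤ δ := by
  have hc := XOR_card_pos X
  unfold XOR_av
  rw [← sub_div, ← Finset.sum_sub_distrib, abs_div, abs_of_pos hc, div_le_iff₀ hc]
  calc |∑ x, (f x - g x)| ≤ ∑ x, |f x - g x| := Finset.abs_sum_le_sum_abs _ _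
    _ ≤ ∑ _x : X, δ := Finset.sum_le_sum fun x _ => h x
    _ = δ * Fintype.card X := by
        rw [Finset.sum_const, Finset.card_univ, nsmul_eq_mul, mul_comm]

private lemma XOR_layer {X : Type} [Fintype X] [Nonempty X] (v : X → ℕ) (lo hi : ℕ)
    (h1 : ∀ x, lo ≤ v x) (h2 : ∀ x, v x ≤ hi) :
    XOR_av (fun x => (v x : ℝ)) =
      lo + ∑ θ ∈ Finset.Ioc lo hi, pr (fun x => decide (θ ≤ v x)) := by
  have hc := XOR_card_pos X
  have key : ∀ x, (v x : ℝ) = lo + ∑ θ ∈ Finset.Ioc lo hi, (if θ ≤ v x then (1 : ℝ) else 0) := by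
    intro x
    rw [Finset.sum_boole]
    have : (Finset.Ioc lo hi).filter (fun θ => θ ≤ v x) = Finset.Ioc lo (v x) := by
      ext θ
      simp only [Finset.mem_filter, Finset.mem_Ioc]
      have := h2 x
      omega
    rw [this, Nat.card_Ioc]
    have := h1 x
    push_cast [Nat.cast_sub this]
    ring
  have e : ∑ θ ∈ Finset.Ioc lo hi, pr (fun x => decide (θ ≤ v x)) =
      (∑ x, ∑ θ ∈ Finset.Ioc lo hi, (if θ ≤ v x then (1 : ℝ) else 0)) / Fintype.card X := by
    rw [Finset.sum_comm, Finset.sum_div]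
    refine Finset.sum_congr rfl fun θ _ => ?_
    rw [XOR_pr]
    unfold XOR_av
    simp only [decide_eq_true_eq]
  rw [e]
  unfold XOR_av
  rw [div_eq_iff hc.ne', add_mul, div_mul_cancel₀ _ hc.ne']
  rw [Finset.sum_congr rfl fun x _ => key x, Finset.sum_add_distrib, Finset.sum_const,
    Finset.card_univ, nsmul_eq_mul, mul_comm]

private lemma XOR_vx {n : ℕ} (x y : Fin n → Bool) : vx x (vx x y) = y := by
  funext i
  simp [vx]

private lemma XOR_pair {Ω : Type} [Fintype Ω] [Nonempty Ω] {n : ℕ} (G : Ω → Fin n → Bool)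
    (C : BF n) :
    pr (fun w : Ω × Ω => C (vx (G w.1) (G w.2))) =
      XOR_av (fun w : Ω => pr (fun w' => C (vx (G w') (G w)))) := by
  have hc := XOR_card_pos Ω
  rw [XOR_pr]
  simp only [XOR_pr]
  unfold XOR_av
  rw [Fintype.card_prod, Nat.cast_mul, Fintype.sum_prod_type_right, ← Finset.sum_div, div_div]

private lemma XOR_full {Ω : Type} [Fintype Ω] [Nonempty Ω] {n : ℕ} (G : Ω → Fin n → Bool)
    (C : BF n) :
    XOR_av (fun y : Fin n → Bool => pr (fun w' => C (vx (G w') y))) = pr C := by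
  have hc := XOR_card_pos Ω
  simp only [XOR_pr]
  unfold XOR_av
  rw [← Finset.sum_div, Finset.sum_comm]
  have : ∀ w : Ω, ∑ y : Fin n → Bool, (if C (vx (G w) y) = true then (1 : ℝ) else 0) =
      ∑ y : Fin n → Bool, (if C y = true then (1 : ℝ) else 0) := by
    intro w
    refine Finset.sum_bijective (fun y => vx (G w) y) ?_ (by simp) (fun y _ => rfl)
    exact Function.Involutive.bijective (fun y => XOR_vx (G w) y)
  rw [Finset.sum_congr rfl fun w _ => this w, Finset.sum_const, Finset.card_univ, nsmul_eq_mul,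
    mul_div_assoc, mul_div_assoc]
  field_simp

/-- the sum of two independent copies of a generator -/
theorem t_XOR : S_XOR := by
  intro Ω _ _ n G C T s ε δ hT hε0 hε1 hδ h1 h2 h3
  have hT' : (0 : ℝ) < T := by exact_mod_cast hT
  set v : (Fin n → Bool) → ℕ :=
    fun y => (Finset.univ.filter fun i => C (vx (G (s i)) y) = true).card with hv
  set h : (Fin n → Bool) → ℝ := fun y => pr (fun w => C (vx (G w) y)) with hh
  have h1' : ∀ y, |(v y : ℝ) / T - h y| ≤ δ := h1
  have h2' : ∀ θ : ℕ, |pr (fun w => decide (θ ≤ v (G w))) - pr (fun y => decide (θ ≤ v y))| ≤ ε :=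
    h2
  have h3' : ∀ y, |h y - pr C| ≤ ε := h3
  obtain ⟨y0, hy0⟩ := Finite.exists_min v
  obtain ⟨y1, hy1⟩ := Finite.exists_max v
  have hlohi : v y0 ≤ v y1 := hy0 y1
  -- the range of `v`
  have hrange : ((v y1 : ℝ) - v y0) / T ≤ 2 * (ε + δ) := by
    have a1 := abs_le.1 (h1' y0)
    have a2 := abs_le.1 (h1' y1)
    have a3 := abs_le.1 (h3' y0)
    have a4 := abs_le.1 (h3' y1)
    rw [sub_div]
    linarith [a1.1, a1.2, a2.1, a2.2, a3.1, a3.2, a4.1, a4.2]
  have e1 := XOR_layer (fun w : Ω => v (G w)) (v y0) (v y1) (fun w => hy0 _) (fun w => hy1 _)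
  have e2 := XOR_layer v (v y0) (v y1) hy0 hy1
  have hd : |XOR_av (fun w : Ω => (v (G w) : ℝ)) - XOR_av (fun y => (v y : ℝ))| ≤
      ((v y1 : ℝ) - v y0) * ε := by
    rw [e1, e2, add_sub_add_left_eq_sub, ← Finset.sum_sub_distrib]
    calc |∑ θ ∈ Finset.Ioc (v y0) (v y1), (pr (fun w => decide (θ ≤ v (G w))) -
          pr (fun y => decide (θ ≤ v y)))|
        ≤ ∑ θ ∈ Finset.Ioc (v y0) (v y1), |pr (fun w => decide (θ ≤ v (G w))) -
          pr (fun y => decide (θ ≤ v y))| := Finset.abs_sum_le_sum_abs _ _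
      _ ≤ ∑ _θ ∈ Finset.Ioc (v y0) (v y1), ε := Finset.sum_le_sum fun θ _ => h2' θ
      _ = ((v y1 : ℝ) - v y0) * ε := by
          rw [Finset.sum_const, Nat.card_Ioc, nsmul_eq_mul, Nat.cast_sub hlohi]
  have c1 : |XOR_av (fun w : Ω => (v (G w) : ℝ) / T) - XOR_av (fun w : Ω => h (G w))| ≤ δ :=
    XOR_close _ _ _ fun w => h1' (G w)
  have c2 : |XOR_av (fun y => (v y : ℝ) / T) - XOR_av h| ≤ δ :=
    XOR_close _ _ _ fun y => h1' y
  have d1 : XOR_av (fun w : Ω => (v (G w) : ℝ) / T) = XOR_av (fun w : Ω => (v (G w) : ℝ)) / T := by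
    unfold XOR_av
    rw [← Finset.sum_div, div_right_comm]
  have d2 : XOR_av (fun y => (v y : ℝ) / T) = XOR_av (fun y => (v y : ℝ)) / T := by
    unfold XOR_av
    rw [← Finset.sum_div, div_right_comm]
  have hd' : |XOR_av (fun w : Ω => (v (G w) : ℝ) / T) - XOR_av (fun y => (v y : ℝ) / T)| ≤
      2 * (ε + δ) * ε := by
    rw [d1, d2, ← sub_div, abs_div, abs_of_pos hT']
    calc _ ≤ ((v y1 : ℝ) - v y0) * ε / T := by gcongr
      _ = ((v y1 : ℝ) - v y0) / T * ε := by ring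
      _ ≤ _ := by gcongr
  have p1 : pr (fun w : Ω × Ω => C (vx (G w.1) (G w.2))) = XOR_av (fun w : Ω => h (G w)) :=
    XOR_pair G C
  have p2 : XOR_av h = pr C := XOR_full G C
  rw [p1, ← p2]
  have f1 := abs_le.1 c1
  have f2 := abs_le.1 c2
  have f3 := abs_le.1 hd'
  have f4 : δ * ε ≤ δ := by nlinarith
  rw [abs_le]
  constructor <;> nlinarith [f1.1, f1.2, f2.1, f2.2, f3.1, f3.2]

end Pool.Agent.H547R7
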